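import Pool.Agent.Lib.MP_de485e_gt.Big.BDef

/-! The reaction term of the second quantity in terms of the trace free form. -/

namespace Pool.Agent.Lib.MP_de485e_gt.Hi.Arr

variable {ι : Type} [Fintype ι] {X : Arr ι ℝ}

private theorem sw (f : ι → ℝ) (A : ι → ι → ℝ) (g : ι → ℝ) :
    ∑ a, f a * ∑ c, A a c * g c = ∑ c, (∑ a, f a * A a c) * g c := by
  simp only [Finset.mul_sum, Finset.sum_mul]
  rw [Finset.sum_comm]
  exact Finset.sum_congr rfl fun _ _ => Finset.sum_congr rfl fun _ _ => by ring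

private theorem A4_T (a b c : ι) :
    X.T a b c = X.T0 a b c + (X.n : ℝ)⁻¹ * (X.P a b * X.HH c) := by
  rw [T0, smul_eq_mul, sub_add_cancel]

section

variable (h : X.Good) {e : ι → ℝ} (he : X.UT e)
include h

private theorem A4_Xtan (c : ι) : X.Tan fun b => X.Xe e b c :=
  A1_tan_sum fun a => by
    simpa only [mul_comm (e a), h.T0_symm a] using A1_tan_mul (h.T0_tan a c) (e a)

include he

private theorem A4_eP (b : ι) : ∑ a, e a * X.P a b = e b :=
  (Finset.sum_congr rfl fun a _ => by rw [mul_comm, h.Psymm]).trans (he.1 b)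

private theorem A4_Tf (b c : ι) :
    X.Tf e b c = X.Xe e b c + (X.n : ℝ)⁻¹ * (e b * X.HH c) := by
  rw [Tf, Xe, ← A4_eP h he b, Finset.sum_mul, Finset.mul_sum, ← Finset.sum_add_distrib]
  exact Finset.sum_congr rfl fun a _ => by rw [A4_T]; ring

end

/-- Put `T = T0 + P HH / n`, `G_eq`, `M_eq`, `W_eq`; with `A = AH / n` and `w = 1 + e2` all terms
with `⟨A e, e⟩`, `A (X, X)` and `w` cancel and `n ‖A e‖ ^ 2` remains. -/
theorem Rm_eq0 (h : X.Good) {e : ι → ℝ} (he : X.UT e)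
    (hM : ∀ d, ∑ a, e a * X.M0 a d = X.mu e * e d) :
    X.Rm0 e - X.mu e * ∑ d, X.Qe e d d = X.Rm e := by
  have hn : (X.n : ℝ) ≠ 0 := by
    have := h.A3_n
    positivity
  have hk : (X.n : ℝ) * (X.n : ℝ)⁻¹ = 1 := mul_inv_cancel₀ hn
  have hee : ∑ a, e a * e a = 1 := he.2
  have hW : (X.n : ℝ)⁻¹ * (X.n : ℝ)⁻¹ * ∑ c, X.HH c * X.HH c = 1 + X.e2 := by
    have := h.W_eq
    rw [W] at this
    rw [this]
    field_simp
  have hT : ∀ a b c, X.T a b c = X.T0 a b c + (X.n : ℝ)⁻¹ * (X.P a b * X.HH c) := A4_T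
  have hTf := A4_Tf h he
  have hXt := A4_Xtan h (e := e)
  have hV : ∀ b c, ∑ a, e a * X.T0 a b c = X.Xe e b c := fun _ _ => rfl
  have hmu : ∑ b, ∑ c, X.Xe e b c * X.Xe e b c = X.mu e := rfl
  have hQ : ∑ d, X.Qe e d d = ∑ d, ∑ c, X.Tf e d c * X.Tf e d c := rfl
  have hMe : ∀ d, ∑ a, e a * X.M a d = X.Me e d := fun _ => rfl
  have hMT : ∀ b, ∑ d, ∑ g, X.Tf e d g * X.T b d g = X.Me e b := fun b => by
    simp only [Tf, Me, M, Finset.mul_sum, Finset.sum_mul, mul_assoc]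
    exact Good.A2_s3 _
  have hM0 : ∀ d, ∑ b, ∑ c, X.Xe e b c * X.T0 d b c = X.mu e * e d := fun d => by
    rw [← hM]
    simp only [Xe, M0, Finset.mul_sum, Finset.sum_mul, mul_assoc]
    exact Good.A2_s3 _
  have hAH : ∀ d, ∑ a, e a * X.AH a d = ∑ c, X.Xe e d c * X.HH c := fun d => sw _ _ _
  have hMq : ∀ a d, X.M a d = X.M0 a d + 2 * (X.n : ℝ)⁻¹ * X.AH a d + X.P a d * (1 + X.e2) :=
    h.M_eq
  have hGq : ∀ c f, X.G c f = X.G0 c f + (X.n : ℝ)⁻¹ * (X.HH c * X.HH f) := h.G_eq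
  have hA : ∀ b f, ∑ g, X.HH g * X.T0 b f g = X.AH b f := fun b f =>
    Finset.sum_congr rfl fun _ _ => mul_comm _ _
  rw [hQ]
  unfold Rm0 Rm
  generalize (X.n : ℝ)⁻¹ = k at *
  generalize 1 + X.e2 = w at *
  obtain ⟨Y, hY⟩ : ∃ Y : ι → ℝ, ∀ b, ∑ c, X.Xe e b c * X.HH c = Y b := ⟨_, fun _ => rfl⟩
  have hYt : X.Tan Y := by
    rw [← funext hY]
    exact A1_tan_sum fun c => A1_tan_mul (hXt c) _
  obtain ⟨s, hs⟩ : ∃ s, ∑ b, e b * Y b = s := ⟨_, rfl⟩
  obtain ⟨N, hN⟩ : ∃ N, ∑ b, Y b * Y b = N := ⟨_, rfl⟩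
  have hxH : ∑ c, (∑ b, e b * X.Xe e b c) * X.HH c = s := by
    rw [← sw, ← hs]
    simp only [hY]
  have m1 : ∀ d, X.Me e d = (X.mu e + w) * e d + 2 * k * Y d := fun d => by
    have e1 : X.Me e d = ∑ a, e a * X.M0 a d + 2 * k * ∑ a, e a * X.AH a d +
        (∑ a, e a * X.P a d) * w := by
      simp only [Me, hMq, Finset.mul_sum, Finset.sum_mul, ← Finset.sum_add_distrib]
      exact Finset.sum_congr rfl fun a _ => by ring
    rw [e1, hM, hAH, hY, A4_eP h he]
    ring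
  have m2 : ∑ b, X.Me e b * Y b = (X.mu e + w) * s + 2 * k * N := by
    rw [← hs, ← hN]
    simp only [m1, Finset.mul_sum, ← Finset.sum_add_distrib]
    exact Finset.sum_congr rfl fun a _ => by ring
  have m3 : ∑ b, X.Me e b * e b = X.mu e + w + 2 * k * s := by
    rw [← mul_one (X.mu e + w), ← hs, ← hee]
    simp only [m1, Finset.mul_sum, ← Finset.sum_add_distrib]
    exact Finset.sum_congr rfl fun a _ => by ring
  have t1 : ∑ b, ∑ c, X.Xe e b c * X.Tf e b c = X.mu e + k * s := by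
    rw [← hmu, ← hs]
    simp only [hTf, ← hY, Finset.mul_sum, ← Finset.sum_add_distrib]
    exact Finset.sum_congr rfl fun a _ => Finset.sum_congr rfl fun a _ => by ring
  have tq : ∑ d, ∑ c, X.Tf e d c * X.Tf e d c = X.mu e + 2 * k * s + w := by
    have e1 : ∀ d, ∑ c, X.Tf e d c * X.Tf e d c = ∑ c, X.Xe e d c * X.Xe e d c +
        2 * k * (e d * ∑ c, X.Xe e d c * X.HH c) +
        (k * k * ∑ c, X.HH c * X.HH c) * (e d * e d) := fun d => by
      simp only [hTf, Finset.mul_sum, Finset.sum_mul, ← Finset.sum_add_distrib]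
      exact Finset.sum_congr rfl fun a _ => by ring
    simp only [e1, hW, hY, Finset.sum_add_distrib, ← Finset.mul_sum, hmu, hs, hee, mul_one]
  have t2 : ∑ c, ∑ f, X.G c f * ∑ b, X.Xe e b c * X.Tf e b f =
      ∑ c, ∑ f, X.G c f * ∑ b, X.Xe e b c * X.Xe e b f +
        k * ∑ c, (∑ b, e b * X.Xe e b c) * ∑ g, X.G c g * X.HH g := by
    have e1 : ∀ c f, ∑ b, X.Xe e b c * X.Tf e b f = ∑ b, X.Xe e b c * X.Xe e b f +
        k * ((∑ b, e b * X.Xe e b c) * X.HH f) := fun c f => by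
      simp only [hTf, Finset.mul_sum, Finset.sum_mul, ← Finset.sum_add_distrib]
      exact Finset.sum_congr rfl fun a _ => by ring
    simp only [e1, mul_add, Finset.sum_add_distrib]
    congr 1
    rw [Finset.mul_sum]
    refine Finset.sum_congr rfl fun c _ => ?_
    generalize ∑ b, e b * X.Xe e b c = x
    simp only [Finset.mul_sum]
    exact Finset.sum_congr rfl fun a _ => by ring
  have t8 : ∑ c, ∑ f, X.G c f * ∑ b, X.Xe e b c * X.Xe e b f =
      ∑ c, ∑ f, X.G0 c f * ∑ b, X.Xe e b c * X.Xe e b f + k * N := by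
    rw [← hN]
    simp only [hGq, add_mul, Finset.sum_add_distrib, ← hY, Finset.sum_mul_sum]
    congr 1
    simp only [Finset.mul_sum]
    rw [Good.A2_s3]
    exact Finset.sum_congr rfl fun _ _ => Finset.sum_congr rfl fun _ _ =>
      Finset.sum_congr rfl fun _ _ => by ring
  have t3 : ∑ d, X.Me e d * ∑ b, ∑ c, X.Xe e b c * X.T d b c =
      X.mu e * ∑ b, X.Me e b * e b + k * ∑ b, X.Me e b * Y b := by
    have e1 : ∀ d, ∑ b, ∑ c, X.Xe e b c * X.T d b c = X.mu e * e d + k * Y d := fun d => by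
      rw [← hM0, ← hYt d]
      simp only [hT, ← hY, Finset.mul_sum, ← Finset.sum_add_distrib]
      exact Finset.sum_congr rfl fun a _ => Finset.sum_congr rfl fun a _ => by ring
    simp only [e1, Finset.mul_sum, ← Finset.sum_add_distrib]
    exact Finset.sum_congr rfl fun a _ => by ring
  have t4 : ∑ b, ∑ d, X.M b d * ∑ c, X.Xe e b c * X.Tf e d c =
      ∑ b, ∑ d, X.M b d * ∑ c, X.Xe e b c * X.Xe e d c + k * ∑ b, X.Me e b * Y b := by
    have e1 : ∀ b d, ∑ c, X.Xe e b c * X.Tf e d c = ∑ c, X.Xe e b c * X.Xe e d c +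
        k * (e d * Y b) := fun b d => by
      simp only [hTf, ← hY, Finset.mul_sum, ← Finset.sum_add_distrib]
      exact Finset.sum_congr rfl fun a _ => by ring
    simp only [e1, ← hMe, Finset.sum_mul, mul_add, Finset.sum_add_distrib]
    congr 1
    rw [Finset.mul_sum]
    refine Finset.sum_congr rfl fun b _ => ?_
    rw [Finset.mul_sum]
    exact Finset.sum_congr rfl fun d _ => by rw [Good.M_symm d]; ring
  obtain ⟨Q, hQ'⟩ : ∃ Q, ∑ b, ∑ d, X.AH b d * ∑ c, X.Xe e b c * X.Xe e d c = Q := ⟨_, rfl⟩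
  have t7 : ∑ b, ∑ d, X.M b d * ∑ c, X.Xe e b c * X.Xe e d c =
      ∑ b, ∑ d, X.M0 b d * ∑ c, X.Xe e b c * X.Xe e d c + 2 * k * Q + w * X.mu e := by
    have e1 : ∀ b, ∑ d, X.P b d * ∑ c, X.Xe e b c * X.Xe e d c = ∑ c, X.Xe e b c * X.Xe e b c :=
      fun b => A1_tan_sum (fun c => by
        simpa only [mul_comm] using A1_tan_mul (hXt c) (X.Xe e b c)) b
    rw [← hQ', ← hmu]
    rw [← Finset.sum_congr rfl fun b _ => e1 b, Finset.mul_sum, Finset.mul_sum,
      ← Finset.sum_add_distrib, ← Finset.sum_add_distrib]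
    refine Finset.sum_congr rfl fun b _ => ?_
    rw [Finset.mul_sum, Finset.mul_sum, ← Finset.sum_add_distrib, ← Finset.sum_add_distrib]
    exact Finset.sum_congr rfl fun d _ => by rw [hMq]; ring
  have t5 : ∑ b, ∑ d, ∑ f, (∑ g, X.Tf e d g * X.T b f g) * ∑ c, X.Xe e b c * X.T d f c =
      ∑ b, ∑ d, ∑ f, (∑ g, X.Xe e d g * X.T0 b f g) * ∑ c, X.Xe e b c * X.T0 d f c +
        k * (X.mu e * s) + k * Q + w * X.mu e + k * ∑ b, X.Me e b * Y b := by
    obtain ⟨α, hα⟩ : ∃ α : ι → ι → ι → ℝ, ∀ b d f, ∑ c, X.Xe e b c * X.T0 d f c = α b d f :=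
      ⟨_, fun _ _ _ => rfl⟩
    have a1 : ∀ b d, X.Tan (α b d) := fun b d => by
      rw [← funext (hα b d)]
      exact A1_tan_sum fun c => by
        simpa only [mul_comm (X.Xe e b c), h.T0_symm d] using A1_tan_mul (h.T0_tan d c) (X.Xe e b c)
    have a2 : ∀ d, ∑ b, α b d b = X.mu e * e d := fun d => by
      simp only [← hα, hM0]
    have a3 : ∀ b f, ∑ d, e d * α b d f = ∑ c, X.Xe e b c * X.Xe e f c := fun b f => by
      simp only [← hα, mul_comm (X.Xe e b _)]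
      exact sw _ _ _
    have p1 : ∀ d b, X.Tan fun f => ∑ g, X.Tf e d g * X.T b f g := fun d b =>
      A1_tan_sum fun g => by
        simpa only [mul_comm (X.Tf e d g)] using A1_tan_mul (h.Ttan' b g) (X.Tf e d g)
    have p2 : ∀ d b f, ∑ g, X.Tf e d g * X.T b f g =
        α d b f + k * (Y d * X.P b f) + k * (e d * X.AH b f) + w * (e d * X.P b f) := fun d b f => by
      simp only [hTf, hT, ← hα, ← hY, ← hA, ← hW, Finset.mul_sum, Finset.sum_mul,
        ← Finset.sum_add_distrib]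
      exact Finset.sum_congr rfl fun a _ => by ring
    have q2 : ∀ b d f, ∑ c, X.Xe e b c * X.T d f c = α b d f + k * (Y b * X.P d f) :=
      fun b d f => by
        simp only [hT, ← hα, ← hY, Finset.mul_sum, Finset.sum_mul, ← Finset.sum_add_distrib]
        exact Finset.sum_congr rfl fun a _ => by ring
    have r1 : ∀ b d, ∑ f, (∑ g, X.Tf e d g * X.T b f g) * ∑ c, X.Xe e b c * X.T d f c =
        ∑ f, α d b f * α b d f + k * (Y d * α b d b) + k * ∑ f, X.AH b f * (e d * α b d f) +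
          w * (e d * α b d b) + k * (Y b * ∑ g, X.Tf e d g * X.T b d g) := fun b d => by
      have e1 : ∑ f, X.P d f * ∑ g, X.Tf e d g * X.T b f g = ∑ g, X.Tf e d g * X.T b d g :=
        p1 d b d
      rw [← e1, ← a1 b d b]
      simp only [q2, p2]
      simp only [Finset.mul_sum, ← Finset.sum_add_distrib]
      exact Finset.sum_congr rfl fun a _ => by ring
    have r2 : ∑ b, ∑ d, Y d * α b d b = X.mu e * s := by
      rw [Finset.sum_comm]
      simp only [← Finset.mul_sum, a2]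
      rw [← hs, Finset.mul_sum]
      exact Finset.sum_congr rfl fun a _ => by ring
    have r3 : ∑ b, ∑ d, ∑ f, X.AH b f * (e d * α b d f) = Q := by
      rw [← hQ']
      refine Finset.sum_congr rfl fun b _ => ?_
      rw [Finset.sum_comm]
      simp only [← Finset.mul_sum, a3]
    have r4 : ∑ b, ∑ d, e d * α b d b = X.mu e := by
      rw [Finset.sum_comm]
      simp only [← Finset.mul_sum, a2, mul_left_comm (e _), hee, mul_one]
    simp only [r1, hα, Finset.sum_add_distrib, ← Finset.mul_sum, r2, r3, r4, hMT,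
      mul_comm (X.Me e _)]
  have t6 : ∑ c, (∑ b, e b * X.Xe e b c) * (-(X.n * X.HH c) + 2 * ∑ g, X.G c g * X.HH g) =
      -(X.n * s) + 2 * ∑ c, (∑ b, e b * X.Xe e b c) * ∑ g, X.G c g * X.HH g := by
    rw [← hxH, Finset.mul_sum, Finset.mul_sum, ← Finset.sum_neg_distrib, ← Finset.sum_add_distrib]
    exact Finset.sum_congr rfl fun a _ => by ring
  simp only [hY, sq (Y _), hN]
  rw [t1, t2, t3, t4, t5, t6, t7, t8, tq, m2, m3]
  ring

theorem K.mono {n : ℕ} {p p' : Par n} (k : X.K p) (hZ : p'.Z = p.Z) (hm : p'.m = p.m)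
    (hl : p'.l = p.l) (hY : p.Y ≤ p'.Y) : X.K p' := by
  intro ν e e' h1 h2 h3
  have := k ν e e' h1 h2 h3
  simp only [Par.Phi, Par.E, Par.mu1, Par.mu0, Par.eps0, Par.g, hZ, hm, hl] at this ⊢
  linarith

end Pool.Agent.Lib.MP_de485e_gt.Hi.Arr
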