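import Pool.Agent.Lib.MP_de485e_gt.Hi.ADef

/-! The second quantity and the second pinching condition. -/

open scoped RealInnerProductSpace

namespace Pool.Agent.Lib.MP_de485e_gt.Hi

namespace Par

variable {n : ℕ} (p : Par n)

/-- The excess of `Y` over the value for `θ = 2`. -/
noncomputable def kap : ℝ := p.Y - (1 + p.Z) * p.Z / (1 + 2 * p.Z)

/-- The parameters with excess `κ`. -/
noncomputable def withK (κ : ℝ) : Par n :=
  { p with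
    θ := max (3 / 2) (min 2 ((1 + p.Z) / ((1 + p.Z) * p.Z / (1 + 2 * p.Z) + κ) - 1 / p.Z))
    hθ := Or.inr (Or.inr ⟨le_max_left _ _, max_le (by norm_num) (min_le_left _ _)⟩) }

/-- The parameters with `θ = 3 / 2`. -/
noncomputable def th32 : Par n :=
  { p with θ := 3 / 2, hθ := Or.inr (Or.inr ⟨le_rfl, by norm_num⟩) }

end Par

namespace SF

variable {n : ℕ} {V N : Type} [NormedAddCommGroup V] [InnerProductSpace ℝ V]
  [NormedAddCommGroup N] [InnerProductSpace ℝ N] (S : SF n V N)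

noncomputable def mu (e : V) : ℝ := ∑ j, ‖S.h0 e (S.b j)‖ ^ 2
/-- Squared norm of `A e`, `A` the trace free shape operator in direction `ξ`. -/
noncomputable def rw (ξ : N) (e : V) : ℝ := ∑ j, ⟪S.h0 e (S.b j), ξ⟫ ^ 2
noncomputable def ta (e : V) (x z w : Fin n) : ℝ := ⟪S.h0 (S.b x) (S.b z), S.h0 e (S.b w)⟫
noncomputable def I1 (e : V) : ℝ := ∑ x, ∑ z, ∑ w, S.ta e x z w ^ 2
noncomputable def I4 (e : V) : ℝ := -2 * ∑ x, ∑ z, ∑ w, S.ta e x z w * S.ta e w z x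
noncomputable def I3 (e : V) : ℝ := ∑ i, ∑ k, S.M0 i k * ⟪S.h0 e (S.b i), S.h0 e (S.b k)⟫
/-- Half of the reaction term of `mu`. -/
noncomputable def Rm (e : V) : ℝ :=
  S.I1 e + S.I3 e + S.mu e ^ 2 + S.I4 e + n * S.rw S.eta e - n * S.mu e
/-- A unit vector where `mu` is maximal. -/
def Top (e : V) : Prop := ‖e‖ = 1 ∧ ∀ e' : V, ‖e'‖ = 1 → S.mu e' ≤ S.mu e
noncomputable def f2 (e : V) : ℝ := S.mu e - 200 * (S.e2 - kk n / n * S.u)
def K2 (φ : ℝ) : Prop := ∀ e : V, ‖e‖ = 1 → S.f2 e ≤ φ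
/-- Reaction term of the first pinching condition without the derivative of `Y`. -/
noncomputable def Rx (p : Par n) (ν : N) (e e' : V) (a b : ℝ) : ℝ :=
  p.Pa a b * ((S.A2 ν - n) * a + 2 * (n * ⟪S.eta, ν⟫) + 2 * S.Ce ν e a) +
    p.Pb a b * ((S.A2 ν - n) * b + 2 * (n * ⟪S.eta, ν⟫) + 2 * S.Ce ν e' b) -
    p.mu0 / (2 * √(p.g S.e2 S.u)) * (S.Re - kk n / n * S.Ru) +
    p.m / 10 * (4 * p.Z * ((a + b) / 2) ^ 2 + p.E S.e2 S.u)

end SF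

namespace Arr

variable {ι : Type} [Fintype ι]

section ring

variable {R : Type} [CommRing R] [Algebra ℝ R] (X : Arr ι R)

noncomputable def Xe (e : ι → R) (b c : ι) : R := ∑ a, e a * X.T0 a b c
noncomputable def mu (e : ι → R) : R := ∑ b, ∑ c, X.Xe e b c * X.Xe e b c

end ring

variable (X : Arr ι ℝ)

def Tf (e : ι → ℝ) (b c : ι) : ℝ := ∑ a, e a * X.T a b c
def Me (e : ι → ℝ) (d : ι) : ℝ := ∑ a, e a * X.M a d
/-- Half of the reaction term of `mu` along the projection of a constant vector. -/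
noncomputable def Rm0 (e : ι → ℝ) : ℝ :=
  -(X.n * ∑ b, ∑ c, X.Xe e b c * X.Tf e b c) +
    2 * ∑ c, ∑ f, X.G c f * ∑ b, X.Xe e b c * X.Tf e b f +
    2 * ∑ d, X.Me e d * ∑ b, ∑ c, X.Xe e b c * X.T d b c +
    2 * ∑ b, ∑ d, X.M b d * ∑ c, X.Xe e b c * X.Tf e d c -
    2 * ∑ b, ∑ d, ∑ f, (∑ g, X.Tf e d g * X.T b f g) * ∑ c, X.Xe e b c * X.T d f c -
    (X.n : ℝ)⁻¹ * (2 * ∑ b, X.Me e b * ∑ c, X.Xe e b c * X.HH c +
      ∑ c, (∑ b, e b * X.Xe e b c) * (-(X.n * X.HH c) + 2 * ∑ g, X.G c g * X.HH g)) -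
    ∑ b, ∑ d, X.M b d * ∑ c, X.Xe e b c * X.Xe e d c -
    ∑ c, ∑ f, X.G c f * ∑ b, X.Xe e b c * X.Xe e b f
/-- Half of the reaction term of `mu`. -/
noncomputable def Rm (e : ι → ℝ) : ℝ :=
  ∑ c, ∑ f, X.G0 c f * ∑ b, X.Xe e b c * X.Xe e b f +
    ∑ b, ∑ d, X.M0 b d * ∑ c, X.Xe e b c * X.Xe e d c + X.mu e ^ 2 -
    2 * ∑ b, ∑ d, ∑ f, (∑ g, X.Xe e d g * X.T0 b f g) * ∑ c, X.Xe e b c * X.T0 d f c +
    (X.n : ℝ)⁻¹ * ∑ b, (∑ c, X.Xe e b c * X.HH c) ^ 2 - X.n * X.mu e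
noncomputable def f2 (e : ι → ℝ) : ℝ := X.mu e - 200 * (X.e2 - kk X.n / X.n * X.u)
def K2 (φ : ℝ) : Prop := ∀ e, X.UT e → X.f2 e ≤ φ
def Ks2 (φ : ℝ) : Prop := ∀ e, X.UT e → X.f2 e < φ

end Arr

end Pool.Agent.Lib.MP_de485e_gt.Hi
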