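import Pool.Agent.Lib.MP_de485e_gt.Hi.P7
import Pool.Agent.Lib.MP_de485e_gt.Big.BDef

/-! The commutator term when the second quantity is small. -/

open scoped RealInnerProductSpace

namespace Pool.Agent.Lib.MP_de485e_gt.Hi

variable {n : ℕ} {V N : Type} [NormedAddCommGroup V] [InnerProductSpace ℝ V]
  [FiniteDimensional ℝ V] [NormedAddCommGroup N] [InnerProductSpace ℝ N] [FiniteDimensional ℝ N]

namespace SF

variable {S : SF n V N} {p : Par n} {ν : N} {e e' : V} {a b : ℝ}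

private theorem P10_Ce {f : OrthonormalBasis (Fin n) ℝ V} {lam : Fin n → ℝ}
    (hf : ∀ i x, ⟪S.h (f i) x, ν⟫ = lam i * ⟪f i, x⟫) (e : V) (a : ℝ) :
    S.Ce ν e a = ∑ j, (a - lam j) * ‖S.h e (f j)‖ ^ 2 := by
  rw [← S.wb_Ce f]
  show a * ∑ j, ‖S.h e (f j)‖ ^ 2 -
    ∑ j, ∑ k, ⟪S.h (f j) (f k), ν⟫ * ⟪S.h e (f j), S.h e (f k)⟫ = _
  rw [Finset.mul_sum, ← Finset.sum_sub_distrib]
  refine Finset.sum_congr rfl fun j _ => ?_
  rw [Finset.sum_eq_single j (fun k _ hk => by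
    rw [hf, f.orthonormal.2 hk.symm, mul_zero, zero_mul]) (by simp), hf,
    real_inner_self_eq_norm_sq, real_inner_self_eq_norm_sq, f.orthonormal.1]
  ring

private theorem P10_tr {f : OrthonormalBasis (Fin n) ℝ V} {lam : Fin n → ℝ}
    (hf : ∀ i x, ⟪S.h (f i) x, ν⟫ = lam i * ⟪f i, x⟫) : ∑ j, lam j = n * ⟪S.eta, ν⟫ := by
  have h1 : ∑ i, S.h (f i) (f i) = (n : ℝ) • S.eta := by
    rw [← S.wb_eta f]
    exact (S.wb f).sum_h
  have h2 := congrArg (fun z => ⟪z, ν⟫) h1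
  simp only [sum_inner, real_inner_smul_left] at h2
  rw [← h2]
  refine Finset.sum_congr rfl fun j _ => ?_
  rw [hf, real_inner_self_eq_norm_sq, f.orthonormal.1]
  ring

private theorem P10_rem {Z y e2 en D σ : ℝ} (hZ : 0 ≤ Z) (hZ1 : Z ≤ 1) (hy : 0 ≤ y)
    (hen : en ^ 2 ≤ e2) (hD : (1 + Z) * D ^ 2 ≤ 48 * Z * en ^ 2 + 24 * y) (h0 : 0 ≤ σ)
    (h1 : σ ≤ 17 * y + 36 * Z * e2) (h2 : en ^ 2 * σ ≤ 9 * y * e2) :
    (Z * D * (8 * y) + D * σ) * ((1 + Z) * D) ≤ 1680 * (Z * y * e2) + 600 * y ^ 2 := by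
  have a0 : 0 ≤ 8 * Z * y + σ := by positivity
  have a1 := mul_le_mul_of_nonneg_right hD a0
  have a2 := mul_le_mul_of_nonneg_left h2 hZ
  have a3 := mul_le_mul_of_nonneg_left h1 hy
  have a4 : Z * (Z * y * en ^ 2) ≤ Z * y * e2 := by
    have b1 : Z * y * en ^ 2 ≤ Z * y * e2 := mul_le_mul_of_nonneg_left hen (mul_nonneg hZ hy)
    have b2 : 0 ≤ Z * y * en ^ 2 := by positivity
    nlinarith [mul_le_mul_of_nonneg_right hZ1 b2]
  have a5 : Z * y ^ 2 ≤ y ^ 2 := by nlinarith [mul_le_mul_of_nonneg_right hZ1 (sq_nonneg y)]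
  nlinarith

private theorem P10_row {f : OrthonormalBasis (Fin n) ℝ V} {x : V} {w : Fin n → ℝ} {D : ℝ}
    (hD : 0 ≤ D) (hwD : ∀ j, w j ≤ D) (hw : ∀ j, w j ≠ 0 → ⟪x, f j⟫ = 0) :
    ∑ j, w j * ‖S.h x (f j)‖ ^ 2 ≤ D * S.mu x := by
  unfold mu
  rw [← S.wb_row f x, Finset.mul_sum]
  refine Finset.sum_le_sum fun j _ => ?_
  by_cases hj : w j = 0
  · rw [hj, zero_mul]
    positivity
  · have h1 : S.h0 x (f j) = S.h x (f j) := by rw [h0, hw j hj, zero_smul, sub_zero]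
    rw [h1]
    exact mul_le_mul_of_nonneg_right (hwD j) (sq_nonneg _)

private theorem P10_ge {P Q c D : ℝ} (hD : 0 < D) (hc : 2 ≤ c) (hs : P + Q = c * D)
    (hp : c * D ^ 2 ≤ P * Q) (hP : 0 < P) : D ≤ P := by
  by_contra hlt
  have h1 : P < D := not_le.1 hlt
  have h2 : Q = c * D - P := by linarith
  rw [h2] at hp
  have h3 : 0 < (D - P) * (c * D) := mul_pos (by linarith) (by positivity)
  have h4 : 0 < P * P := mul_pos hP hP
  have h5 : (D - P) * (c * D) + P * P = c * D ^ 2 - P * (c * D - P) := by ring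
  linarith

private theorem P10_D {Z μ y s D : ℝ} (hZ : 0 ≤ Z) (hZ1 : Z ≤ 1) (hμ : μ ≤ Z) (hs : 0 ≤ s)
    (hy : 3 / 10 ≤ y) (hd : (1 + Z) * (D / 2) ^ 2 = Z * s ^ 2 + (1 + Z) * y - μ * s / 2) :
    1 ≤ D ^ 2 := by
  have b1 : μ * s ≤ Z * s := mul_le_mul_of_nonneg_right hμ hs
  have b2 : 0 ≤ Z * (s - 1 / 4) ^ 2 := mul_nonneg hZ (sq_nonneg _)
  have b3 : (1 + Z) * (3 / 10) ≤ (1 + Z) * y := mul_le_mul_of_nonneg_left hy (by linarith)
  refine le_of_mul_le_mul_left ?_ (show 0 < 1 + Z by linarith)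
  have b4 : Z * (s - 1 / 4) ^ 2 = Z * s ^ 2 - Z * s / 2 + Z / 16 := by ring
  have b5 : (1 + Z) * D ^ 2 = 4 * ((1 + Z) * (D / 2) ^ 2) := by ring
  linarith

private theorem P10_fin {C C' P Q D y N R u v : ℝ} (hN : 0 ≤ N) (hD : 0 < D) (hD1 : 1 ≤ D ^ 2)
    (hy : 3 / 10 ≤ y) (hR : 0 ≤ R) (hP : D ≤ P) (hQ : 0 ≤ Q) (hu : D / 2 ≤ u)
    (h1 : C ≤ D * (N / 11)) (h2 : C' ≤ y * (N * v) + R) :
    2 * (P * C + Q * C') ≤ 2 * N * y * (P * u + Q * v) + 2 * ((P + Q) * R) - N / 10 := by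
  have a1 : 3 / 10 * (D / 2) ≤ y * u := mul_le_mul hy hu (by linarith) (by linarith)
  have a2 : N * (3 / 10 * (D / 2)) ≤ N * (y * u) := mul_le_mul_of_nonneg_left a1 hN
  have a3 : C ≤ N * (y * u) + R - 1 / 20 * (N * D) := by nlinarith [mul_nonneg hN hD.le]
  have a4 := mul_le_mul_of_nonneg_left a3 (hD.le.trans hP)
  have a5 := mul_le_mul_of_nonneg_left h2 hQ
  have a6 : D * (N * D) ≤ P * (N * D) := mul_le_mul_of_nonneg_right hP (mul_nonneg hN hD.le)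
  have a7 : N * 1 ≤ N * D ^ 2 := mul_le_mul_of_nonneg_left hD1 hN
  nlinarith

/-- As `comm_le`. One of `a - en`, `en - b` is at least `D / 2`, `D = a - b`; for it
`|Ce| ≤ D mu ≤ D n / 11`. `Pa, -Pb ≥ D` (sum `(4 + 4 Z) D`, product at least `(4 + 4 Z) D ^ 2`),
`D ^ 2 ≥ 1` (`d_eq`), `y ≥ Z / 3`. -/
theorem Tch.comm_late (t : S.Tch p ν e e' a b) (hZ : 9 / 10 ≤ p.Z)
    (hμ : ∀ x : V, ‖x‖ = 1 → S.mu x ≤ n / 11) :
    2 * (p.Pa a b * S.Ce ν e a + p.Pb a b * S.Ce ν e' b) ≤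
      2 * n * p.y S.e2 S.u * (8 * p.Y + 2 * p.E S.e2 S.u - p.mu1 * (a + b) -
        ⟪S.eta, ν⟫ * (2 * p.mu1 - 4 * p.Z * (a + b))) +
      25000 * p.Z * p.y S.e2 S.u * S.e2 + 8000 * p.y S.e2 S.u ^ 2 - n / 10 := by
  have hZ9 := hZ
  replace hZ := p.hZ.le
  have hZ1 := p.Z_lt.le
  have hy := p.y_nonneg S.e2 S.u
  have hK := t.K.K0
  obtain ⟨f, lam, hf⟩ := S.exists_eig ν
  obtain ⟨hab, hPa, hPb, hPP⟩ := t.signs
  have hl : ∀ j, b ≤ lam j ∧ lam j ≤ a := fun j => by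
    have h1 := t.between (f j)
    rw [hf, real_inner_self_eq_norm_sq, f.orthonormal.1] at h1
    simpa using h1
  have key : ∀ (x : V) (c : ℝ), (∀ z, ⟪S.h x z, ν⟫ = c * ⟪x, z⟫) → ∀ j, c - lam j ≠ 0 →
      ⟪x, f j⟫ = 0 ∧ ⟪S.h x (f j), ν⟫ = 0 := fun x c hx j hj => by
    have h1 := hx (f j)
    have h2 := hf j x
    rw [S.symm, h1, real_inner_comm (f j) x] at h2
    have h3 : ⟪x, f j⟫ = 0 := by
      rw [real_inner_comm]
      exact (mul_eq_zero.1 (by linear_combination h2)).resolve_left hj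
    exact ⟨h3, by rw [h1, h3, mul_zero]⟩
  obtain ⟨σ, s0, s1, s2, s3⟩ := hK.row_split hZ hZ1 hy t.hν t.he f (fun j => a - lam j)
    (D := a - b) (fun j => by linarith [(hl j).2]) (fun j => by linarith [(hl j).1])
    (key e a t.eig)
  obtain ⟨τ, t0, t1, t2, t3⟩ := hK.row_split hZ hZ1 hy t.hν t.he' f (fun j => lam j - b)
    (D := a - b) (fun j => by linarith [(hl j).1]) (fun j => by linarith [(hl j).2])
    (fun j hj => key e' b t.eig' j fun h => hj (by linarith))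
  have c1 : -S.Ce ν e' b = ∑ j, (lam j - b) * ‖S.h e' (f j)‖ ^ 2 := by
    rw [P10_Ce hf, ← Finset.sum_neg_distrib]
    exact Finset.sum_congr rfl fun j _ => by ring
  have m1 := (P10_row (S := S) (f := f) (x := e) (w := fun j => a - lam j) (D := a - b)
    (by linarith) (fun j => by linarith [(hl j).1]) fun j hj => (key e a t.eig j hj).1).trans
    (mul_le_mul_of_nonneg_left (hμ e t.he) (by linarith))
  have m2 := (P10_row (S := S) (f := f) (x := e') (w := fun j => lam j - b) (D := a - b)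
    (by linarith) (fun j => by linarith [(hl j).2])
    fun j hj => (key e' b t.eig' j fun h => hj (by linarith)).1).trans
    (mul_le_mul_of_nonneg_left (hμ e' t.he') (by linarith))
  rw [← P10_Ce hf] at s3 m1
  rw [← c1] at t3 m2
  simp only [Finset.sum_sub_distrib, P10_tr hf, Finset.sum_const, Finset.card_univ,
    Fintype.card_fin, nsmul_eq_mul] at s3 t3
  have hen : ⟪S.eta, ν⟫ ^ 2 ≤ S.e2 := by
    have h1 := abs_real_inner_le_norm S.eta ν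
    rw [t.hν, mul_one] at h1
    rw [← sq_abs]
    exact pow_le_pow_left₀ (abs_nonneg _) h1 2
  have hmu : 0 ≤ p.mu1 * ((a + b) / 2) / 2 := by
    have h1 := t.s_nonneg
    have h2 := p.mu0_pos
    unfold Par.mu1
    positivity
  have hd := t.d_eq
  have he := t.en_le
  have hphi := t.eq
  have hy3 : 3 / 10 ≤ p.y S.e2 S.u := by
    have h1 := p.Y1_bounds.1
    have h2 : 0 ≤ p.E S.e2 S.u / (4 * (1 + p.Z)) := div_nonneg (p.E_nonneg _ _) (by linarith)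
    unfold Par.y
    linarith
  have hmu1 : p.mu1 ≤ p.Z := by
    have h0 := p.mu0_pos
    have h1 := p.mu0_l
    have h4 : p.mu0 * 14 ≤ p.mu0 * p.l := mul_le_mul_of_nonneg_left (p.l_ge S.hn) h0.le
    have h5 : p.Z * p.m ≤ p.Z * 1 := mul_le_mul_of_nonneg_left p.m_lt.le hZ
    unfold Par.mu1
    linarith
  have hs0 := t.s_nonneg
  set y := p.y S.e2 S.u
  set en := ⟪S.eta, ν⟫
  have he2 : (en - (a + b) / 2) ^ 2 ≤ ((a - b) / 2) ^ 2 := by
    rw [← sq_abs]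
    exact pow_le_pow_left₀ (abs_nonneg _) he 2
  have d1 : ((a - b) / 2) ^ 2 ≤ ((a + b) / 2) ^ 2 / 2 + y := by
    refine le_of_mul_le_mul_left ?_ (show 0 < 1 + p.Z by linarith)
    nlinarith [mul_le_mul_of_nonneg_right hZ1 (sq_nonneg ((a + b) / 2))]
  have d2 : ((a + b) / 2) ^ 2 ≤ 12 * en ^ 2 + 4 * y := by
    nlinarith [sq_nonneg ((a + b) / 2 - 4 * en)]
  have d3 : (1 + p.Z) * (a - b) ^ 2 ≤ 48 * p.Z * en ^ 2 + 24 * y := by
    nlinarith [mul_le_mul_of_nonneg_left d2 hZ, mul_le_mul_of_nonneg_right hZ1 hy]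
  have pos : 0 < (1 + p.Z) * (a - b) := mul_pos (by linarith) (by linarith)
  have r1 := (le_div_iff₀ pos).2 (P10_rem hZ hZ1 hy hen d3 s0 s1 s2)
  have r2 := (le_div_iff₀ pos).2 (P10_rem hZ hZ1 hy hen d3 t0 t1 t2)
  have r3 : (p.Pa a b - p.Pb a b) *
      ((1680 * (p.Z * y * S.e2) + 600 * y ^ 2) / ((1 + p.Z) * (a - b))) =
      4 * (1680 * (p.Z * y * S.e2) + 600 * y ^ 2) := by
    have : p.Pa a b - p.Pb a b = 4 * ((1 + p.Z) * (a - b)) := by
      unfold Par.Pa Par.Pb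
      ring
    rw [this, mul_assoc, mul_div_cancel₀ _ pos.ne']
  have r4 : 8 * p.Y + 2 * p.E S.e2 S.u - p.mu1 * (a + b) - en * (2 * p.mu1 - 4 * p.Z * (a + b)) =
      p.Pa a b * (a - en) + -p.Pb a b * (en - b) := by
    unfold Par.Phi at hphi
    unfold Par.Pa Par.Pb
    linear_combination -2 * hphi
  have hD : 0 < a - b := by linarith
  have hD1 : 1 ≤ (a - b) ^ 2 := P10_D hZ hZ1 hmu1 (by linarith) hy3 hd
  have hsum : p.Pa a b + -p.Pb a b = (4 + 4 * p.Z) * (a - b) := by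
    unfold Par.Pa Par.Pb
    ring
  have g1 : a - b ≤ p.Pa a b := P10_ge hD (by linarith) hsum hPP hPa
  have g2 : a - b ≤ -p.Pb a b :=
    P10_ge (c := 4 + 4 * p.Z) hD (by linarith) (by rw [add_comm, hsum]) (by rw [mul_comm (-p.Pb a b)]; exact hPP)
      (neg_pos.2 hPb)
  have u3 : 0 ≤ p.Z * y * S.e2 := mul_nonneg (mul_nonneg hZ hy) ((sq_nonneg _).trans hen)
  have hR : 0 ≤ (1680 * (p.Z * y * S.e2) + 600 * y ^ 2) / ((1 + p.Z) * (a - b)) :=
    div_nonneg (by positivity) pos.le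
  set R := (1680 * (p.Z * y * S.e2) + 600 * y ^ 2) / ((1 + p.Z) * (a - b))
  have u1 : S.Ce ν e a ≤ y * (n * (a - en)) + R := by linarith
  have u2 : -S.Ce ν e' b ≤ y * (n * (en - b)) + R := by linarith
  have hn0 : (0 : ℝ) ≤ n := Nat.cast_nonneg n
  rw [r4]
  rcases le_total ((a - b) / 2) (a - en) with hc | hc
  · have w := P10_fin hn0 hD hD1 hy3 hR g1 (neg_pos.2 hPb).le hc m1 u2
    rw [← sub_eq_add_neg (p.Pa a b), r3] at w
    linarith [sq_nonneg y]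
  · have w := P10_fin hn0 hD hD1 hy3 hR g2 hPa.le (u := en - b) (by linarith) m2 u1
    rw [add_comm (-p.Pb a b), ← sub_eq_add_neg (p.Pa a b), r3] at w
    linarith [sq_nonneg y]

end SF

end Pool.Agent.Lib.MP_de485e_gt.Hi
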