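import Pool.Agent.Lib.MP_de485e_gt.Hi.Br3
import Pool.Agent.Lib.MP_de485e_gt.Big.P11

/-! The second condition in terms of arrays. -/

open scoped RealInnerProductSpace

namespace Pool.Agent.Lib.MP_de485e_gt.Hi.Arr

variable {ι : Type} [Fintype ι] {X : Arr ι ℝ}

theorem Br5_dot_tan {κ : Type} [Fintype κ] {f : κ → ι → ℝ} (w : κ → ℝ) (hf : ∀ k, X.Tan (f k)) :
    X.Tan fun a => ∑ k, w k * f k a := by
  simp only [mul_comm (w _)]
  exact Br.Br2_tan_sum w hf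

/-- The components of a three index array along three vectors. -/
def Br5_c (x y z : ι → ℝ) (f : ι → ι → ι → ℝ) : ℝ :=
  dot x fun a => dot y fun b => dot z (f a b)

theorem Br5_swap (x y z : ι → ℝ) (f : ι → ι → ι → ℝ) :
    Br5_c z y x f = Br5_c x y z fun a b d => f d b a := by
  simp only [Br5_c, dot, Finset.mul_sum]
  rw [Finset.sum_comm]
  rw [Finset.sum_congr rfl fun b _ => Finset.sum_comm, Finset.sum_comm]
  exact Finset.sum_congr rfl fun a _ => Finset.sum_congr rfl fun b _ =>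
    Finset.sum_congr rfl fun d _ => by ring

theorem Br5_prod (x y z : ι → ℝ) (f : ι → ι → ι → ℝ) (g : ι → ι → ℝ) :
    ∑ c, (∑ a, ∑ b, x a * y b * f a b c) * dot z (fun d => g d c) =
      Br5_c x y z fun a b d => ∑ c, f a b c * g d c := by
  simp only [Br5_c, dot, Finset.mul_sum, Finset.sum_mul]
  rw [Finset.sum_comm]
  rw [Finset.sum_congr rfl fun d _ => Finset.sum_comm, Finset.sum_comm]
  refine Finset.sum_congr rfl fun a _ => ?_
  rw [Finset.sum_congr rfl fun d _ => Finset.sum_comm, Finset.sum_comm]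
  exact Finset.sum_congr rfl fun b _ => Finset.sum_congr rfl fun d _ =>
    Finset.sum_congr rfl fun c _ => by ring

theorem Br5_sq (f : ι → ι → ι → ℝ) (g : ι → ι → ℝ) :
    ∑ a, ∑ b, ∑ d, (∑ c, f a b c * g d c) * ∑ c, f a b c * g d c =
      ∑ c, ∑ k, (∑ a, ∑ b, f a b c * f a b k) * ∑ d, g d c * g d k := by
  have h1 : ∀ G : ι → ι → ι → ℝ, ∑ i, ∑ c, ∑ k, G i c k = ∑ c, ∑ k, ∑ i, G i c k := fun G => by
    rw [Finset.sum_comm]
    exact Finset.sum_congr rfl fun c _ => Finset.sum_comm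
  have h2 : ∀ a b d, (∑ c, f a b c * g d c) * ∑ c, f a b c * g d c =
      ∑ c, ∑ k, f a b c * f a b k * (g d c * g d k) := fun a b d => by
    rw [Finset.sum_mul_sum]
    exact Finset.sum_congr rfl fun c _ => Finset.sum_congr rfl fun k _ => by ring
  have h3 : ∀ a b, ∑ d, ∑ c, ∑ k, f a b c * f a b k * (g d c * g d k) =
      ∑ c, ∑ k, f a b c * f a b k * ∑ d, g d c * g d k := fun a b => by
    rw [h1]
    simp only [Finset.mul_sum]
  have h4 : ∀ a, ∑ b, ∑ c, ∑ k, f a b c * f a b k * ∑ d, g d c * g d k =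
      ∑ c, ∑ k, (∑ b, f a b c * f a b k) * ∑ d, g d c * g d k := fun a => by
    rw [h1]
    simp only [Finset.sum_mul]
  rw [Finset.sum_congr rfl fun a _ => Finset.sum_congr rfl fun b _ =>
    (Finset.sum_congr rfl fun d _ => h2 a b d).trans (h3 a b),
    Finset.sum_congr rfl fun a _ => h4 a, h1]
  simp only [← Finset.sum_mul]

theorem Br5_Xe_tan (h : X.Good) (e : ι → ℝ) (c : ι) : X.Tan fun b => X.Xe e b c :=
  Br5_dot_tan (f := fun a b => X.T0 a b c) e fun a => Br.Br2_tan h a c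

theorem Br5_Xe_F (h : X.Good) (e : ι → ℝ) (b : ι) : ∑ c, X.Xe e b c * X.F c = 0 := by
  simp only [Xe, Finset.sum_mul]
  rw [Finset.sum_comm]
  simp only [mul_assoc, ← Finset.mul_sum, h.T0_F, mul_zero, Finset.sum_const_zero]

namespace Br

variable {S : SF X.n X.Vt X.Nn} (r : X.Br S) (h : X.Good)
include r h

theorem Br5_he (e y : X.Vt) (c : ι) :
    (S.h0 e y).1.ofLp c = dot y.1.ofLp fun b => X.Xe e.1.ofLp b c := by
  rw [r.h0_eq h]
  simp only [dot, Xe, Finset.mul_sum]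
  rw [Finset.sum_comm]
  exact Finset.sum_congr rfl fun b _ => Finset.sum_congr rfl fun a _ => by ring

theorem Br5_pair (x y : X.Vt) : ∑ j, ⟪S.h0 x (S.b j), S.h0 y (S.b j)⟫ =
    ∑ b, ∑ c, X.Xe x.1.ofLp b c * X.Xe y.1.ofLp b c := by
  have h1 : ∀ j, ⟪S.h0 x (S.b j), S.h0 y (S.b j)⟫ =
      ∑ c, dot (S.b j).1.ofLp (fun b => X.Xe x.1.ofLp b c) *
        dot (S.b j).1.ofLp fun b => X.Xe y.1.ofLp b c := fun j => by
    rw [inner_N, dot]
    simp only [Br5_he r h]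
  simp only [h1]
  rw [Finset.sum_comm, Finset.sum_congr rfl fun c _ => r.sum_b h (Br5_Xe_tan h x.1.ofLp c),
    Finset.sum_comm]
  rfl

theorem Br5_three {f : ι → ι → ι → ℝ} (g : ι → ι → ι → ℝ) (h1 : ∀ b d, X.Tan fun a => f a b d)
    (h2 : ∀ a d, X.Tan fun b => f a b d) (h3 : ∀ a b, X.Tan (f a b)) :
    ∑ x, ∑ z, ∑ w, Br5_c (S.b x).1.ofLp (S.b z).1.ofLp (S.b w).1.ofLp f *
      Br5_c (S.b x).1.ofLp (S.b z).1.ofLp (S.b w).1.ofLp g = ∑ a, ∑ b, ∑ d, f a b d * g a b d := by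
  have t2 : ∀ (w : ι → ℝ) a, X.Tan fun b => dot w (f a b) := fun w a =>
    Br5_dot_tan (f := fun d b => f a b d) w (h2 a)
  have t1 : ∀ z w : ι → ℝ, X.Tan fun a => dot z fun b => dot w (f a b) := fun z w =>
    Br5_dot_tan (f := fun b a => dot w (f a b)) z fun b =>
      Br5_dot_tan (f := fun d a => f a b d) w (h1 b)
  have e1 : ∀ z w : ι → ℝ, ∑ x, Br5_c (S.b x).1.ofLp z w f * Br5_c (S.b x).1.ofLp z w g =
      ∑ a, (dot z fun b => dot w (f a b)) * dot z fun b => dot w (g a b) := fun z w =>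
    r.sum_b h (t1 z w)
  have e2 : ∀ (w : ι → ℝ) a, ∑ z, (dot (S.b z).1.ofLp fun b => dot w (f a b)) *
      (dot (S.b z).1.ofLp fun b => dot w (g a b)) = ∑ b, dot w (f a b) * dot w (g a b) :=
    fun w a => r.sum_b h (t2 w a)
  have e3 : ∀ a b, ∑ w, dot (S.b w).1.ofLp (f a b) * dot (S.b w).1.ofLp (g a b) =
      ∑ d, f a b d * g a b d := fun a b => r.sum_b h (h3 a b)
  rw [Finset.sum_comm, Finset.sum_congr rfl fun z _ => Finset.sum_comm]
  simp only [e1]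
  rw [Finset.sum_comm, Finset.sum_congr rfl fun w _ => Finset.sum_comm]
  simp only [e2]
  rw [Finset.sum_comm]
  refine Finset.sum_congr rfl fun a _ => ?_
  rw [Finset.sum_comm]
  exact Finset.sum_congr rfl fun b _ => e3 a b

theorem Br5_ta (e : X.Vt) (x z w : Fin X.n) : S.ta e x z w =
    Br5_c (S.b x).1.ofLp (S.b z).1.ofLp (S.b w).1.ofLp
      fun a b d => ∑ c, X.T0 a b c * X.Xe e.1.ofLp d c := by
  rw [SF.ta, inner_N, dot, ← Br5_prod]
  exact Finset.sum_congr rfl fun c _ => by rw [r.h0_eq h, Br5_he r h]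

theorem Br5_taQ (e : X.Vt) (g : ι → ι → ι → ℝ) :
    ∑ x, ∑ z, ∑ w, S.ta e x z w * Br5_c (S.b x).1.ofLp (S.b z).1.ofLp (S.b w).1.ofLp g =
      ∑ a, ∑ b, ∑ d, (∑ c, X.T0 a b c * X.Xe e.1.ofLp d c) * g a b d := by
  simp only [Br5_ta r h]
  exact Br5_three r h g
    (fun b d => Br2_tan_sum (f := fun c a => X.T0 a b c) _ fun c => h.T0_tan b c)
    (fun a d => Br2_tan_sum (f := fun c b => X.T0 a b c) _ fun c => Br2_tan h a c)
    (fun a b => Br5_dot_tan (f := fun c d => X.Xe e.1.ofLp d c) _ fun c => Br5_Xe_tan h _ c)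

theorem Br5_I1 (e : X.Vt) : S.I1 e =
    ∑ c, ∑ f, X.G0 c f * ∑ b, X.Xe e.1.ofLp b c * X.Xe e.1.ofLp b f := by
  have h1 := Br5_taQ r h e fun a b d => ∑ c, X.T0 a b c * X.Xe e.1.ofLp d c
  simp only [← Br5_ta r h] at h1
  simp only [SF.I1, sq]
  rw [h1]
  exact Br5_sq X.T0 (X.Xe e.1.ofLp)

theorem Br5_I4 (e : X.Vt) : S.I4 e = -2 * ∑ b, ∑ d, ∑ f,
    (∑ g, X.Xe e.1.ofLp d g * X.T0 b f g) * ∑ c, X.Xe e.1.ofLp b c * X.T0 d f c := by
  have h1 := Br5_taQ r h e fun a b d => ∑ c, X.T0 d b c * X.Xe e.1.ofLp a c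
  have h2 : ∀ x z w, Br5_c (S.b x).1.ofLp (S.b z).1.ofLp (S.b w).1.ofLp
      (fun a b d => ∑ c, X.T0 d b c * X.Xe e.1.ofLp a c) = S.ta e w z x := fun x z w => by
    rw [Br5_ta r h, Br5_swap (S.b x).1.ofLp]
  simp only [h2] at h1
  rw [SF.I4, h1]
  congr 1
  refine Finset.sum_congr rfl fun b _ => ?_
  rw [Finset.sum_comm]
  simp only [mul_comm (X.T0 _ _ _)]

theorem Br5_I3 (e : X.Vt) : S.I3 e =
    ∑ b, ∑ d, X.M0 b d * ∑ c, X.Xe e.1.ofLp b c * X.Xe e.1.ofLp d c := by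
  have h1 : ∀ i k, ⟪S.h0 e (S.b i), S.h0 e (S.b k)⟫ =
      Br2_c S (fun b d => ∑ c, X.Xe e.1.ofLp b c * X.Xe e.1.ofLp d c) i k := fun i k => by
    rw [inner_N, dot, Br2_c_apply]
    simp only [Br5_he r h, dot, Finset.sum_mul_sum]
    simp only [Finset.mul_sum]
    rw [Finset.sum_comm]
    refine Finset.sum_congr rfl fun b _ => ?_
    rw [Finset.sum_comm]
    exact Finset.sum_congr rfl fun d _ => Finset.sum_congr rfl fun c _ => by ring
  simp only [SF.I3, h1, Br2_M0 r h]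
  exact Br2_sum r h _ (Br2_M0_tan h) (Br2_M0_tan' h)

theorem Br5_rw (e : X.Vt) : X.n * S.rw S.eta e =
    (X.n : ℝ)⁻¹ * ∑ b, (∑ c, X.Xe e.1.ofLp b c * X.HH c) ^ 2 := by
  have hn : (X.n : ℝ) ≠ 0 := Nat.cast_ne_zero.2 (by have := h.hn; omega)
  have h1 : ∀ y : X.Vt, ⟪S.h0 e y, S.eta⟫ =
      (X.n : ℝ)⁻¹ * dot y.1.ofLp fun b => ∑ c, X.Xe e.1.ofLp b c * X.HH c := fun y => by
    have h2 : ∀ b, ∑ c, X.Xe e.1.ofLp b c * ((X.n : ℝ)⁻¹ * X.HH c + X.F c) =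
        (X.n : ℝ)⁻¹ * ∑ c, X.Xe e.1.ofLp b c * X.HH c := fun b => by
      simp only [mul_add, Finset.sum_add_distrib, Br5_Xe_F h, add_zero, Finset.mul_sum]
      exact Finset.sum_congr rfl fun c _ => by ring
    rw [inner_N, dot]
    simp only [Br5_he r h, r.eta_eq h, dot, Finset.sum_mul]
    rw [Finset.sum_comm, Finset.mul_sum]
    refine Finset.sum_congr rfl fun b _ => ?_
    rw [mul_left_comm, ← h2, Finset.mul_sum]
    exact Finset.sum_congr rfl fun c _ => by ring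
  have h3 := r.sum_b h (g := fun b => ∑ c, X.Xe e.1.ofLp b c * X.HH c)
    (Br2_tan_sum (f := fun c b => X.Xe e.1.ofLp b c) X.HH fun c => Br5_Xe_tan h _ c)
  simp only [SF.rw, h1, mul_pow, ← Finset.mul_sum]
  simp only [sq]
  rw [h3, dot]
  field_simp

theorem mu_eq (e : X.Vt) : S.mu e = X.mu e.1.ofLp := by
  simp only [SF.mu, ← real_inner_self_eq_norm_sq]
  exact Br5_pair r h e e

theorem Rm_eq (e : X.Vt) : S.Rm e = X.Rm e.1.ofLp := by
  rw [SF.Rm, Rm, Br5_I1 r h, Br5_I3 r h, Br5_I4 r h, Br5_rw r h, mu_eq r h]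
  ring

theorem f2_eq (e : X.Vt) : S.f2 e = X.f2 e.1.ofLp := by
  rw [SF.f2, f2, mu_eq r h, r.e2_eq h, r.u_eq h]

theorem K2_iff (φ : ℝ) : S.K2 φ ↔ X.K2 φ := by
  constructor
  · intro k e he
    obtain ⟨e, rfl⟩ := he.1.lift
    rw [← f2_eq r h]
    exact k e ((UT_iff e).1 he)
  · intro k e he
    rw [f2_eq r h]
    exact k _ ((UT_iff e).2 he)

/-- As in `Tch.react_neg`: `Gn_eq`, `Ce_eq`, `first`. -/
theorem Rx_eq {p : Par X.n} {ν : X.Nn} {e e' : X.Vt} {a b : ℝ} (t : S.Tch p ν e e' a b) :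
    S.Rx p ν e e' a b = X.Rx p ν.1.ofLp e.1.ofLp e'.1.ofLp a b := by
  obtain ⟨γ, hγ⟩ := r.Gn_eq h ν
  have h2 : p.Pa a b * ⟪S.h e e - a • ν, γ⟫ + p.Pb a b * ⟪S.h e' e' - b • ν, γ⟫ = 0 := by
    rw [← real_inner_smul_left, ← real_inner_smul_left, ← inner_add_left, t.first, inner_zero_left]
  rw [SF.Rx, Rx, react, react, hγ e t.he a, hγ e' t.he' b, ← r.A2_eq h, ← r.Ce_eq h ν t.he t.ha,
    ← r.Ce_eq h ν t.he' t.hb, r.e2_eq h, r.u_eq h, r.Re_eq h, r.Ru_eq h]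
  linear_combination -2 * h2

end Br

variable (h : X.Good) {p : Par X.n}
include h

theorem K2.eig {φ : ℝ} (k : X.K2 φ) {e : ι → ℝ} (he : X.UT e) (ht : X.f2 e = φ) (d : ι) :
    ∑ a, e a * X.M0 a d = X.mu e * e d := by
  obtain ⟨S, r⟩ := h.exists_br
  obtain ⟨x, rfl⟩ := he.1.lift
  obtain ⟨y, hy⟩ := (Br3_col h d).lift
  have h1 := (((r.K2_iff h φ).2 k).top ((UT_iff x).1 he) ((r.f2_eq h x).trans ht)).eig y
  have h2 : dot x.1.ofLp (fun b => X.P b d) = x.1.ofLp d := by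
    rw [← he.1 d, dot]
    exact Finset.sum_congr rfl fun b _ => by rw [h.Psymm b d, mul_comm]
  have h3 : ∀ b c, X.Xe (fun a => X.P a d) b c = X.T0 d b c := fun b c => by
    have h4 : ∑ a, X.P d a * X.T0 a b c = X.T0 d b c := h.T0_tan b c d
    rw [← h4, Xe]
    exact Finset.sum_congr rfl fun a _ => by rw [h.Psymm a d]
  rw [r.Br5_pair h, r.mu_eq h, inner_V, hy, h2] at h1
  rw [← h1]
  simp only [h3]
  simp only [Xe, M0, Finset.mul_sum, Finset.sum_mul]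
  rw [Finset.sum_comm]
  refine Finset.sum_congr rfl fun b _ => ?_
  rw [Finset.sum_comm]
  exact Finset.sum_congr rfl fun c _ => Finset.sum_congr rfl fun a _ => by ring

theorem K.react2 (k : X.K p) (hn : (10 : ℝ) ^ 20 ≤ X.n) (hκ : p.kap ≤ 1 / 10 ^ 4) {φ : ℝ}
    (k2 : X.K2 φ) {e : ι → ℝ} (he : X.UT e) (ht : X.f2 e = φ) (h1 : (X.n : ℝ) / 30 ≤ φ)
    (h2 : φ ≤ 41 * X.n) :
    2 * X.Rm e - 200 * (X.Re - kk X.n / X.n * X.Ru) < -(X.n * φ / 600) := by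
  obtain ⟨S, r⟩ := h.exists_br
  obtain ⟨x, rfl⟩ := he.1.lift
  have := ((r.K_iff h p).2 k).react2 hn hκ ((r.K2_iff h φ).2 k2) ((UT_iff x).1 he)
    ((r.f2_eq h x).trans ht) h1 h2
  rwa [r.Rm_eq h, r.Re_eq h, r.Ru_eq h] at this

theorem K.start2 (k : X.K p) (hn : (10 : ℝ) ^ 20 ≤ X.n) (hκ : p.kap ≤ 1 / 10 ^ 4) :
    X.Ks2 (40 * X.n) := by
  obtain ⟨S, r⟩ := h.exists_br
  intro e he
  obtain ⟨x, rfl⟩ := he.1.lift
  have := ((r.K_iff h p).2 k).start2 hn hκ ((UT_iff x).1 he)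
  rwa [r.f2_eq h] at this

theorem Tch.react_grow {ν e e' : ι → ℝ} {a b : ℝ} (t : X.Tch p ν e e' a b) (hZ : 9 / 10 ≤ p.Z)
    (hκ : p.kap ≤ 1 / 10 ^ 4) :
    X.Rx p ν e e' a b + 4 * (p.m / 10 * p.Z) < 10 * X.n * p.kap := by
  obtain ⟨S, ν₀, y, y', r, rfl, rfl, rfl, s⟩ := Br3_lift h t
  rw [← r.Rx_eq h s]
  exact s.react_grow hZ hκ

theorem Tch.react_late {ν e e' : ι → ℝ} {a b : ℝ} (t : X.Tch p ν e e' a b) (hZ : 9 / 10 ≤ p.Z)
    (hκ : p.kap ≤ 1 / 10 ^ 4) (hn : (10 : ℝ) ^ 20 ≤ X.n) (k : X.K2 (X.n / 15)) :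
    X.Rx p ν e e' a b + 4 * (p.m / 10 * p.Z) < X.n * (10 * p.kap - 1 / 100) := by
  obtain ⟨S, ν₀, y, y', r, rfl, rfl, rfl, s⟩ := Br3_lift h t
  rw [← r.Rx_eq h s]
  exact s.react_late hZ hκ hn ((r.K2_iff h _).2 k)

end Pool.Agent.Lib.MP_de485e_gt.Hi.Arr
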