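import Pool.Agent.Lib.MP_de485e_gt.Big.C1x

/-! A family of symmetric matrices: the Hilbert-Schmidt count. -/

open Matrix

namespace Pool.Agent.Lib.MP_de485e_gt.Hi

variable {κ m : Type} [Fintype κ] [Fintype m] [DecidableEq m]

/-- Scalar product of matrices. -/
def ip (X Y : Matrix m m ℝ) : ℝ := ∑ p, ∑ q, X p q * Y p q

/-- Sum of the squared norms. -/
def cI (B : κ → Matrix m m ℝ) : ℝ := ∑ l, ip (B l) (B l)

/-- Squared norm of the sum of the squares. -/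
def cM (B : κ → Matrix m m ℝ) : ℝ := ip (∑ l, B l * B l) (∑ l, B l * B l)

def cJ (B : κ → Matrix m m ℝ) : ℝ := ∑ l, ∑ k, trace (B l * B k * (B l * B k))

/-- Sum of the squared norms of the anticommutators. -/
def cA (B : κ → Matrix m m ℝ) : ℝ :=
  ∑ l, ∑ k, ip (B l * B k + B k * B l) (B l * B k + B k * B l)

variable {B : κ → Matrix m m ℝ}

omit [DecidableEq m] in
theorem C1_ip (X : Matrix m m ℝ) : ip X X = C1x.fro X := by simp only [ip, C1x.fro, sq]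

omit [DecidableEq m] in
theorem C1_tr (X Y : Matrix m m ℝ) : ip X Y = trace (X * Yᵀ) := by
  simp only [ip, trace, diag, mul_apply, transpose_apply]

theorem cI_nonneg : 0 ≤ cI B :=
  Finset.sum_nonneg fun _ _ => C1_ip (B _) ▸ C1x.fro_nonneg _

theorem cA_nonneg : 0 ≤ cA B := by
  simp only [cA, C1_ip]
  exact Finset.sum_nonneg fun _ _ => Finset.sum_nonneg fun _ _ => C1x.fro_nonneg _

theorem cA_eq (hB : ∀ l, (B l)ᵀ = B l) : cA B = 2 * cM B + 2 * cJ B := by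
  simp only [cA, cM, cJ, C1_ip]
  exact C1x.anti_eq hB

theorem cI_sq_le (hB : ∀ l, (B l)ᵀ = B l) : cI B ^ 2 ≤ Fintype.card m * cM B := by
  have h3 := C1x.trace_mul_sq_le 1 (∑ p, B p * B p)
  rw [Matrix.one_mul, C1x.fro_one, trace_sum] at h3
  simpa only [cI, cM, C1_ip, C1x.fro_eq (B _), hB] using h3

/-- `LC1` of the note. -/
theorem LC1 (hB : ∀ l, (B l)ᵀ = B l) {N Ω s : ℝ} (hN : 0 ≤ N) (hΩ : 0 ≤ Ω) (hs : 0 < s)
    (c1 : ∀ X : Matrix m m ℝ, ∑ l, ip X (B l) ^ 2 ≤ N * ip X X)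
    (c2 : ∀ x : m → ℝ, ∑ l, ∑ p, (∑ q, B l p q * x q) ^ 2 ≤ Ω * ∑ q, x q ^ 2) :
    cJ B ^ 2 ≤ cI B * (Ω * cA B / 4 + N * (s * cI B + Ω * cA B / s) / 2) := by
  simp only [cJ, cI, cA, C1_ip]
  refine C1x.LC1 hB (fun X => ?_) c2 hN hs
  simpa only [C1_ip, C1_tr X (B _), hB] using c1 X

end Pool.Agent.Lib.MP_de485e_gt.Hi
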