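import Mathlib

/-! Frobenius norms of words in symmetric matrices. -/

open Matrix

namespace Pool.Agent.Lib.MP_de485e_gt.Hi.C1x

variable {ι κ : Type} [Fintype ι] [Fintype κ]

/-- Squared Frobenius norm. -/
def fro (X : Matrix ι ι ℝ) : ℝ := ∑ i, ∑ j, X i j ^ 2

theorem fro_nonneg (X : Matrix ι ι ℝ) : 0 ≤ fro X := by
  unfold fro
  positivity

theorem fro_eq (X : Matrix ι ι ℝ) : fro X = trace (X * Xᵀ) := by
  simp only [fro, trace, diag, mul_apply, transpose_apply, sq]

theorem fro_transpose (X : Matrix ι ι ℝ) : fro Xᵀ = fro X := by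
  simp only [fro, transpose_apply]
  exact Finset.sum_comm

theorem fro_one [DecidableEq ι] : fro (1 : Matrix ι ι ℝ) = Fintype.card ι := by
  rw [fro_eq, transpose_one, mul_one, trace_one]

theorem trace_mul_sq_le (X Y : Matrix ι ι ℝ) : trace (X * Y) ^ 2 ≤ fro X * fro Y := by
  have h := Finset.sum_mul_sq_le_sq_mul_sq (Finset.univ : Finset (ι × ι))
    (fun p => X p.1 p.2) fun p => Y p.2 p.1
  simp only [Fintype.sum_prod_type] at h
  rw [← fro_transpose Y]
  simpa only [trace, diag, mul_apply, fro, transpose_apply] using h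

theorem fro_sub_le (X Y : Matrix ι ι ℝ) : fro (X - Y) ≤ 2 * fro X + 2 * fro Y := by
  simp only [fro, Matrix.sub_apply, Finset.mul_sum, ← Finset.sum_add_distrib]
  refine Finset.sum_le_sum fun i _ => Finset.sum_le_sum fun j _ => ?_
  nlinarith [sq_nonneg (X i j + Y i j)]

theorem trace_sq_eq (W : Matrix ι ι ℝ) : trace (W * W) = fro W - fro (W - Wᵀ) / 2 := by
  have h1 : trace (Wᵀ * Wᵀ) = trace (W * W) := by rw [← transpose_mul, trace_transpose]
  rw [fro_eq, fro_eq, transpose_sub, transpose_transpose, sub_mul, mul_sub, mul_sub, trace_sub,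
    trace_sub, trace_sub, h1, trace_mul_comm Wᵀ W]
  ring

theorem trace_sq_le (X : Matrix ι ι ℝ) : trace (X * X) ≤ fro X := by
  have := trace_sq_eq X
  have := fro_nonneg (X - Xᵀ)
  linarith

/-- Cauchy-Schwarz in the four matrix indices. -/
theorem trace_cs2 {α β : Type} [Fintype α] [Fintype β] (U : α → Matrix ι ι ℝ)
    (W : β → Matrix ι ι ℝ) {s : ℝ} (hs : 0 < s) :
    -∑ a, ∑ b, trace (U a * W b * (U a * W b)) ≤
      (s * ∑ a, ∑ a', trace (U a * (U a')ᵀ) ^ 2 + (∑ b, ∑ b', trace (W b * (W b')ᵀ) ^ 2) / s) / 2 := by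
  have sq : ∀ {γ : Type} [Fintype γ] (X : γ → Matrix ι ι ℝ),
      ∑ a, ∑ a', trace (X a * (X a')ᵀ) ^ 2 =
        ∑ p : ι × ι × ι × ι, (∑ a, X a p.1 p.2.1 * X a p.2.2.1 p.2.2.2) ^ 2 := fun X => by
    simp only [sq, Finset.sum_mul_sum]
    rw [Finset.sum_comm (s := (Finset.univ : Finset (ι × ι × ι × ι)))]
    refine Finset.sum_congr rfl fun a _ => ?_
    rw [Finset.sum_comm (s := (Finset.univ : Finset (ι × ι × ι × ι)))]
    refine Finset.sum_congr rfl fun b _ => ?_
    simp only [trace, diag, mul_apply, transpose_apply, Fintype.sum_prod_type, Finset.sum_mul_sum]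
    refine Finset.sum_congr rfl fun i _ => ?_
    rw [Finset.sum_comm]
    refine Finset.sum_congr rfl fun k _ => Finset.sum_congr rfl fun j _ =>
      Finset.sum_congr rfl fun l _ => by ring
  set R : ι × ι × ι × ι → ℝ := fun p => ∑ a, U a p.1 p.2.1 * U a p.2.2.1 p.2.2.2 with hR
  set R' : ι × ι × ι × ι → ℝ := fun p => ∑ a, W a p.1 p.2.1 * W a p.2.2.1 p.2.2.2 with hR'
  let τ : ι × ι × ι × ι ≃ ι × ι × ι × ι :=
    ⟨fun p => (p.2.1, p.2.2.1, p.2.2.2, p.1), fun p => (p.2.2.2, p.1, p.2.1, p.2.2.1),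
      fun _ => rfl, fun _ => rfl⟩
  have h1 : ∑ a, ∑ b, trace (U a * W b * (U a * W b)) = ∑ p, R p * R' (τ p) := by
    simp only [hR, hR', Finset.sum_mul_sum]
    rw [Finset.sum_comm (s := (Finset.univ : Finset (ι × ι × ι × ι)))]
    refine Finset.sum_congr rfl fun a _ => ?_
    rw [Finset.sum_comm (s := (Finset.univ : Finset (ι × ι × ι × ι)))]
    refine Finset.sum_congr rfl fun b _ => ?_
    simp only [trace, diag, mul_apply, Fintype.sum_prod_type, Finset.sum_mul_sum, τ,
      Equiv.coe_fn_mk]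
    refine Finset.sum_congr rfl fun i _ => ?_
    rw [Finset.sum_comm]
    refine Finset.sum_congr rfl fun k _ => Finset.sum_congr rfl fun j _ =>
      Finset.sum_congr rfl fun l _ => by ring
  have h4 : ∑ p, R' (τ p) ^ 2 = ∑ p, R' p ^ 2 := Equiv.sum_comp τ fun p => R' p ^ 2
  rw [h1, sq U, sq W]
  change _ ≤ (s * ∑ p, R p ^ 2 + (∑ p, R' p ^ 2) / s) / 2
  rw [← h4, Finset.mul_sum, Finset.sum_div, ← Finset.sum_add_distrib, Finset.sum_div,
    ← Finset.sum_neg_distrib]
  refine Finset.sum_le_sum fun p _ => ?_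
  have h5 : R' (τ p) ^ 2 / s = s * (R' (τ p) / s) ^ 2 := by field_simp
  have h6 : R' (τ p) = s * (R' (τ p) / s) := by field_simp
  rw [h5]
  generalize R' (τ p) / s = w at h6
  rw [h6]
  nlinarith [mul_nonneg hs.le (sq_nonneg (R p + w))]

theorem anti_eq {B : κ → Matrix ι ι ℝ} (hB : ∀ a, (B a)ᵀ = B a) :
    ∑ p, ∑ q, fro (B p * B q + B q * B p) =
      2 * fro (∑ p, B p * B p) + 2 * ∑ l, ∑ k, trace (B l * B k * (B l * B k)) := by
  simp only [fro_eq, transpose_add, transpose_sum, transpose_mul, hB, Finset.sum_mul_sum, trace_sum]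
  simp only [Finset.mul_sum, ← Finset.sum_add_distrib]
  refine Finset.sum_congr rfl fun p _ => Finset.sum_congr rfl fun q _ => ?_
  have e1 : trace (B p * B q * (B q * B p)) = trace (B p * B p * (B q * B q)) := by
    rw [← Matrix.mul_assoc, trace_mul_comm]
    simp only [Matrix.mul_assoc]
  have e2 : trace (B q * B p * (B p * B q)) = trace (B p * B p * (B q * B q)) := by
    rw [Matrix.mul_assoc, trace_mul_comm]
    simp only [Matrix.mul_assoc]
  have e3 : trace (B q * B p * (B q * B p)) = trace (B p * B q * (B p * B q)) := by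
    rw [Matrix.mul_assoc, trace_mul_comm]
    simp only [Matrix.mul_assoc]
  simp only [Matrix.mul_add, Matrix.add_mul, trace_add]
  linarith

section words

variable {A : κ → Matrix ι ι ℝ} {K : ℝ} (hA : ∀ a, (A a)ᵀ = A a)
  (hM : ∀ v : ι → ℝ, ∑ a, ∑ i, (A a *ᵥ v) i ^ 2 ≤ K * ∑ i, v i ^ 2)

include hM in
theorem fro_left (Y : Matrix ι ι ℝ) : ∑ a, fro (A a * Y) ≤ K * fro Y := by
  have h1 : ∑ a, fro (A a * Y) = ∑ j, ∑ a, ∑ i, (A a *ᵥ fun l => Y l j) i ^ 2 := by
    rw [Finset.sum_comm]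
    refine Finset.sum_congr rfl fun a _ => ?_
    rw [fro, Finset.sum_comm]
    rfl
  rw [h1, fro, Finset.sum_comm (f := fun i j => Y i j ^ 2), Finset.mul_sum]
  exact Finset.sum_le_sum fun j _ => hM _

include hA hM in
theorem fro_right (Y : Matrix ι ι ℝ) : ∑ a, fro (Y * A a) ≤ K * fro Y := by
  rw [← fro_transpose Y]
  refine le_trans (le_of_eq (Finset.sum_congr rfl fun a _ => ?_)) (fro_left hM Yᵀ)
  rw [← fro_transpose, transpose_mul, hA]

end words

variable {B : κ → Matrix ι ι ℝ} {N K : ℝ} (hB : ∀ a, (B a)ᵀ = B a)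
  (hc : ∀ X : Matrix ι ι ℝ, ∑ l, trace (X * B l) ^ 2 ≤ N * fro X)
  (hM : ∀ v : ι → ℝ, ∑ a, ∑ i, (B a *ᵥ v) i ^ 2 ≤ K * ∑ i, v i ^ 2)

include hB hM in
theorem comm_sum : ∑ j, ∑ c, ∑ d, fro (B j * (B c * B d) - B c * B d * B j) ≤
    4 * (K * ∑ p, ∑ q, fro (B p * B q + B q * B p)) := by
  have e : ∀ j c d, B j * (B c * B d) - B c * B d * B j =
      (B j * B c + B c * B j) * B d - B c * (B j * B d + B d * B j) := fun j c d => by
    noncomm_ring
  have s1 : ∑ j, ∑ c, ∑ d, fro ((B j * B c + B c * B j) * B d) ≤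
      K * ∑ p, ∑ q, fro (B p * B q + B q * B p) := by
    simp only [Finset.mul_sum]
    exact Finset.sum_le_sum fun p _ => Finset.sum_le_sum fun q _ => fro_right hB hM _
  have s2 : ∑ j, ∑ c, ∑ d, fro (B c * (B j * B d + B d * B j)) ≤
      K * ∑ p, ∑ q, fro (B p * B q + B q * B p) := by
    simp only [Finset.mul_sum]
    refine Finset.sum_le_sum fun p _ => ?_
    rw [Finset.sum_comm]
    exact Finset.sum_le_sum fun q _ => fro_left hM _
  simp only [e]
  refine (Finset.sum_le_sum fun j _ => Finset.sum_le_sum fun c _ => Finset.sum_le_sum fun d _ =>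
    fro_sub_le _ _).trans ?_
  simp only [Finset.sum_add_distrib, ← Finset.mul_sum]
  linarith

include hB hc hM in
theorem gram_skew (hN : 0 ≤ N) :
    ∑ p : κ × κ, ∑ q : κ × κ, trace ((B p.1 * B p.2 - B p.2 * B p.1) *
      (B q.1 * B q.2 - B q.2 * B q.1)ᵀ) ^ 2 ≤
      16 * (N * (K * ∑ p, ∑ q, fro (B p * B q + B q * B p))) := by
  have e : ∀ (Y : Matrix ι ι ℝ) j k, trace (Y * (B j * B k - B k * B j)ᵀ) =
      trace ((B j * Y - Y * B j) * B k) := fun Y j k => by
    rw [transpose_sub, transpose_mul, transpose_mul, hB, hB, Matrix.mul_sub, Matrix.sub_mul,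
      trace_sub, trace_sub, ← Matrix.mul_assoc, trace_mul_comm (Y * B k), Matrix.mul_assoc,
      Matrix.mul_assoc]
  have h1 : ∀ c d j, fro (B j * (B c * B d - B d * B c) - (B c * B d - B d * B c) * B j) ≤
      2 * fro (B j * (B c * B d) - B c * B d * B j) +
        2 * fro (B j * (B d * B c) - B d * B c * B j) := fun c d j => by
    refine le_trans (le_of_eq (congrArg fro ?_)) (fro_sub_le _ _)
    noncomm_ring
  have h2 := comm_sum hB hM
  have h3 : ∑ c, ∑ d, ∑ j, fro (B j * (B c * B d) - B c * B d * B j) =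
      ∑ j, ∑ c, ∑ d, fro (B j * (B c * B d) - B c * B d * B j) := by
    rw [Finset.sum_comm (f := fun j c => ∑ d, fro (B j * (B c * B d) - B c * B d * B j))]
    exact Finset.sum_congr rfl fun _ _ => Finset.sum_comm
  have h4 : ∑ c, ∑ d, ∑ j, fro (B j * (B d * B c) - B d * B c * B j) =
      ∑ j, ∑ c, ∑ d, fro (B j * (B c * B d) - B c * B d * B j) := by
    rw [← h3, Finset.sum_comm]
  simp only [Fintype.sum_prod_type, e]
  refine (Finset.sum_le_sum fun c _ => Finset.sum_le_sum fun d _ => Finset.sum_le_sum fun j _ =>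
    (hc _).trans (mul_le_mul_of_nonneg_left (h1 c d j) hN)).trans ?_
  simp only [← Finset.mul_sum, Finset.sum_add_distrib]
  rw [h3, h4]
  linarith [mul_le_mul_of_nonneg_left h2 hN]

include hB hc hM in
theorem LC1 (hN : 0 ≤ N) {s : ℝ} (hs : 0 < s) :
    (∑ l, ∑ k, trace (B l * B k * (B l * B k))) ^ 2 ≤ (∑ l, fro (B l)) *
      (K * (∑ p, ∑ q, fro (B p * B q + B q * B p)) / 4 +
        N * (s * ∑ l, fro (B l) + K * (∑ p, ∑ q, fro (B p * B q + B q * B p)) / s) / 2) := by
  have h1 : ∀ l, ∑ k, trace (B l * B k * (B l * B k)) = trace (B l * ∑ k, B k * B l * B k) :=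
    fun l => by simp only [Matrix.mul_sum, trace_sum, Matrix.mul_assoc]
  have h2 : (∑ l, trace (B l * ∑ k, B k * B l * B k)) ^ 2 ≤
      (∑ l, fro (B l)) * ∑ l, fro (∑ k, B k * B l * B k) := by
    have := Finset.sum_mul_sq_le_sq_mul_sq (Finset.univ : Finset (κ × ι × ι))
      (fun p => B p.1 p.2.1 p.2.2) fun p => (∑ k, B k * B p.1 * B k) p.2.2 p.2.1
    simp only [Fintype.sum_prod_type] at this
    simp only [← fro_transpose (∑ k, B k * B _ * B k)]
    simpa only [trace, diag, mul_apply (M := B _), fro, transpose_apply] using this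
  have h3 : ∀ l, 4 * fro (∑ k, B k * B l * B k) =
      ∑ c, ∑ d, trace (B l * (B c * B d + B d * B c) * (B l * (B c * B d + B d * B c))) -
      ∑ c, ∑ d, trace (B l * (B c * B d - B d * B c) * (B l * (B c * B d - B d * B c))) :=
    fun l => by
      simp only [fro_eq, transpose_sum, transpose_mul, hB, Finset.sum_mul_sum, trace_sum]
      simp only [← Finset.sum_sub_distrib, Finset.mul_sum]
      refine Finset.sum_congr rfl fun c _ => Finset.sum_congr rfl fun d _ => ?_
      have e1 : trace (B c * B l * B c * (B d * (B l * B d))) =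
          trace (B l * (B c * B d) * (B l * (B d * B c))) := by
        rw [Matrix.mul_assoc, Matrix.mul_assoc, trace_mul_comm]
        simp only [Matrix.mul_assoc]
      have e2 := trace_mul_comm (B l * (B c * B d)) (B l * (B d * B c))
      simp only [Matrix.mul_add, Matrix.add_mul, Matrix.mul_sub, Matrix.sub_mul, trace_add,
        trace_sub]
      linarith
  have h4 : ∑ l, ∑ c, ∑ d, trace (B l * (B c * B d + B d * B c) * (B l * (B c * B d + B d * B c))) ≤
      K * ∑ p, ∑ q, fro (B p * B q + B q * B p) := by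
    rw [Finset.sum_comm, Finset.mul_sum]
    refine Finset.sum_le_sum fun c _ => ?_
    rw [Finset.sum_comm, Finset.mul_sum]
    exact Finset.sum_le_sum fun d _ =>
      (Finset.sum_le_sum fun l _ => trace_sq_le _).trans (fro_left hM _)
  have h5 := trace_cs2 B (fun p : κ × κ => B p.1 * B p.2 - B p.2 * B p.1)
    (show 0 < 4 * s by positivity)
  have h6 := gram_skew hB hc hM hN
  have h7 : ∑ a, ∑ a', trace (B a * (B a')ᵀ) ^ 2 ≤ N * ∑ l, fro (B l) := by
    rw [Finset.mul_sum]
    exact Finset.sum_le_sum fun a _ => by simpa only [hB] using hc (B a)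
  have h8 := div_le_div_of_nonneg_right h6 (show 0 ≤ 4 * s by positivity)
  have h9 := mul_le_mul_of_nonneg_left h7 hs.le
  have h10 := Finset.sum_congr rfl fun l (_ : l ∈ Finset.univ) => h3 l
  rw [← Finset.mul_sum, Finset.sum_sub_distrib] at h10
  simp only [Fintype.sum_prod_type (f := fun b : κ × κ => trace (B _ * (B b.1 * B b.2 - B b.2 * B b.1) *
    (B _ * (B b.1 * B b.2 - B b.2 * B b.1))))] at h5
  simp only [h1]
  refine h2.trans (mul_le_mul_of_nonneg_left ?_ (Finset.sum_nonneg fun l _ => fro_nonneg _))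
  have h11 : 16 * (N * (K * ∑ p, ∑ q, fro (B p * B q + B q * B p))) / (4 * s) =
      4 * (N * (K * (∑ p, ∑ q, fro (B p * B q + B q * B p)) / s)) := by
    field_simp
    ring
  rw [mul_add N]
  linarith

end Pool.Agent.Lib.MP_de485e_gt.Hi.C1x
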