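import Pool.Agent.Lib.MP_de485e_gt.Big.G1

/-! Averages of forms of degree two, four and six. -/

namespace Pool.Agent.Lib.MP_de485e_gt.Hi

open Finset

variable {ι : Type} [Fintype ι] [DecidableEq ι]

theorem GE_two (q : ι → ι → ℝ) : GE (fun γ : ι → ℝ => ∑ a, ∑ b, q a b * γ a * γ b) = ∑ a, q a a := by
  simp only [mul_assoc, GE_sum, GE_mul, GE_m2]
  simp [gdl]

theorem GE_four (q q' : ι → ι → ℝ) :
    GE (fun γ : ι → ℝ => (∑ a, ∑ b, q a b * γ a * γ b) * ∑ a, ∑ b, q' a b * γ a * γ b) =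
      (∑ a, q a a) * (∑ a, q' a a) + ∑ a, ∑ b, q a b * q' a b + ∑ a, ∑ b, q a b * q' b a := by
  have e : ∀ γ : ι → ℝ, (∑ a, ∑ b, q a b * γ a * γ b) * ∑ a, ∑ b, q' a b * γ a * γ b =
      ∑ a, ∑ b, ∑ c, ∑ d, q a b * q' c d * (γ a * γ b * γ c * γ d) := fun γ => by
    rw [sum_mul]
    refine sum_congr rfl fun a _ => ?_
    rw [sum_mul]
    refine sum_congr rfl fun b _ => ?_
    simp only [mul_sum]
    exact sum_congr rfl fun c _ => sum_congr rfl fun d _ => by ring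
  simp only [e, GE_sum, GE_mul, GE_m4, mul_add, sum_add_distrib]
  simp only [gdl, mul_ite, mul_one, mul_zero, sum_ite_eq, mem_univ, if_true, sum_ite_irrel,
    sum_const_zero, sum_mul_sum]

/-- With `C` the cubic form and `t a` the sum of the three traces, integration by parts gives
`E (γ a γ b γ c C) = δ a b t c + δ a c t b + δ b c t a +` the sum of `τ` over the six orders of
`a, b, c`; then Cauchy-Schwarz six times. -/
theorem GE_six (τ : ι → ι → ι → ℝ) :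
    GE (fun γ : ι → ℝ => (∑ a, ∑ b, ∑ c, τ a b c * γ a * γ b * γ c) ^ 2) ≤
      6 * ∑ a, ∑ b, ∑ c, τ a b c ^ 2 + ∑ a, (∑ b, (τ a b b + τ b a b + τ b b a)) ^ 2 := by
  have e : ∀ γ : ι → ℝ, (∑ a, ∑ b, ∑ c, τ a b c * γ a * γ b * γ c) ^ 2 =
      ∑ i, ∑ j, ∑ k, ∑ a, ∑ b, ∑ c, τ i j k * τ a b c * (γ i * γ j * γ k * γ a * γ b * γ c) := by
    intro γ
    rw [sq, sum_mul]
    refine sum_congr rfl fun i _ => ?_
    rw [sum_mul]
    refine sum_congr rfl fun j _ => ?_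
    rw [sum_mul]
    refine sum_congr rfl fun k _ => ?_
    simp only [mul_sum]
    exact sum_congr rfl fun a _ => sum_congr rfl fun b _ => sum_congr rfl fun c _ => by ring
  simp only [e, GE_sum, GE_mul, GE_m6, mul_add, sum_add_distrib]
  simp only [gdl, mul_ite, mul_one, mul_zero, sum_ite_eq, mem_univ, if_true, sum_ite_irrel,
    sum_const_zero]
  have A' : ∀ F G : ι → ι → ℝ, ∑ x, ∑ y, ∑ z, F x y * G x z = ∑ k, (∑ i, F k i) * ∑ i, G k i :=
    fun F G => sum_congr rfl fun x _ => (sum_mul_sum _ _ _ _).symm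
  have A : ∀ F G : ι → ι → ℝ, ∑ x, ∑ y, ∑ z, F x y * G y z = ∑ k, (∑ i, F i k) * ∑ i, G k i :=
    fun F G => by
    rw [sum_comm]
    exact A' (fun y x => F x y) G
  have B : ∀ G : ι → ι → ι → ℝ, ∑ x, ∑ y, ∑ z, G x y z ^ 2 = ∑ x, ∑ y, ∑ z, τ x y z ^ 2 →
      ∑ x, ∑ y, ∑ z, τ x y z * G x y z ≤ ∑ i, ∑ j, ∑ k, τ i j k ^ 2 := fun G hG => by
    have : ∑ x, ∑ y, ∑ z, 2 * (τ x y z * G x y z) ≤ ∑ x, ∑ y, ∑ z, (τ x y z ^ 2 + G x y z ^ 2) :=
      sum_le_sum fun x _ => sum_le_sum fun y _ => sum_le_sum fun z _ => by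
        nlinarith [sq_nonneg (τ x y z - G x y z)]
    simp only [← mul_sum, sum_add_distrib] at this
    linarith
  have s1 : ∀ G : ι → ι → ι → ℝ, ∑ x, ∑ y, ∑ z, G y x z = ∑ x, ∑ y, ∑ z, G x y z :=
    fun G => sum_comm
  have s2 : ∀ G : ι → ι → ι → ℝ, ∑ x, ∑ y, ∑ z, G x z y = ∑ x, ∑ y, ∑ z, G x y z :=
    fun G => sum_congr rfl fun _ _ => sum_comm
  have b0 := B τ rfl
  have b1 := B (fun x y z => τ x z y) (s2 fun x y z => τ x y z ^ 2)
  have b2 := B (fun x y z => τ y x z) (s1 fun x y z => τ x y z ^ 2)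
  have b3 := B (fun x y z => τ z x y)
    ((s2 fun x y z => τ y x z ^ 2).trans (s1 fun x y z => τ x y z ^ 2))
  have b4 := B (fun x y z => τ y z x)
    ((s1 fun x y z => τ x z y ^ 2).trans (s2 fun x y z => τ x y z ^ 2))
  have b5 := B (fun x y z => τ z y x) (((s1 fun x y z => τ z x y ^ 2).trans
    (s2 fun x y z => τ y x z ^ 2)).trans (s1 fun x y z => τ x y z ^ 2))
  rw [A (fun x y => τ x x y) fun y z => τ y z z, A (fun x y => τ x x y) fun y z => τ z y z,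
    A (fun x y => τ x x y) fun y z => τ z z y, A (fun x y => τ x y x) fun y z => τ y z z,
    A (fun x y => τ x y x) fun y z => τ z y z, A (fun x y => τ x y x) fun y z => τ z z y,
    A' (fun x y => τ x y y) fun x z => τ x z z, A' (fun x y => τ x y y) fun x z => τ z x z,
    A' (fun x y => τ x y y) fun x z => τ z z x]
  simp only [add_sq, sq (∑ _b, _), add_mul, mul_add, two_mul, sum_add_distrib]
  simp only [mul_comm (∑ i, τ i i _) (∑ i, τ _ i i), mul_comm (∑ i, τ i i _) (∑ i, τ i _ i),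
    mul_comm (∑ i, τ i _ i) (∑ i, τ _ i i)] at *
  linarith

end Pool.Agent.Lib.MP_de485e_gt.Hi
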