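import Pool.Agent.Lib.MP_de485e_gt.Big.C1
import Pool.Agent.Lib.MP_de485e_gt.Big.G2

/-! The fourth moment of a random member of the family, and the conclusion. -/

open Matrix

namespace Pool.Agent.Lib.MP_de485e_gt.Hi

variable {κ m : Type} [Fintype κ] [DecidableEq κ] [Fintype m] [DecidableEq m]
  {B : κ → Matrix m m ℝ}

/-- Average `h4` with `GE`; `GE_four` on every entry of the square gives `2 cM + cJ`. -/
theorem LC2 (hB : ∀ l, (B l)ᵀ = B l) (Γ : κ → κ → ℝ) (hΓ : ∀ l k, Γ l k = Γ k l) {a b : ℝ}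
    (hb : 0 ≤ b)
    (h4 : ∀ c : κ → ℝ, ip ((∑ l, c l • B l) * ∑ l, c l • B l) ((∑ l, c l • B l) * ∑ l, c l • B l) ≤
      a * (∑ l, ∑ k, Γ l k * c l * c k) ^ 2 -
        b * ((∑ l, ∑ k, Γ l k * c l * c k) * ip (∑ l, c l • B l) (∑ l, c l • B l)))
    (hp : 0 ≤ ∑ l, ∑ k, Γ l k * ip (B l) (B k)) :
    cM B + cA B / 2 ≤
      a * ((∑ l, Γ l l) ^ 2 + 2 * ∑ l, ∑ k, Γ l k ^ 2) - b * ((∑ l, Γ l l) * cI B) := by
  have e : ∀ c : κ → ℝ, (∑ l, c l • B l) * ∑ l, c l • B l =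
      ∑ l, ∑ k, (c l * c k) • (B l * B k) := fun c => by
    simp only [Finset.sum_mul_sum, smul_mul_smul_comm]
  have g2 : ∀ c : κ → ℝ, ip (∑ l, c l • B l) (∑ l, c l • B l) =
      ∑ l, ∑ k, ip (B l) (B k) * c l * c k := fun c => by
    simp only [C1_tr, transpose_sum, transpose_smul, Finset.sum_mul_sum, smul_mul_smul_comm,
      trace_sum, trace_smul, smul_eq_mul]
    exact Finset.sum_congr rfl fun _ _ => Finset.sum_congr rfl fun _ _ => by ring
  have g3 : ∀ c : κ → ℝ,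
      ip ((∑ l, c l • B l) * ∑ l, c l • B l) ((∑ l, c l • B l) * ∑ l, c l • B l) =
      ∑ p, ∑ q, (∑ l, ∑ k, (B l * B k) p q * c l * c k) * ∑ l, ∑ k, (B l * B k) p q * c l * c k :=
    fun c => by
      have : ∀ p q, (∑ l, ∑ k, (c l * c k) • (B l * B k)) p q =
          ∑ l, ∑ k, (B l * B k) p q * c l * c k := fun p q => by
        simp only [Matrix.sum_apply, Matrix.smul_apply, smul_eq_mul]
        exact Finset.sum_congr rfl fun _ _ => Finset.sum_congr rfl fun _ _ => by ring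
      simp only [e, ip, this]
  have h := GE_mono h4
  simp only [g2, g3, sq, GE_sub, GE_mul, GE_sum, GE_four, Finset.sum_add_distrib] at h
  have sw : ∀ f : m → m → κ → κ → ℝ, ∑ p, ∑ q, ∑ l, ∑ k, f p q l k = ∑ l, ∑ k, ∑ p, ∑ q, f p q l k :=
    fun f => by
      have := Finset.sum_comm (s := (Finset.univ : Finset (m × m)))
        (t := (Finset.univ : Finset (κ × κ))) (f := fun x z => f x.1 x.2 z.1 z.2)
      simpa only [Fintype.sum_prod_type] using this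
  have t1 : ∑ p, ∑ q, (∑ l, (B l * B l) p q) * ∑ l, (B l * B l) p q = cM B := by
    simp only [cM, ip, Matrix.sum_apply]
  have t2 : ∑ p, ∑ q, ∑ l, ∑ k, (B l * B k) p q * (B l * B k) p q = cM B := by
    rw [sw]
    simp only [cM, C1_tr, transpose_sum, transpose_mul, hB, Finset.sum_mul_sum, trace_sum]
    refine Finset.sum_congr rfl fun l _ => Finset.sum_congr rfl fun k _ => ?_
    refine (C1_tr (B l * B k) (B l * B k)).trans ?_
    rw [transpose_mul, hB, hB, ← Matrix.mul_assoc, trace_mul_comm]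
    simp only [Matrix.mul_assoc]
  have t3 : ∑ p, ∑ q, ∑ l, ∑ k, (B l * B k) p q * (B k * B l) p q = cJ B := by
    rw [sw]
    refine Finset.sum_congr rfl fun l _ => Finset.sum_congr rfl fun k _ => ?_
    refine (C1_tr (B l * B k) (B k * B l)).trans ?_
    rw [transpose_mul, hB, hB]
  have t4 : ∑ l, ∑ k, Γ l k * Γ k l = ∑ l, ∑ k, Γ l k * Γ l k := by simp only [hΓ]
  have t5 : ∑ l, ∑ k, Γ l k * ip (B k) (B l) = ∑ l, ∑ k, Γ l k * ip (B l) (B k) := by
    refine Finset.sum_congr rfl fun l _ => Finset.sum_congr rfl fun k _ => congrArg _ ?_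
    exact Finset.sum_congr rfl fun _ _ => Finset.sum_congr rfl fun _ _ => mul_comm _ _
  rw [t1, t2, t3, t4, t5] at h
  have h1 := cA_eq hB
  have h2 := mul_nonneg hb hp
  simp only [sq, cI]
  linarith

private theorem C2_norm {i al q j t r : ℝ} (hi : 149 / 150 ≤ i) (hq : i ^ 2 ≤ q) (hal : 0 ≤ al)
    (ht0 : 0 ≤ t) (ht : t ≤ 1 / 10 ^ 6) (hr0 : 0 ≤ r) (hr : r ≤ 25 / 11)
    (h4 : q + al / 2 ≤ 7 * (1 + 2 * t) - 6 * i) (hj : al = 2 * q + 2 * j)
    (h : j ^ 2 ≤ i * ((1 + 16 * t) * al / 4 + r * (i / 3 + 3 * ((1 + 16 * t) * al)) / 2)) :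
    False := by
  have h1 : (149 / 150) ^ 2 ≤ q := (pow_le_pow_left₀ (by norm_num) hi 2).trans hq
  have h2 : al ≤ 107 / 1000 := by linarith
  have h3 : i ≤ 1001 / 1000 := by nlinarith
  have h5 : 93 / 100 ≤ -j := by linarith
  have h6 : (93 / 100) ^ 2 ≤ (-j) ^ 2 := pow_le_pow_left₀ (by norm_num) h5 2
  have h7 : (1 + 16 * t) * al ≤ 108 / 1000 := by nlinarith
  have h8 : 0 ≤ (1 + 16 * t) * al := by positivity
  generalize (1 + 16 * t) * al = w at h h7 h8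
  have h9 : r * (i / 3 + 3 * w) ≤ 25 / 11 * (1001 / 3000 + 324 / 1000) :=
    mul_le_mul hr (by linarith) (by linarith) (by norm_num)
  have h10 : 0 ≤ r * (i / 3 + 3 * w) := mul_nonneg hr0 (by linarith)
  have h11 := mul_le_mul h3 (show w / 4 + r * (i / 3 + 3 * w) / 2 ≤ 78 / 100 by linarith)
    (by linarith) (by norm_num)
  linarith

/-- By contradiction, with `s = y μ / 3`; normalise `I = i n y μ`, `A = α n y ^ 2 μ ^ 2`:
`α ≤ 0.107`, `-J ≥ 0.93 n y ^ 2 μ ^ 2`, `n y / μ ≤ 2.28`. -/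
theorem LC3 {n y μ I M A J : ℝ} (hn : 10 ^ 20 ≤ n) (hy : 0 ≤ y) (hμ : 44 / 100 * n * y ≤ μ)
    (hI : I ≤ n * y * μ) (h1 : I ^ 2 ≤ n * M) (h2 : A = 2 * M + 2 * J) (hA : 0 ≤ A)
    (h3 : M + A / 2 ≤ 7 * n * y ^ 2 * (μ ^ 2 + 2 * (y * μ)) - 6 * y * (μ * I))
    (h4 : ∀ s : ℝ, 0 < s → J ^ 2 ≤ I * (y * (μ + 16 * y) * A / 4 +
      n * y ^ 2 * (s * I + y * (μ + 16 * y) * A / s) / 2)) :
    I ≤ 149 / 150 * (n * y * μ) := by
  have hn0 : 0 < n := by linarith
  rcases hy.eq_or_lt with rfl | hy0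
  · simpa using hI
  have hny : 10 ^ 20 * y ≤ n * y := mul_le_mul_of_nonneg_right hn hy
  have hμ0 : 0 < μ := by linarith
  by_contra hc
  refine C2_norm (i := I / (n * y * μ)) (al := A / (n * y ^ 2 * μ ^ 2))
    (q := M / (n * y ^ 2 * μ ^ 2)) (j := J / (n * y ^ 2 * μ ^ 2)) (t := y / μ) (r := n * y / μ)
    ?_ ?_ (by positivity) (by positivity) ?_ (by positivity) ?_ ?_ ?_ ?_
  · rw [le_div_iff₀ (by positivity)]
    linarith
  · rw [div_pow, div_le_div_iff₀ (by positivity) (by positivity)]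
    nlinarith [mul_le_mul_of_nonneg_right h1 (show 0 ≤ n * y ^ 2 * μ ^ 2 by positivity)]
  · rw [div_le_iff₀ hμ0]
    linarith
  · rw [div_le_iff₀ hμ0]
    linarith
  · have := div_le_div_of_nonneg_right h3 (show 0 ≤ n * y ^ 2 * μ ^ 2 by positivity)
    refine le_of_eq_of_le ?_ (this.trans (le_of_eq ?_)) <;> field_simp
  · rw [h2]
    ring
  · have := div_le_div_of_nonneg_right (h4 (y * μ / 3) (by positivity))
      (show 0 ≤ (n * y ^ 2 * μ ^ 2) ^ 2 by positivity)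
    refine le_of_eq_of_le ?_ (this.trans (le_of_eq ?_)) <;> field_simp

end Pool.Agent.Lib.MP_de485e_gt.Hi
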