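import Pool.Agent.Lib.MP_de485e_gt.Big.KB
import Pool.Agent.Lib.MP_de485e_gt.Big.C2

/-! No approximate Clifford system. -/

open scoped RealInnerProductSpace

namespace Pool.Agent.Lib.MP_de485e_gt.Hi

set_option linter.unusedSectionVars false

variable {n : ℕ} {V N : Type} [NormedAddCommGroup V] [InnerProductSpace ℝ V]
  [FiniteDimensional ℝ V] [NormedAddCommGroup N] [InnerProductSpace ℝ N] [FiniteDimensional ℝ N]

namespace SF

variable {S : SF n V N} {Z y : ℝ}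

theorem C4_rw_smul (S : SF n V N) (ξ : N) (r : ℝ) (x : V) : S.rw ξ (r • x) = r ^ 2 * S.rw ξ x := by
  obtain ⟨k, hk⟩ := S.exists_h0
  simp only [rw, ← hk, map_smul, LinearMap.smul_apply, real_inner_smul_left, mul_pow,
    Finset.mul_sum]

theorem C4_norm (S : SF n V N) (x : Fin n → ℝ) : ‖∑ q, x q • S.b q‖ ^ 2 = ∑ q, x q ^ 2 := by
  rw [← S.b.sum_sq_inner_right]
  exact Finset.sum_congr rfl fun q _ => by rw [S.b.orthonormal.inner_right_fintype]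

theorem C4_swap {κ : Type} [Fintype κ] (F : κ → κ → κ → κ → ℝ) :
    ∑ l, ∑ k, ∑ p, ∑ q, F l k p q = ∑ p, ∑ q, ∑ l, ∑ k, F l k p q := by
  rw [← Fintype.sum_prod_type' fun l k => ∑ p, ∑ q, F l k p q, Finset.sum_comm]
  refine Finset.sum_congr rfl fun p _ => ?_
  rw [Finset.sum_comm]
  exact Finset.sum_congr rfl fun q _ => Fintype.sum_prod_type' fun l k => F l k p q

theorem C4_gram {κ : Type} [Fintype κ] (u : κ → N) (c : κ → ℝ) :
    ∑ l, ∑ k, ⟪u l, u k⟫ * c l * c k = ‖∑ l, c l • u l‖ ^ 2 := by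
  rw [← real_inner_self_eq_norm_sq, sum_inner]
  refine Finset.sum_congr rfl fun l _ => ?_
  rw [inner_sum]
  exact Finset.sum_congr rfl fun k _ => by
    rw [real_inner_smul_left, real_inner_smul_right]
    ring

section

variable (h : S.K0 Z y) (hZ : 0 ≤ Z) (hZ1 : Z ≤ 1) (hy : 0 ≤ y) (h0 : S.eta = 0) {e : V}
  (he : ‖e‖ = 1) (hee : S.h0 e e = 0)
include h hZ hZ1 hy h0 he hee

theorem C4_row (ξ : N) : S.rw ξ e ≤ y * ‖ξ‖ ^ 2 := by
  simpa [hee] using h.F7c hZ hZ1 hy h0 ξ he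

theorem C4_c1 (X : Matrix (Fin n) (Fin n) ℝ) :
    ∑ l, ip X (Matrix.of fun p q => S.ta e p q l) ^ 2 ≤ n * y ^ 2 * ip X X := by
  set ξ : N := ∑ p, ∑ q, X p q • S.h0 (S.b p) (S.b q) with hξ
  have e1 : ∀ ζ : N, ⟪ξ, ζ⟫ = ∑ p, ∑ q, X p q * ⟪S.h0 (S.b p) (S.b q), ζ⟫ := fun ζ => by
    simp only [hξ, sum_inner, real_inner_smul_left]
  have e2 : ∑ l, ip X (Matrix.of fun p q => S.ta e p q l) ^ 2 = S.rw ξ e :=
    Finset.sum_congr rfl fun l _ => by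
      rw [real_inner_comm, e1]
      rfl
  have hX : 0 ≤ ip X X :=
    Finset.sum_nonneg fun _ _ => Finset.sum_nonneg fun _ _ => mul_self_nonneg _
  have cs : (‖ξ‖ ^ 2) ^ 2 ≤ ip X X * S.uD ξ := by
    have := Finset.sum_mul_sq_le_sq_mul_sq Finset.univ (fun r : Fin n × Fin n => X r.1 r.2)
      fun r => ⟪S.h0 (S.b r.1) (S.b r.2), ξ⟫
    simp only [Fintype.sum_prod_type] at this
    rw [← real_inner_self_eq_norm_sq, e1 ξ]
    simpa only [ip, uD, sq] using this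
  have hn : (0 : ℝ) ≤ n := Nat.cast_nonneg n
  have e3 : ‖ξ‖ ^ 2 ≤ n * y * ip X X := by
    refine P2_div (sq_nonneg _) (by positivity) (cs.trans ?_)
    exact (mul_le_mul_of_nonneg_left (h.uD0 hZ hZ1 hy h0 ξ) hX).trans_eq (by ring)
  rw [e2]
  exact (C4_row h hZ hZ1 hy h0 he hee ξ).trans
    ((mul_le_mul_of_nonneg_left e3 hy).trans_eq (by ring))

theorem C4_unit {x : V} (hx : ‖x‖ = 1) :
    ∑ l, S.rw (S.h0 e (S.b l)) x ≤ y * (S.mu e + 16 * y) := by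
  have a1 := C4_row h hZ hZ1 hy h0 he hee (S.h0 x x)
  have a2 := h.norm0 hZ hZ1 hy h0 x x
  have a3 : ∑ l, S.rw (S.h0 e (S.b l)) x ≤ y * S.mu e + 2 * S.rw (S.h0 x x) e := by
    rw [mu, rw.eq_1 S (S.h0 x x), Finset.mul_sum, Finset.mul_sum, ← Finset.sum_add_distrib]
    exact Finset.sum_le_sum fun l _ => by
      rw [real_inner_comm]
      exact h.F7c hZ hZ1 hy h0 _ hx
  rw [hx] at a2
  nlinarith [mul_le_mul_of_nonneg_left a2 hy]

theorem C4_c2 (x : Fin n → ℝ) :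
    ∑ l, ∑ p, (∑ q, (Matrix.of fun p q => S.ta e p q l) p q * x q) ^ 2 ≤
      y * (S.mu e + 16 * y) * ∑ q, x q ^ 2 := by
  obtain ⟨k, hk⟩ := S.exists_h0
  have e1 : ∀ l, ∑ p, (∑ q, (Matrix.of fun p q => S.ta e p q l) p q * x q) ^ 2 =
      S.rw (S.h0 e (S.b l)) (∑ q, x q • S.b q) := fun l =>
    Finset.sum_congr rfl fun p _ => by
      rw [S.h0_symm, ← hk (S.b p), map_sum, sum_inner]
      simp only [map_smul, real_inner_smul_left]
      simp only [hk, Matrix.of_apply, ta, mul_comm]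
  rw [← S.C4_norm x]
  simp only [e1]
  generalize ∑ q, x q • S.b q = X
  by_cases hX : X = 0
  · have : ∀ ξ, S.rw ξ 0 = 0 := fun ξ => by simpa using S.C4_rw_smul ξ 0 X
    simp [hX, this]
  · have h1 : ‖X‖ ≠ 0 := norm_ne_zero_iff.2 hX
    have h2 : ‖‖X‖⁻¹ • X‖ = 1 := by rw [norm_smul, norm_inv, norm_norm, inv_mul_cancel₀ h1]
    have h3 : ∀ ξ, S.rw ξ X = ‖X‖ ^ 2 * S.rw ξ (‖X‖⁻¹ • X) := fun ξ => by
      rw [← S.C4_rw_smul, smul_smul, mul_inv_cancel₀ h1, one_smul]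
    simp only [h3, ← Finset.mul_sum]
    rw [mul_comm]
    exact mul_le_mul_of_nonneg_right (C4_unit h hZ hZ1 hy h0 he hee h2) (sq_nonneg _)

end

/-- `B l` is the matrix of `⟪h0 (b p) (b q), h0 e (b l)⟫`, `Γ l k = ⟪h0 e (b l), h0 e (b k)⟫`;
`LC1` with `N = n y ^ 2` (`uD0`, `norm1`), `Ω = y (mu + 16 y)` (`F7c`, `norm1`, `norm0`); `LC2`
with `F7b`; `LC3`. -/
theorem K0.cliff (h : S.K0 Z y) (hZ : 0 ≤ Z) (hZ1 : Z ≤ 1) (hy : 0 ≤ y) (h0 : S.eta = 0)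
    (hn : (10 : ℝ) ^ 20 ≤ n) {e : V} (he : ‖e‖ = 1) (hee : S.h0 e e = 0)
    (hμ : 44 / 100 * n * y ≤ S.mu e) : S.I1 e ≤ 149 / 150 * (n * y * S.mu e) := by
  let B : Fin n → Matrix (Fin n) (Fin n) ℝ := fun l => Matrix.of fun p q => S.ta e p q l
  have hB : ∀ l, (B l).transpose = B l := fun l => by
    ext p q
    simp only [B, Matrix.transpose_apply, Matrix.of_apply, ta, S.h0_symm (S.b p)]
  have hI : cI B = S.I1 e := by
    rw [I1_eq]
    simp only [cI, ip, uD, sq, B, Matrix.of_apply, ta]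
  have hμ0 := S.mu_nonneg e
  have htr : ∑ l, ⟪S.h0 e (S.b l), S.h0 e (S.b l)⟫ = S.mu e := by
    simp only [mu, real_inner_self_eq_norm_sq]
  have hsq : ∑ l, ∑ k, ⟪S.h0 e (S.b l), S.h0 e (S.b k)⟫ ^ 2 ≤ y * S.mu e := by
    rw [mu, Finset.mul_sum, Finset.sum_comm]
    exact Finset.sum_le_sum fun l _ => C4_row h hZ hZ1 hy h0 he hee _
  have hc : ∀ (c : Fin n → ℝ) (p q : Fin n), (∑ l, c l • B l) p q =
      ⟪S.h0 (S.b p) (S.b q), ∑ l, c l • S.h0 e (S.b l)⟫ := fun c p q => by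
    simp only [Matrix.sum_apply, Matrix.smul_apply, smul_eq_mul, inner_sum, real_inner_smul_right,
      B, Matrix.of_apply, ta]
  have h2 := LC2 hB (fun l k => ⟪S.h0 e (S.b l), S.h0 e (S.b k)⟫)
    (fun _ _ => real_inner_comm _ _) (a := 7 * n * y ^ 2) (b := 6 * y) (by positivity)
    (fun c => by
      have := h.F7b hZ hZ1 hy h0 (∑ l, c l • S.h0 e (S.b l))
      rw [C4_gram]
      simpa only [ip, Matrix.mul_apply, hc, uD, sq] using this)
    (by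
      have : ∑ l, ∑ k, ⟪S.h0 e (S.b l), S.h0 e (S.b k)⟫ * ip (B l) (B k) =
          ∑ p, ∑ q, ∑ l, ∑ k, ⟪S.h0 e (S.b l), S.h0 e (S.b k)⟫ * B l p q * B k p q := by
        simp only [ip, Finset.mul_sum, mul_assoc]
        exact C4_swap fun l k p q => ⟪S.h0 e (S.b l), S.h0 e (S.b k)⟫ * (B l p q * B k p q)
      rw [this]
      simp only [C4_gram]
      positivity)
  have h1 := cI_sq_le hB
  rw [Fintype.card_fin] at h1
  rw [htr] at h2
  rw [← hI]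
  refine LC3 hn hy hμ (hI ▸ h.I1_le hZ hZ1 hy h0 e) h1 (cA_eq hB) cA_nonneg (h2.trans ?_)
    fun s hs => LC1 hB (by positivity) (by positivity) hs (C4_c1 h hZ hZ1 hy h0 he hee)
      (C4_c2 h hZ hZ1 hy h0 he hee)
  gcongr

end SF

end Pool.Agent.Lib.MP_de485e_gt.Hi
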