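import Pool.Agent.Lib.MP_de485e_gt.Hi.P3
import Pool.Agent.Lib.MP_de485e_gt.Big.BDef

/-! Shape operators of a trace free pinched form. -/

open scoped RealInnerProductSpace

namespace Pool.Agent.Lib.MP_de485e_gt.Hi

variable {n : ℕ} {V N : Type} [NormedAddCommGroup V] [InnerProductSpace ℝ V]
  [FiniteDimensional ℝ V] [NormedAddCommGroup N] [InnerProductSpace ℝ N] [FiniteDimensional ℝ N]

theorem F7_pars (f : OrthonormalBasis (Fin n) ℝ V) (x : V) :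
    ∑ j, ⟪f j, x⟫ ^ 2 = ‖x‖ ^ 2 := by
  rw [← real_inner_self_eq_norm_sq, ← f.sum_inner_mul_inner x x]
  refine Finset.sum_congr rfl fun j _ => ?_
  rw [real_inner_comm x (f j), sq]

theorem F7_pars' (f : OrthonormalBasis (Fin n) ℝ V) (x : V) :
    ∑ j, ⟪x, f j⟫ ^ 2 = ‖x‖ ^ 2 := by
  rw [← F7_pars f x]
  exact Finset.sum_congr rfl fun j _ => by rw [real_inner_comm]

theorem F7_mul (f b : OrthonormalBasis (Fin n) ℝ V) (c d : Fin n → ℝ) :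
    ∑ j, (∑ k, c k * ⟪f k, b j⟫) * (∑ k, d k * ⟪f k, b j⟫) = ∑ k, c k * d k := by
  have h1 : ∀ (c : Fin n → ℝ) (z : V), ∑ k, c k * ⟪f k, z⟫ = ⟪∑ k, c k • f k, z⟫ := by
    intro c z
    rw [sum_inner]
    exact Finset.sum_congr rfl fun k _ => (real_inner_smul_left _ _ _).symm
  simp only [h1]
  have h2 := b.sum_inner_mul_inner (∑ k, c k • f k) (∑ k, d k • f k)
  rw [f.orthonormal.inner_sum] at h2
  simp only [conj_trivial] at h2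
  rw [← h2]
  exact Finset.sum_congr rfl fun j _ => by rw [real_inner_comm (b j) (∑ k, d k • f k)]

theorem F7_sq (f b : OrthonormalBasis (Fin n) ℝ V) (c : Fin n → ℝ) :
    ∑ j, (∑ k, c k * ⟪f k, b j⟫) ^ 2 = ∑ k, c k ^ 2 := by
  simp only [sq]
  exact F7_mul f b c c

namespace SF

variable {S : SF n V N} {Z y : ℝ}

theorem h0_eq (h0 : S.eta = 0) (x z : V) : S.h0 x z = S.h x z := by
  rw [SF.h0, h0, smul_zero, sub_zero]

theorem F7_spec (S : SF n V N) (ξ : N) :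
    ∃ (f : OrthonormalBasis (Fin n) ℝ V) (lam : Fin n → ℝ),
      (∀ i, ⟪S.h0 (f i) (f i), ξ⟫ = lam i) ∧ ∑ i, lam i = 0 ∧
      (∀ x z, ⟪S.h0 x z, ξ⟫ = ∑ i, lam i * ⟪f i, x⟫ * ⟪f i, z⟫) ∧
      (∀ x, S.rw ξ x = ∑ i, lam i ^ 2 * ⟪f i, x⟫ ^ 2) ∧ S.uD ξ = ∑ i, lam i ^ 2 := by
  obtain ⟨k, hk⟩ := S.exists_h0
  obtain ⟨f, lam, hf⟩ := exists_diag S.b (k.compr₂ ((innerₗ N).flip ξ)) fun x y => by
    simp [LinearMap.compr₂_apply, hk, S.h0_symm x y]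
  have hf' : ∀ i x, ⟪k (f i) x, ξ⟫ = lam i * ⟪f i, x⟫ := fun i x => by
    rw [← hf i x]
    simp [LinearMap.compr₂_apply, real_inner_comm]
  have hd : ∀ i, ⟪S.h0 (f i) (f i), ξ⟫ = lam i := fun i => by
    rw [← hk, hf', real_inner_self_eq_norm_sq, f.orthonormal.1 i]
    ring
  have hA : ∀ x z, ⟪S.h0 x z, ξ⟫ = ∑ i, lam i * ⟪f i, x⟫ * ⟪f i, z⟫ := fun x z => by
    rw [← hk]
    conv_lhs => rw [← f.sum_repr' x]
    simp only [map_sum, map_smul, LinearMap.sum_apply, LinearMap.smul_apply, sum_inner,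
      real_inner_smul_left, hf']
    exact Finset.sum_congr rfl fun i _ => by ring
  have hr : ∀ x, S.rw ξ x = ∑ i, lam i ^ 2 * ⟪f i, x⟫ ^ 2 := fun x => by
    unfold SF.rw
    simp only [hA]
    rw [F7_sq f S.b fun i => lam i * ⟪f i, x⟫]
    exact Finset.sum_congr rfl fun i _ => by ring
  refine ⟨f, lam, hd, ?_, hA, hr, ?_⟩
  · have h1 := (S.wb f).sum_h0
    simp only [wb_h0] at h1
    have h2 : ∑ i, S.h0 (f i) (f i) = 0 := h1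
    simp only [← hd]
    rw [← sum_inner, h2, inner_zero_left]
  · have h1 : S.uD ξ = ∑ i, S.rw ξ (S.b i) := rfl
    simp only [h1, hr]
    rw [Finset.sum_comm]
    refine Finset.sum_congr rfl fun i _ => ?_
    rw [← Finset.mul_sum, F7_pars' S.b (f i), f.orthonormal.1 i]
    ring

theorem F7_vec (S : SF n V N) (ξ : N) (x : V) :
    ∃ v : V, (∀ z, ⟪v, z⟫ = ⟪S.h0 x z, ξ⟫) ∧ S.rw ξ x = ‖v‖ ^ 2 := by
  obtain ⟨f, lam, -, -, hA, -⟩ := S.F7_spec ξ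
  have h1 : ∀ z, ⟪∑ i, (lam i * ⟪f i, x⟫) • f i, z⟫ = ⟪S.h0 x z, ξ⟫ := fun z => by
    rw [hA, sum_inner]
    exact Finset.sum_congr rfl fun k _ => real_inner_smul_left _ _ _
  refine ⟨_, h1, ?_⟩
  rw [← F7_pars' S.b]
  simp only [h1]
  rfl

theorem F7_cs (S : SF n V N) (ξ : N) (x z : V) : ⟪S.h0 x z, ξ⟫ ^ 2 ≤ S.rw ξ x * ‖z‖ ^ 2 := by
  obtain ⟨v, hv, hr⟩ := S.F7_vec ξ x
  rw [← hv, hr]
  exact P2_cs v z

/-- In an eigenbasis of the symmetric form `⟪h0, ξ⟫`. -/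
theorem rw_le {ξ : N} {ω : ℝ} (h : ∀ z : V, ‖z‖ = 1 → ⟪S.h0 z z, ξ⟫ ^ 2 ≤ ω) (x : V) :
    S.rw ξ x ≤ ω * ‖x‖ ^ 2 := by
  obtain ⟨f, lam, hd, -, -, hr, -⟩ := S.F7_spec ξ
  rw [hr, ← F7_pars f x, Finset.mul_sum]
  refine Finset.sum_le_sum fun i _ => mul_le_mul_of_nonneg_right ?_ (sq_nonneg _)
  rw [← hd]
  exact h _ (f.orthonormal.1 i)

namespace K0

variable (h : S.K0 Z y) (hZ : 0 ≤ Z) (hZ1 : Z ≤ 1) (hy : 0 ≤ y) (h0 : S.eta = 0)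
include h hZ hZ1 hy h0

theorem F7_ext {ξ : N} {f : OrthonormalBasis (Fin n) ℝ V} {lam : Fin n → ℝ}
    (hd : ∀ i, ⟪S.h0 (f i) (f i), ξ⟫ = lam i) (hs : ∑ i, lam i = 0) :
    ∃ t σ : ℝ, 0 ≤ t ∧ t ≤ y * ‖ξ‖ ^ 2 ∧ σ ^ 2 ≤ 8 * (y * ‖ξ‖ ^ 2 - t) ∧
      ∀ i, lam i ^ 2 ≤ t + σ * lam i := by
  have hn : 0 < n := by have := S.hn; omega
  have : Nonempty (Fin n) := ⟨⟨0, hn⟩⟩
  obtain ⟨i1, -, hi1⟩ := Finset.exists_max_image Finset.univ lam Finset.univ_nonempty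
  obtain ⟨i0, -, hi0⟩ := Finset.exists_min_image Finset.univ lam Finset.univ_nonempty
  have hK := h (f i1) (f i0) (f.orthonormal.1 i1) (f.orthonormal.1 i0) ξ
  rw [← h0_eq h0, ← h0_eq h0, hd, hd] at hK
  have ha : 0 ≤ lam i1 := by
    by_contra hc
    have := Finset.sum_neg (s := Finset.univ) (f := lam)
      (fun i hi => (hi1 i hi).trans_lt (not_le.1 hc)) Finset.univ_nonempty
    exact this.ne hs
  have hb : lam i0 ≤ 0 := by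
    by_contra hc
    have := Finset.sum_pos (s := Finset.univ) (f := lam)
      (fun i hi => (not_le.1 hc).trans_le (hi0 i hi)) Finset.univ_nonempty
    exact this.ne' hs
  set a := lam i1
  set b := lam i0
  set q := y * ‖ξ‖ ^ 2 with hq
  have h1 : (a + b) ^ 2 ≤ 4 * (1 + Z) * (q - -(a * b)) := by rw [hq]; nlinarith
  have h2 : 0 ≤ q - -(a * b) := by
    by_contra hc
    have := mul_neg_of_pos_of_neg (show 0 < 4 * (1 + Z) by linarith) (not_le.1 hc)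
    nlinarith [sq_nonneg (a + b)]
  refine ⟨-(a * b), a + b, by nlinarith [mul_nonneg ha (neg_nonneg.2 hb)], by linarith,
    by nlinarith [mul_nonneg (sub_nonneg.2 hZ1) h2], fun i => ?_⟩
  have := mul_nonneg (sub_nonneg.mpr (hi1 i (Finset.mem_univ i)))
    (sub_nonneg.mpr (hi0 i (Finset.mem_univ i)))
  nlinarith

/-- `σ` is the sum of the extreme eigenvalues `a ≥ 0 ≥ b`; `(a - lam) (lam - b) ≥ 0`,
`-a b ≤ y ‖ξ‖ ^ 2`. -/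
theorem F7a (ξ : N) : ∃ σ : ℝ, σ ^ 2 ≤ 8 * y * ‖ξ‖ ^ 2 ∧
    ∀ x : V, S.rw ξ x ≤ y * ‖ξ‖ ^ 2 * ‖x‖ ^ 2 + σ * ⟪S.h0 x x, ξ⟫ := by
  obtain ⟨f, lam, hd, hs, hA, hr, -⟩ := S.F7_spec ξ
  obtain ⟨t, σ, ht, hty, hσ, hl⟩ := h.F7_ext hZ hZ1 hy h0 hd hs
  refine ⟨σ, by linarith, fun x => ?_⟩
  rw [hr, hA, ← F7_pars f x, Finset.mul_sum, Finset.mul_sum, ← Finset.sum_add_distrib]
  refine Finset.sum_le_sum fun i _ => ?_
  nlinarith [mul_le_mul_of_nonneg_right ((hl i).trans (add_le_add_left hty _))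
    (sq_nonneg ⟪f i, x⟫)]

/-- The trace of the fourth power. With `t = -a b`, `s = uD / n ≤ t ≤ y' = y ‖ξ‖ ^ 2`:
`∑ lam ^ 4 ≤ n t ^ 2 + σ ^ 2 uD`, `σ ^ 2 ≤ 8 (y' - t)` and
`7 y' ^ 2 - 6 y' s - t ^ 2 - 8 (y' - t) s = (t - s) (y' - t) + 6 s (t - s) +
(y' - s) (7 (y' - t) + 6 (t - s))`. -/
theorem F7b (ξ : N) :
    ∑ i, ∑ j, (∑ k, ⟪S.h0 (S.b i) (S.b k), ξ⟫ * ⟪S.h0 (S.b k) (S.b j), ξ⟫) ^ 2 ≤
      7 * n * y ^ 2 * (‖ξ‖ ^ 2) ^ 2 - 6 * y * (‖ξ‖ ^ 2 * S.uD ξ) := by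
  obtain ⟨f, lam, hd, hs, hA, -, hu⟩ := S.F7_spec ξ
  obtain ⟨t, σ, ht, hty, hσ, hl⟩ := h.F7_ext hZ hZ1 hy h0 hd hs
  have h1 : ∀ i j, ∑ k, ⟪S.h0 (S.b i) (S.b k), ξ⟫ * ⟪S.h0 (S.b k) (S.b j), ξ⟫ =
      ∑ m, lam m ^ 2 * ⟪f m, S.b i⟫ * ⟪f m, S.b j⟫ := fun i j => by
    simp only [fun k => S.h0_symm (S.b k) (S.b j), hA]
    rw [F7_mul f S.b (fun m => lam m * ⟪f m, S.b i⟫) fun m => lam m * ⟪f m, S.b j⟫]
    exact Finset.sum_congr rfl fun m _ => by ring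
  have h2 : ∑ i, ∑ j, (∑ m, lam m ^ 2 * ⟪f m, S.b i⟫ * ⟪f m, S.b j⟫) ^ 2 =
      ∑ m, (lam m ^ 2) ^ 2 := by
    rw [Finset.sum_congr rfl fun i _ => F7_sq f S.b fun m => lam m ^ 2 * ⟪f m, S.b i⟫,
      Finset.sum_comm]
    refine Finset.sum_congr rfl fun m _ => ?_
    simp only [mul_pow]
    rw [← Finset.mul_sum, F7_pars' S.b (f m), f.orthonormal.1 m]
    ring
  have h3 : ∑ m, (lam m ^ 2) ^ 2 ≤ ∑ m, (t ^ 2 + 2 * t * σ * lam m + σ ^ 2 * lam m ^ 2) :=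
    Finset.sum_le_sum fun m _ => (pow_le_pow_left₀ (sq_nonneg _) (hl m) 2).trans_eq (by ring)
  have h4 : ∑ m, lam m ^ 2 ≤ ∑ m, (t + σ * lam m) := Finset.sum_le_sum fun m _ => hl m
  simp only [Finset.sum_add_distrib, ← Finset.mul_sum, hs, ← hu, Finset.sum_const,
    Finset.card_univ, Fintype.card_fin, nsmul_eq_mul, mul_zero, add_zero] at h3 h4
  simp only [h1]
  rw [h2]
  have hn : (0 : ℝ) < n := by
    have := S.hn
    exact_mod_cast (by omega : 0 < n)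
  have hu0 := S.uD_nonneg ξ
  obtain ⟨s, hs'⟩ : ∃ s, S.uD ξ = n * s := ⟨S.uD ξ / n, by field_simp⟩
  rw [hs'] at h3 h4 hu0 ⊢
  have s0 : 0 ≤ s := nonneg_of_mul_nonneg_right hu0 hn
  have st : s ≤ t := le_of_mul_le_mul_left h4 hn
  set q := y * ‖ξ‖ ^ 2 with hq
  have h5 : t ^ 2 + σ ^ 2 * s ≤ 7 * q ^ 2 - 6 * q * s := by
    have a1 := mul_le_mul_of_nonneg_right hσ s0
    have a2 := mul_nonneg (sub_nonneg.2 st) (sub_nonneg.2 hty)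
    have a3 := mul_nonneg s0 (sub_nonneg.2 st)
    have a4 := mul_nonneg (sub_nonneg.2 (st.trans hty)) (sub_nonneg.2 hty)
    have a5 := mul_nonneg (sub_nonneg.2 (st.trans hty)) (sub_nonneg.2 st)
    nlinarith
  have h6 := mul_le_mul_of_nonneg_left h5 hn.le
  calc _ ≤ _ := h3
    _ = n * (t ^ 2 + σ ^ 2 * s) := by ring
    _ ≤ _ := h6
    _ = _ := by rw [hq]; ring

/-- From `F3`. -/
theorem F7c (ξ : N) {x : V} (hx : ‖x‖ = 1) :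
    S.rw ξ x ≤ y * ‖ξ‖ ^ 2 + 2 * ⟪S.h0 x x, ξ⟫ ^ 2 := by
  obtain ⟨v, hv, hr⟩ := S.F7_vec ξ x
  have hxx : ⟪x, x⟫ = (1 : ℝ) := by rw [real_inner_self_eq_norm_sq, hx]; norm_num
  have hw : ⟪x, v - ⟪v, x⟫ • x⟫ = 0 := by
    rw [inner_sub_right, real_inner_smul_right, hxx, real_inner_comm]; ring
  have h1 := h.F3 hZ hZ1 hy hx hw ξ
  rw [← h0_eq h0, ← h0_eq h0, ← hv, ← hv] at h1
  have h2 : ⟪v, v - ⟪v, x⟫ • x⟫ = ‖v‖ ^ 2 - ⟪v, x⟫ ^ 2 := by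
    rw [inner_sub_right, real_inner_smul_right, real_inner_self_eq_norm_sq]; ring
  have h3 : ‖v - ⟪v, x⟫ • x‖ ^ 2 = ‖v‖ ^ 2 - ⟪v, x⟫ ^ 2 := by
    rw [norm_sub_sq_real, real_inner_smul_right, norm_smul, hx, Real.norm_eq_abs, mul_one, sq_abs]
    ring
  rw [h2, ← h3] at h1
  have h4 := P2_div (sq_nonneg _) (by positivity) h1
  rw [hr, ← hv]
  nlinarith [mul_nonneg (sub_nonneg.2 hZ1) (sq_nonneg ⟪v, x⟫)]

theorem uD0 (ξ : N) : S.uD ξ ≤ n * y * ‖ξ‖ ^ 2 := by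
  have h1 := h.F1 hZ hZ1 hy ξ
  rw [h0, inner_zero_left] at h1
  exact h1.trans_eq (by ring)

theorem rw0 (ξ : N) (x : V) : S.rw ξ x ≤ 8 * y * ‖ξ‖ ^ 2 * ‖x‖ ^ 2 := by
  refine rw_le (fun z hz => ?_) x
  rw [h0_eq h0]
  exact h.F2z hZ hZ1 hy hz (by rw [h0, inner_zero_left])

theorem norm0 (x z : V) : ‖S.h0 x z‖ ^ 2 ≤ 8 * y * ‖x‖ ^ 2 * ‖z‖ ^ 2 := by
  have h1 := S.F7_cs (S.h0 x z) x z
  rw [real_inner_self_eq_norm_sq] at h1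
  have h2 := mul_le_mul_of_nonneg_right (h.rw0 hZ hZ1 hy h0 (S.h0 x z) x) (sq_nonneg ‖z‖)
  exact P2_div (sq_nonneg _) (by positivity) ((h1.trans h2).trans_eq (by ring))

/-- From `F3`. -/
theorem norm1 {e : V} (he : ‖e‖ = 1) (hee : S.h0 e e = 0) (x : V) :
    ‖S.h0 e x‖ ^ 2 ≤ y * ‖x‖ ^ 2 := by
  have h1 := S.F7_cs (S.h0 e x) e x
  rw [real_inner_self_eq_norm_sq] at h1
  have h2 := h.F7c hZ hZ1 hy h0 (S.h0 e x) he
  rw [hee, inner_zero_left] at h2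
  have h3 := mul_le_mul_of_nonneg_right h2 (sq_nonneg ‖x‖)
  exact P2_div (sq_nonneg _) (by positivity) ((h1.trans h3).trans_eq (by ring))

/-- From `row`, `F2nz`. -/
theorem mu0 (x : V) : S.mu x ≤ (n + 15) * y * ‖x‖ ^ 2 := by
  have hu : ∀ e : V, ‖e‖ = 1 → S.mu e ≤ (n + 15) * y := fun e he => by
    have h1 := h.row hZ hZ1 hy he
    have h2 := h.F2nz hZ hZ1 hy he h0
    rw [h0_eq h0 e e] at h1
    have h3 := mul_nonneg (sub_nonneg.2 hZ1) (sq_nonneg ‖S.h e e‖)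
    unfold SF.mu
    nlinarith
  have hs : ∀ (c : ℝ) (e : V), S.mu (c • e) = c ^ 2 * S.mu e := fun c e => by
    unfold SF.mu
    rw [Finset.mul_sum]
    refine Finset.sum_congr rfl fun j _ => ?_
    rw [h0_eq h0, h0_eq h0, map_smul, LinearMap.smul_apply, norm_smul, mul_pow, Real.norm_eq_abs,
      sq_abs]
  rcases eq_or_ne x 0 with rfl | hx
  · have := hs 0 0
    rw [smul_zero] at this
    rw [this]
    simp
  · have h1 := hu _ (norm_smul_inv_norm (𝕜 := ℝ) hx)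
    have h2 := hs ‖x‖ (‖x‖⁻¹ • x)
    rw [smul_smul, mul_inv_cancel₀ (norm_ne_zero_iff.2 hx), one_smul] at h2
    rw [h2, mul_comm]
    exact mul_le_mul_of_nonneg_right h1 (sq_nonneg _)

end K0

end SF

end Pool.Agent.Lib.MP_de485e_gt.Hi
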