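import Mathlib

/-! A finite average with the moments of the Gaussian law up to order seven. -/

namespace Pool.Agent.Lib.MP_de485e_gt.Hi

variable {ι : Type} [Fintype ι] [DecidableEq ι]

/-- Weights of the points `-3, …, 3`. -/
noncomputable def gw : Fin 7 → ℝ := ![1 / 180, 1 / 20, 1 / 4, 7 / 18, 1 / 4, 1 / 20, 1 / 180]

/-- Average over independent coordinates. -/
noncomputable def GE (F : (ι → ℝ) → ℝ) : ℝ :=
  ∑ ω : ι → Fin 7, (∏ i, gw (ω i)) * F fun i => ((ω i : ℕ) : ℝ) - 3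

theorem G1_nonneg (a : Fin 7) : 0 ≤ gw a := by
  fin_cases a <;> norm_num [gw]

theorem G1_sum : ∑ a, gw a = 1 := by
  simp [Fin.sum_univ_seven, gw]
  norm_num

theorem GE_mono {F G : (ι → ℝ) → ℝ} (h : ∀ γ, F γ ≤ G γ) : GE F ≤ GE G :=
  Finset.sum_le_sum fun _ _ =>
    mul_le_mul_of_nonneg_left (h _) (Finset.prod_nonneg fun _ _ => G1_nonneg _)

theorem GE_add (F G : (ι → ℝ) → ℝ) : GE (fun γ => F γ + G γ) = GE F + GE G := by
  simp only [GE, mul_add, Finset.sum_add_distrib]

theorem GE_sub (F G : (ι → ℝ) → ℝ) : GE (fun γ => F γ - G γ) = GE F - GE G := by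
  simp only [GE, mul_sub, Finset.sum_sub_distrib]

theorem GE_mul (r : ℝ) (F : (ι → ℝ) → ℝ) : GE (fun γ => r * F γ) = r * GE F := by
  simp only [GE, Finset.mul_sum, mul_left_comm]

theorem GE_sum {κ : Type} [Fintype κ] (F : κ → (ι → ℝ) → ℝ) :
    GE (fun γ => ∑ k, F k γ) = ∑ k, GE (F k) := by
  simp only [GE, Finset.mul_sum]
  exact Finset.sum_comm

theorem GE_const (r : ℝ) : GE (fun _ : ι → ℝ => r) = r := by
  rw [GE, ← Finset.sum_mul, ← Fintype.piFinset_univ, ← Finset.prod_univ_sum]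
  simp [G1_sum]

open Finset

theorem G1_resample (i : ι) (F : (ι → Fin 7) → ℝ) :
    ∑ g : ι → Fin 7, (∏ j, gw (g j)) * F g =
      ∑ g : ι → Fin 7, (∏ j, gw (g j)) * ∑ a, gw a * F (Function.update g i a) := by
  have hw : ∀ (g : ι → Fin 7) (a : Fin 7),
      (∏ j, gw (Function.update g i a j)) * gw (g i) = (∏ j, gw (g j)) * gw a := fun g a => by
    rw [← mul_prod_erase univ _ (mem_univ i), ← mul_prod_erase univ (fun j => gw (g j)) (mem_univ i),
      Function.update_self, prod_congr rfl fun j hj => by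
        rw [Function.update_of_ne (ne_of_mem_erase hj)]]
    ring
  let e : (ι → Fin 7) × Fin 7 ≃ (ι → Fin 7) × Fin 7 := Function.Involutive.toPerm
    (fun p => (Function.update p.1 i p.2, p.1 i)) fun p => by simp
  calc _ = ∑ p : (ι → Fin 7) × Fin 7, (∏ j, gw (p.1 j)) * gw p.2 * F p.1 := by
        rw [Fintype.sum_prod_type]
        refine sum_congr rfl fun g _ => ?_
        simp only
        rw [← sum_mul, ← mul_sum, G1_sum, mul_one]
    _ = ∑ p : (ι → Fin 7) × Fin 7, (∏ j, gw (p.1 j)) * gw p.2 * F (Function.update p.1 i p.2) := by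
        rw [← e.sum_comp]
        exact sum_congr rfl fun p _ => congrArg (· * F (Function.update p.1 i p.2)) (hw p.1 p.2)
    _ = _ := by
        rw [Fintype.sum_prod_type]
        simp only [mul_sum, mul_assoc]

/-- integration by parts, for five factors that are affine in the coordinate `i` -/
theorem G1_stein (i : ι) (f : Fin 5 → (ι → ℝ) → ℝ) (b : Fin 5 → ℝ)
    (h : ∀ k γ x, f k (Function.update γ i x) = f k (Function.update γ i 0) + b k * x) :
    GE (fun γ => γ i * (f 0 γ * f 1 γ * f 2 γ * f 3 γ * f 4 γ)) =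
      GE fun γ => b 0 * (f 1 γ * f 2 γ * f 3 γ * f 4 γ) + b 1 * (f 0 γ * f 2 γ * f 3 γ * f 4 γ) +
        b 2 * (f 0 γ * f 1 γ * f 3 γ * f 4 γ) + b 3 * (f 0 γ * f 1 γ * f 2 γ * f 4 γ) +
        b 4 * (f 0 γ * f 1 γ * f 2 γ * f 3 γ) := by
  unfold GE
  rw [G1_resample i, G1_resample i (fun g => b 0 * _ + _ + _ + _ + _)]
  refine sum_congr rfl fun g _ => congrArg _ ?_
  have e : ∀ a, (fun j => ((Function.update g i a j : ℕ) : ℝ) - 3) =
      Function.update (fun j => ((g j : ℕ) : ℝ) - 3) i (((a : ℕ) : ℝ) - 3) :=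
    fun a => funext fun j => Function.apply_update (fun _ (c : Fin 7) => ((c : ℕ) : ℝ) - 3) g i a j
  simp only [e, Function.update_self, h _ _ (((_ : ℕ) : ℝ) - 3)]
  generalize f 0 (Function.update (fun j => ((g j : ℕ) : ℝ) - 3) i 0) = c0,
    f 1 (Function.update (fun j => ((g j : ℕ) : ℝ) - 3) i 0) = c1,
    f 2 (Function.update (fun j => ((g j : ℕ) : ℝ) - 3) i 0) = c2,
    f 3 (Function.update (fun j => ((g j : ℕ) : ℝ) - 3) i 0) = c3,
    f 4 (Function.update (fun j => ((g j : ℕ) : ℝ) - 3) i 0) = c4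
  simp only [Fin.sum_univ_seven, gw, Matrix.cons_val, Fin.coe_ofNat_eq_mod]
  norm_num
  ring

/-- Kronecker symbol -/
def gdl (i j : ι) : ℝ := if i = j then 1 else 0

omit [Fintype ι] in
theorem G1_upd (i a : ι) (γ : ι → ℝ) (x : ℝ) :
    Function.update γ i x a = Function.update γ i 0 a + gdl i a * x := by
  by_cases h : i = a
  · subst h
    simp [gdl]
  · simp [gdl, h, Function.update_of_ne (Ne.symm h)]

theorem GE_m2 (i j : ι) : GE (fun γ : ι → ℝ => γ i * γ j) = gdl i j := by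
  have := G1_stein i ![fun γ => γ j, fun _ => 1, fun _ => 1, fun _ => 1, fun _ => 1]
    ![gdl i j, 0, 0, 0, 0] fun k γ x => by fin_cases k <;> simp [G1_upd i j γ x]
  simpa [GE_const] using this

theorem GE_m4 (i j k l : ι) : GE (fun γ : ι → ℝ => γ i * γ j * γ k * γ l) =
    gdl i j * gdl k l + gdl i k * gdl j l + gdl i l * gdl j k := by
  have := G1_stein i ![fun γ => γ j, fun γ => γ k, fun γ => γ l, fun _ => 1, fun _ => 1]
    ![gdl i j, gdl i k, gdl i l, 0, 0] fun m γ x => by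
      fin_cases m <;> simp [G1_upd i j γ x, G1_upd i k γ x, G1_upd i l γ x]
  simpa [GE_add, GE_mul, GE_m2, mul_assoc] using this

theorem GE_m6 (i a b c d e : ι) : GE (fun γ : ι → ℝ => γ i * γ a * γ b * γ c * γ d * γ e) =
    gdl i a * (gdl b c * gdl d e + gdl b d * gdl c e + gdl b e * gdl c d) +
    gdl i b * (gdl a c * gdl d e + gdl a d * gdl c e + gdl a e * gdl c d) +
    gdl i c * (gdl a b * gdl d e + gdl a d * gdl b e + gdl a e * gdl b d) +
    gdl i d * (gdl a b * gdl c e + gdl a c * gdl b e + gdl a e * gdl b c) +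
    gdl i e * (gdl a b * gdl c d + gdl a c * gdl b d + gdl a d * gdl b c) := by
  have := G1_stein i ![fun γ => γ a, fun γ => γ b, fun γ => γ c, fun γ => γ d, fun γ => γ e]
    ![gdl i a, gdl i b, gdl i c, gdl i d, gdl i e] fun m γ x => by
      fin_cases m <;> simp [G1_upd i a γ x, G1_upd i b γ x, G1_upd i c γ x, G1_upd i d γ x, G1_upd i e γ x]
  simp only [Matrix.cons_val, GE_add, GE_mul, GE_m4] at this
  rw [← this]
  simp only [mul_assoc]

end Pool.Agent.Lib.MP_de485e_gt.Hi
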