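import Pool.Agent.Lib.MP_de485e_gt.Big.F7
import Pool.Agent.Lib.MP_de485e_gt.Big.G2

/-! The averaged inequality (alpha) of the note. -/

open scoped RealInnerProductSpace

namespace Pool.Agent.Lib.MP_de485e_gt.Hi

variable {n : ℕ} {V N : Type} [NormedAddCommGroup V] [InnerProductSpace ℝ V]
  [FiniteDimensional ℝ V] [NormedAddCommGroup N] [InnerProductSpace ℝ N] [FiniteDimensional ℝ N]

theorem KA_avg {ι : Type} [Fintype ι] [DecidableEq ι] (τ : ι → ι → ι → ℝ) (G : ι → ι → ℝ)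
    (hs : ∀ a b c, τ a b c = τ b a c) (ht : ∀ c, ∑ b, τ b b c = 0) (y r r' : ℝ) (hr : 0 ≤ r')
    (H : ∀ γ : ι → ℝ, ∑ j, (∑ a, ∑ w, τ a j w * γ a * γ w) * ∑ a, ∑ w, τ a j w * γ a * γ w ≤
      y * ((∑ a, ∑ b, G a b * γ a * γ b) * ∑ a, ∑ b, (if a = b then 1 else 0) * γ a * γ b) +
        r * (∑ a, ∑ b, G a b * γ a * γ b) +
        r' * (∑ a, ∑ b, ∑ c, τ a b c * γ a * γ b * γ c) ^ 2) :
    ∑ z, (∑ x, τ x z x) ^ 2 + ∑ x, ∑ z, ∑ w, τ x z w ^ 2 + ∑ x, ∑ z, ∑ w, τ x z w * τ w z x ≤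
      y * ((Fintype.card ι + 2) * ∑ a, G a a) + r * ∑ a, G a a +
        r' * (6 * ∑ x, ∑ z, ∑ w, τ x z w ^ 2 + 4 * ∑ z, (∑ x, τ x z x) ^ 2) := by
  have h := GE_mono H
  rw [GE_sum, GE_add, GE_add, GE_mul, GE_mul, GE_mul, GE_four, GE_two] at h
  have h6 := mul_le_mul_of_nonneg_left (GE_six τ) hr
  have e1 : ∑ a, (∑ b, (τ a b b + τ b a b + τ b b a)) ^ 2 = 4 * ∑ z, (∑ x, τ x z x) ^ 2 := by
    rw [Finset.mul_sum]
    refine Finset.sum_congr rfl fun a _ => ?_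
    rw [Finset.sum_add_distrib, Finset.sum_add_distrib, ht,
      Finset.sum_congr rfl fun b _ => hs a b b]
    ring
  have e2 : ∑ j, GE (fun γ : ι → ℝ => (∑ a, ∑ w, τ a j w * γ a * γ w) *
      ∑ a, ∑ w, τ a j w * γ a * γ w) = ∑ z, (∑ x, τ x z x) ^ 2 + ∑ x, ∑ z, ∑ w, τ x z w ^ 2 +
        ∑ x, ∑ z, ∑ w, τ x z w * τ w z x := by
    rw [Finset.sum_comm (f := fun x z => ∑ w, τ x z w ^ 2),
      Finset.sum_comm (f := fun x z => ∑ w, τ x z w * τ w z x), ← Finset.sum_add_distrib,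
      ← Finset.sum_add_distrib]
    refine Finset.sum_congr rfl fun j _ => ?_
    rw [GE_four]
    simp only [sq]
  rw [e1] at h6
  rw [e2] at h
  simp only [if_true, Finset.sum_const, Finset.card_univ, nsmul_eq_mul, mul_one, mul_ite, mul_zero,
    Finset.sum_ite_eq, Finset.sum_ite_eq', Finset.mem_univ] at h
  linarith

namespace SF

variable {S : SF n V N} {Z y : ℝ}

/-- For `γ : Fin n → ℝ` put `x = ∑ γ i • b i`, `ξ = h0 e x`; `F7a` and
`σ c ≤ lam σ ^ 2 / 2 + c ^ 2 / (2 lam)` with `lam = n / 10 ^ 4`; average with `GE_two`, `GE_four`,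
`GE_six`. With `w z = ∑ x, ta e x z x`: `mu e ^ 2 ≤ ∑ w z ^ 2`, `I1 ≤ n y mu` (`uD0`), `mu0`. -/
theorem K0.alpha (h : S.K0 Z y) (hZ : 0 ≤ Z) (hZ1 : Z ≤ 1) (hy : 0 ≤ y) (h0 : S.eta = 0)
    (hn : (10 : ℝ) ^ 20 ≤ n) {e : V} (he : ‖e‖ = 1) :
    S.mu e ^ 2 + S.I1 e - S.I4 e / 2 ≤ (1 + 1 / 2000) * (n * y * S.mu e) := by
  obtain ⟨k, hk⟩ := S.exists_h0
  have n0 : (0 : ℝ) < n := lt_of_lt_of_le (by norm_num) hn
  obtain ⟨lam, hl⟩ : ∃ lam : ℝ, lam = n / 10 ^ 4 := ⟨_, rfl⟩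
  have l0 : 0 < lam := by rw [hl]; positivity
  have m0 : 0 ≤ S.mu e := Finset.sum_nonneg fun _ _ => sq_nonneg _
  have a1 := KA_avg (S.ta e) (fun a b => ⟪S.h0 e (S.b a), S.h0 e (S.b b)⟫)
    (fun a b c => by rw [ta, ta, S.h0_symm]) (fun c => by
      simp only [ta]; rw [← sum_inner, S.sum_h0, inner_zero_left]) y (4 * lam * y) (1 / (2 * lam))
    (by positivity) fun γ => by
      obtain ⟨x, hx⟩ : ∃ x : V, x = ∑ i, γ i • S.b i := ⟨_, rfl⟩
      obtain ⟨σ, s1, s2⟩ := h.F7a hZ hZ1 hy h0 (S.h0 e x)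
      have b1 : S.h0 e x = ∑ w, γ w • S.h0 e (S.b w) := by
        simp only [← hk, hx, map_sum, map_smul]
      have b2 : ∀ z, S.h0 x z = ∑ a, γ a • S.h0 (S.b a) z := fun z => by
        simp only [← hk, hx, map_sum, map_smul, LinearMap.sum_apply, LinearMap.smul_apply]
      have b3 : ∀ a j, ⟪S.h0 (S.b a) (S.b j), S.h0 e x⟫ = ∑ w, S.ta e a j w * γ w := fun a j => by
        rw [b1, inner_sum]
        exact Finset.sum_congr rfl fun w _ => by rw [real_inner_smul_right, mul_comm, ta]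
      have b4 : ∀ j, ⟪S.h0 x (S.b j), S.h0 e x⟫ = ∑ a, ∑ w, S.ta e a j w * γ a * γ w := fun j => by
        rw [b2, sum_inner]
        refine Finset.sum_congr rfl fun a _ => ?_
        rw [real_inner_smul_left, b3, Finset.mul_sum]
        exact Finset.sum_congr rfl fun w _ => by ring
      have b5 : ⟪S.h0 x x, S.h0 e x⟫ = ∑ a, ∑ b, ∑ c, S.ta e a b c * γ a * γ b * γ c := by
        rw [b2, sum_inner, Finset.sum_comm]
        refine Finset.sum_congr rfl fun b _ => ?_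
        rw [real_inner_smul_left, S.h0_symm, b4, Finset.mul_sum]
        refine Finset.sum_congr rfl fun a _ => ?_
        rw [Finset.mul_sum]
        exact Finset.sum_congr rfl fun c _ => by ring
      have b6 : ‖S.h0 e x‖ ^ 2 = ∑ a, ∑ b, ⟪S.h0 e (S.b a), S.h0 e (S.b b)⟫ * γ a * γ b := by
        rw [← real_inner_self_eq_norm_sq, b1, sum_inner]
        refine Finset.sum_congr rfl fun a _ => ?_
        rw [inner_sum]
        exact Finset.sum_congr rfl fun b _ => by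
          rw [real_inner_smul_left, real_inner_smul_right]; ring
      have b7 : ‖x‖ ^ 2 = ∑ a, ∑ b, (if a = b then 1 else 0) * γ a * γ b := by
        rw [← real_inner_self_eq_norm_sq, hx, sum_inner]
        refine Finset.sum_congr rfl fun a _ => ?_
        rw [inner_sum]
        exact Finset.sum_congr rfl fun b _ => by
          rw [real_inner_smul_left, real_inner_smul_right, S.b.inner_eq_ite]; ring
      have b8 : S.rw (S.h0 e x) x = ∑ j, (∑ a, ∑ w, S.ta e a j w * γ a * γ w) *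
          ∑ a, ∑ w, S.ta e a j w * γ a * γ w :=
        Finset.sum_congr rfl fun j _ => by rw [b4, sq]
      rw [← b5, ← b6, ← b7, ← b8]
      refine (s2 x).trans ?_
      generalize ⟪S.h0 x x, S.h0 e x⟫ = c
      have b9 : σ * c ≤ lam * σ ^ 2 / 2 + 1 / (2 * lam) * c ^ 2 := by
        have : lam * σ ^ 2 / 2 + 1 / (2 * lam) * c ^ 2 - σ * c = (lam * σ - c) ^ 2 / (2 * lam) := by
          field_simp
          ring
        have : 0 ≤ (lam * σ - c) ^ 2 / (2 * lam) := by positivity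
        linarith
      nlinarith [mul_le_mul_of_nonneg_left s1 l0.le]
  have a2 : ∑ a, ⟪S.h0 e (S.b a), S.h0 e (S.b a)⟫ = S.mu e :=
    Finset.sum_congr rfl fun a _ => real_inner_self_eq_norm_sq _
  have a3 : S.mu e ^ 2 ≤ ∑ z, (∑ x, S.ta e x z x) ^ 2 := by
    have b1 : S.mu e = ∑ z, ⟪S.b z, e⟫ * ∑ x, S.ta e x z x := by
      simp only [Finset.mul_sum]
      rw [Finset.sum_comm, ← a2]
      refine Finset.sum_congr rfl fun x _ => ?_
      have : S.h0 e (S.b x) = ∑ z, ⟪S.b z, e⟫ • S.h0 (S.b x) (S.b z) := by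
        rw [S.h0_symm]
        conv_lhs => rw [← S.b.sum_repr' e]
        simp only [← hk, map_sum, map_smul]
      conv_lhs => enter [2]; rw [this]
      rw [sum_inner]
      exact Finset.sum_congr rfl fun z _ => by rw [real_inner_smul_left, ta]
    have b2 : ∑ z, ⟪S.b z, e⟫ ^ 2 = 1 := by rw [S.b.sum_sq_inner_right, he, one_pow]
    rw [b1]
    refine (Finset.sum_mul_sq_le_sq_mul_sq _ _ _).trans (le_of_eq ?_)
    rw [b2, one_mul]
  have a4 : S.I1 e ≤ n * y * S.mu e := by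
    have b1 : S.I1 e = ∑ w, S.uD (S.h0 e (S.b w)) := by
      simp only [I1, uD, ta]
      rw [Finset.sum_congr rfl fun x _ => Finset.sum_comm, Finset.sum_comm]
    rw [b1, mu, Finset.mul_sum]
    exact Finset.sum_le_sum fun w _ => h.uD0 hZ hZ1 hy h0 _
  have a5 : S.mu e ≤ (n + 15) * y := by simpa [he] using h.mu0 hZ hZ1 hy h0 e
  rw [a2, Fintype.card_fin] at a1
  have a6 : S.I4 e / 2 = -∑ x, ∑ z, ∑ w, S.ta e x z w * S.ta e w z x := by rw [I4]; ring
  rw [a6]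
  change _ + S.I1 e + _ ≤ _ + _ + _ * (6 * S.I1 e + _) at a1
  generalize ∑ z, (∑ x, S.ta e x z x) ^ 2 = W at a1 a3
  generalize ∑ x, ∑ z, ∑ w, S.ta e x z w * S.ta e w z x = J at a1 ⊢
  generalize S.I1 e = I at a1 a4 ⊢
  generalize S.mu e = m at *
  obtain ⟨q, hq⟩ : ∃ q : ℝ, q = 1 / (2 * lam) := ⟨_, rfl⟩
  rw [← hq] at a1
  have q0 : 0 < q := by rw [hq]; positivity
  have q1 : q * n = 5000 := by rw [hq, hl]; field_simp; norm_num
  have q2 : 4 * q ≤ 1 / 1000 := by nlinarith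
  have p0 : 0 ≤ y * m := mul_nonneg hy m0
  have c1 : (1 - 4 * q) * m ^ 2 ≤ (1 - 4 * q) * W := mul_le_mul_of_nonneg_left a3 (by linarith)
  have c2 : q * I ≤ 5000 * (y * m) := by
    calc q * I ≤ q * (n * y * m) := mul_le_mul_of_nonneg_left a4 q0.le
      _ = q * n * (y * m) := by ring
      _ = _ := by rw [q1]
  have c3 : q * m ^ 2 ≤ 5001 * (y * m) := by
    calc q * m ^ 2 = q * m * m := by ring
      _ ≤ q * ((n + 15) * y) * m := by gcongr
      _ = (q * n + 15 * q) * (y * m) := by ring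
      _ ≤ _ := mul_le_mul_of_nonneg_right (by linarith) p0
  have c4 : 10 ^ 20 * (y * m) ≤ n * (y * m) := mul_le_mul_of_nonneg_right hn p0
  rw [hl] at a1
  nlinarith

end SF

end Pool.Agent.Lib.MP_de485e_gt.Hi
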