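import Pool.Agent.Lib.MP_de485e_gt.Big.F7
import Pool.Agent.Lib.MP_de485e_gt.Hi.P1b

/-! Elementary facts on the terms of the reaction of the second quantity. -/

open scoped RealInnerProductSpace

namespace Pool.Agent.Lib.MP_de485e_gt.Hi

variable {n : ℕ} {V N : Type} [NormedAddCommGroup V] [InnerProductSpace ℝ V]
  [FiniteDimensional ℝ V] [NormedAddCommGroup N] [InnerProductSpace ℝ N] [FiniteDimensional ℝ N]

private theorem KB_rot {ι : Type} [Fintype ι] (f : ι → ι → ι → ℝ) :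
    ∑ x, ∑ z, ∑ w, f x z w = ∑ w, ∑ x, ∑ z, f x z w :=
  (Finset.sum_congr rfl fun _ _ => Finset.sum_comm).trans Finset.sum_comm

private theorem KB_sym {ι : Type} [Fintype ι] (t : ι → ι → ι → ℝ)
    (ht : ∀ x z w, t x z w = t z x w) :
    -2 * ∑ x, ∑ z, ∑ w, t x z w * t w z x ≤ ∑ x, ∑ z, ∑ w, t x z w ^ 2 := by
  have h0 : 0 ≤ ∑ x, ∑ z, ∑ w, (t x z w + t w z x + t x w z) ^ 2 := by positivity
  have e0 : ∑ x, ∑ z, ∑ w, (t x z w + t w z x + t x w z) ^ 2 =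
      ∑ x, ∑ z, ∑ w, t x z w ^ 2 + ∑ x, ∑ z, ∑ w, t w z x ^ 2 + ∑ x, ∑ z, ∑ w, t x w z ^ 2 +
        2 * ∑ x, ∑ z, ∑ w, t x z w * t w z x + 2 * ∑ x, ∑ z, ∑ w, t x z w * t x w z +
        2 * ∑ x, ∑ z, ∑ w, t w z x * t x w z := by
    simp only [Finset.mul_sum, ← Finset.sum_add_distrib]
    refine Finset.sum_congr rfl fun x _ => Finset.sum_congr rfl fun z _ =>
      Finset.sum_congr rfl fun w _ => ?_
    ring
  have e1 : ∑ x, ∑ z, ∑ w, t w z x ^ 2 = ∑ x, ∑ z, ∑ w, t x z w ^ 2 :=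
    (KB_rot _).trans (Finset.sum_congr rfl fun _ _ => Finset.sum_comm)
  have e2 : ∑ x, ∑ z, ∑ w, t x w z ^ 2 = ∑ x, ∑ z, ∑ w, t x z w ^ 2 :=
    Finset.sum_congr rfl fun _ _ => Finset.sum_comm
  have e3 : ∑ x, ∑ z, ∑ w, t x z w * t x w z = ∑ x, ∑ z, ∑ w, t x z w * t w z x := by
    rw [Finset.sum_comm]
    refine Finset.sum_congr rfl fun x _ => Finset.sum_congr rfl fun z _ =>
      Finset.sum_congr rfl fun w _ => ?_
    rw [ht z x w, ht z w x]
  have e4 : ∑ x, ∑ z, ∑ w, t w z x * t x w z = ∑ x, ∑ z, ∑ w, t x z w * t w z x := by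
    rw [KB_rot fun x z w => t x z w * t w z x]
    refine Finset.sum_congr rfl fun x _ => Finset.sum_congr rfl fun z _ =>
      Finset.sum_congr rfl fun w _ => ?_
    rw [ht w z x]
  rw [e0, e1, e2, e3, e4] at h0
  linarith

private theorem KB_lin {L C : ℝ} (h : ∀ r : ℝ, 0 ≤ C * (r * r) + L * r) : L = 0 := by
  have h1 : discrim C L 0 ≤ 0 := discrim_le_zero fun r => by simpa using h r
  unfold discrim at h1
  have h2 : L ^ 2 ≤ 0 := by linarith
  exact pow_eq_zero_iff (two_ne_zero) |>.1 (le_antisymm h2 (sq_nonneg L))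

namespace SF

variable {S : SF n V N} {Z y : ℝ}

private theorem KB_diag (S : SF n V N) : ∃ f : OrthonormalBasis (Fin n) ℝ V, ∀ i x,
    ∑ j, ⟪S.h0 (f i) (S.b j), S.h0 x (S.b j)⟫ = S.mu (f i) * ⟪f i, x⟫ := by
  obtain ⟨k, hk⟩ := S.exists_h0
  have hb : P1b_Bil fun x y => ∑ j, ⟪k x (S.b j), k y (S.b j)⟫ :=
    ⟨fun y => P1b_lin_sum fun j => P1b_l1 k _ _, fun x => P1b_lin_sum fun j => P1b_r1 k _ _⟩
  obtain ⟨f, lam, hf⟩ := exists_diag S.b
    (LinearMap.mk₂ ℝ (fun x y => ∑ j, ⟪k x (S.b j), k y (S.b j)⟫)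
      (fun a a' y => (hb.1 y).map_add a a') (fun c a y => (hb.1 y).map_smul c a)
      (fun x a a' => (hb.2 x).map_add a a') (fun c x a => (hb.2 x).map_smul c a))
    (fun x y => by
      simp only [LinearMap.mk₂_apply]
      exact Finset.sum_congr rfl fun j _ => real_inner_comm _ _)
  simp only [LinearMap.mk₂_apply, hk] at hf
  refine ⟨f, fun i x => ?_⟩
  have h1 := hf i (f i)
  simp only [real_inner_self_eq_norm_sq, f.orthonormal.1 i, one_pow, mul_one] at h1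
  rw [hf, mu, h1]

private theorem KB_smul (S : SF n V N) (r : ℝ) (x : V) : S.mu (r • x) = r ^ 2 * S.mu x := by
  obtain ⟨k, hk⟩ := S.exists_h0
  simp only [mu, ← hk, map_smul, LinearMap.smul_apply, norm_smul, mul_pow, Real.norm_eq_abs,
    sq_abs, Finset.mul_sum]

private theorem KB_add (S : SF n V N) (e x : V) (r : ℝ) : S.mu (e + r • x) =
    S.mu e + 2 * r * ∑ j, ⟪S.h0 e (S.b j), S.h0 x (S.b j)⟫ + r ^ 2 * S.mu x := by
  obtain ⟨k, hk⟩ := S.exists_h0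
  simp only [mu, ← hk, map_add, map_smul, LinearMap.add_apply, LinearMap.smul_apply,
    norm_add_sq_real, norm_smul, mul_pow, Real.norm_eq_abs, sq_abs, Finset.mul_sum,
    real_inner_smul_right, Finset.sum_add_distrib, mul_assoc]

private theorem KB_top {e : V} (t : S.Top e) (x : V) : S.mu x ≤ S.mu e * ‖x‖ ^ 2 := by
  rcases eq_or_ne x 0 with rfl | hx
  · have h1 := S.KB_smul 0 0
    rw [zero_smul] at h1
    rw [h1]
    simp
  have hn : ‖x‖ ≠ 0 := norm_ne_zero_iff.2 hx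
  have h1 := t.2 _ (norm_smul_inv_norm (𝕜 := ℝ) hx)
  rw [KB_smul] at h1
  have h2 := mul_le_mul_of_nonneg_right h1 (sq_nonneg ‖x‖)
  refine le_trans (le_of_eq ?_) h2
  simp only [RCLike.ofReal_real_eq_id, id]
  field_simp

theorem mu_nonneg (S : SF n V N) (e : V) : 0 ≤ S.mu e := by
  unfold mu
  positivity

theorem rw_nonneg (S : SF n V N) (ξ : N) (e : V) : 0 ≤ S.rw ξ e := by
  unfold rw
  positivity

theorem I1_eq (S : SF n V N) (e : V) : S.I1 e = ∑ w, S.uD (S.h0 e (S.b w)) := by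
  exact KB_rot _

/-- `ta` is symmetric in its first two slots; expand the square of the sum of three
rearrangements. -/
theorem I4_le (S : SF n V N) (e : V) : S.I4 e ≤ S.I1 e := by
  refine KB_sym (S.ta e) fun x z w => ?_
  rw [ta, ta, S.h0_symm (S.b x)]

theorem K0.I1_le (h : S.K0 Z y) (hZ : 0 ≤ Z) (hZ1 : Z ≤ 1) (hy : 0 ≤ y) (h0 : S.eta = 0)
    (e : V) : S.I1 e ≤ n * y * S.mu e := by
  rw [S.I1_eq, mu, Finset.mul_sum]
  exact Finset.sum_le_sum fun w _ => h.uD0 hZ hZ1 hy h0 _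

theorem Top.I3_le {e : V} (t : S.Top e) : S.I3 e ≤ S.mu e ^ 2 := by
  obtain ⟨f, hf⟩ := S.KB_diag
  obtain ⟨k, hk⟩ := S.exists_h0
  have h1 : S.I3 e = ∑ i, ∑ l, (∑ j, ⟪S.h0 (f i) (S.b j), S.h0 (f l) (S.b j)⟫) *
      ⟪S.h0 e (f i), S.h0 e (f l)⟫ := by
    simp only [I3, M0, ← hk]
    exact (P1b_sum2 S.b f (fun x x' y y' => (∑ j, ⟪k x (S.b j), k y (S.b j)⟫) * ⟪k e x', k e y'⟫)
      (fun y => P1b_bil_mul (P1b_lin_sum fun j => P1b_l1 k _ _) (P1b_l2 k _ _))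
      (fun x => P1b_bil_mul (P1b_lin_sum fun j => P1b_r1 k _ _) (P1b_r2 k _ _))).symm
  rw [h1, sq]
  nth_rewrite 2 [mu]
  rw [← S.wb_row f e, Finset.mul_sum]
  refine Finset.sum_le_sum fun i _ => ?_
  simp only [hf]
  rw [Finset.sum_eq_single i (fun l _ hli => by rw [f.orthonormal.2 hli.symm]; simp) (by simp),
    real_inner_self_eq_norm_sq, real_inner_self_eq_norm_sq, f.orthonormal.1 i, one_pow, mul_one]
  exact mul_le_mul_of_nonneg_right (t.2 _ (f.orthonormal.1 i)) (sq_nonneg _)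

theorem Top.eig {e : V} (t : S.Top e) (x : V) :
    ∑ j, ⟪S.h0 e (S.b j), S.h0 x (S.b j)⟫ = S.mu e * ⟪e, x⟫ := by
  have h : 2 * (S.mu e * ⟪e, x⟫ - ∑ j, ⟪S.h0 e (S.b j), S.h0 x (S.b j)⟫) = 0 := by
    refine KB_lin (C := S.mu e * ‖x‖ ^ 2 - S.mu x) fun r => ?_
    have h1 := KB_top t (e + r • x)
    rw [KB_add, norm_add_sq_real, t.1, norm_smul, real_inner_smul_right, mul_pow,
      Real.norm_eq_abs, sq_abs] at h1
    linarith
  linarith

theorem K2.top {φ : ℝ} (k : S.K2 φ) {e : V} (he : ‖e‖ = 1) (ht : S.f2 e = φ) : S.Top e := by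
  refine ⟨he, fun e' he' => ?_⟩
  have h1 := k e' he'
  rw [← ht, f2, f2] at h1
  linarith

theorem sum_mu (S : SF n V N) : ∑ i, S.mu (S.b i) = S.u := by
  rfl

theorem sum_I1 (S : SF n V N) : ∑ i, S.I1 (S.b i) = S.G2 := by
  simp only [I1_eq, uD, G2]
  refine Finset.sum_congr rfl fun i _ => Finset.sum_congr rfl fun j _ =>
    Finset.sum_congr rfl fun k _ => Finset.sum_congr rfl fun l _ => ?_
  rw [real_inner_comm]

theorem sum_I4 (S : SF n V N) : ∑ i, S.I4 (S.b i) = -2 * S.J0 := by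
  simp only [I4, J0, ← Finset.mul_sum]
  refine congrArg _ (Finset.sum_congr rfl fun i _ => (KB_rot _).trans ?_)
  refine Finset.sum_congr rfl fun j _ => Finset.sum_congr rfl fun k _ =>
    Finset.sum_congr rfl fun l _ => ?_
  rw [ta, ta, real_inner_comm (S.h0 (S.b i) (S.b j)), real_inner_comm (S.h0 (S.b i) (S.b k))]

/-- A basis in which `M0` is diagonal (`exists_diag`). -/
theorem exists_M0_diag (S : SF n V N) : ∃ f : OrthonormalBasis (Fin n) ℝ V,
    ∑ i, ∑ k, (S.wb f).M0 i k ^ 2 = ∑ i, (S.wb f).mu (f i) ^ 2 := by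
  obtain ⟨f, hf⟩ := S.KB_diag
  refine ⟨f, Finset.sum_congr rfl fun i _ => ?_⟩
  have h1 : (S.wb f).mu (f i) = S.mu (f i) := by
    simp only [mu, wb_h0]
    exact S.wb_row f (f i)
  simp only [P1b_wb_M0, hf, h1]
  rw [Finset.sum_eq_single i (fun l _ hli => by rw [f.orthonormal.2 hli.symm]; simp) (by simp),
    real_inner_self_eq_norm_sq, f.orthonormal.1 i, one_pow, mul_one]

end SF

end Pool.Agent.Lib.MP_de485e_gt.Hi
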