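import Pool.Agent.Lib.MP_de485e_gt.Big.F7

/-! Removing a normal direction. -/

open scoped RealInnerProductSpace

namespace Pool.Agent.Lib.MP_de485e_gt.Hi

variable {n : ℕ} {V N : Type} [NormedAddCommGroup V] [InnerProductSpace ℝ V]
  [FiniteDimensional ℝ V] [NormedAddCommGroup N] [InnerProductSpace ℝ N] [FiniteDimensional ℝ N]

private theorem RL_inner {θ : N} (hθ : ‖θ‖ = 1 ∨ θ = 0) (x x' : N) :
    ⟪x, x'⟫ = ⟪x, θ⟫ * ⟪x', θ⟫ + ⟪off θ x, off θ x'⟫ := by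
  rcases hθ with h | rfl
  · simp only [off_apply, inner_sub_left, inner_sub_right, real_inner_smul_left,
      real_inner_smul_right, real_inner_self_eq_norm_sq, h, real_inner_comm θ]
    ring
  · simp [off_apply]

omit [FiniteDimensional ℝ V] in
private theorem RL_norm (b : OrthonormalBasis (Fin n) ℝ V) (c : Fin n → ℝ) :
    ‖∑ j, c j • b j‖ ^ 2 = ∑ j, c j ^ 2 := by
  rw [← real_inner_self_eq_norm_sq, b.orthonormal.inner_sum]
  simp [sq]

private theorem RL_op {ω : ℝ} (A : Fin n → Fin n → ℝ)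
    (h : ∀ c : Fin n → ℝ, ∑ z, (∑ x, c x * A x z) ^ 2 ≤ ω * ∑ x, c x ^ 2) (κ : Fin n → N) :
    ∑ z, ‖∑ x, A x z • κ x‖ ^ 2 ≤ ω * ∑ x, ‖κ x‖ ^ 2 := by
  let f := stdOrthonormalBasis ℝ N
  simp only [← f.sum_sq_inner_right, inner_sum, real_inner_smul_right]
  rw [Finset.sum_comm, Finset.sum_comm (f := fun x β => ⟪f β, κ x⟫ ^ 2), Finset.mul_sum]
  exact Finset.sum_le_sum fun β _ => by simpa only [mul_comm] using h fun x => ⟪f β, κ x⟫

namespace SF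

private theorem RL_lin (S : SF n V N) (c : Fin n → ℝ) (x : V) :
    S.h0 (∑ j, c j • S.b j) x = ∑ j, c j • S.h0 (S.b j) x := by
  obtain ⟨k, hk⟩ := S.exists_h0
  simp only [← hk, map_sum, map_smul, LinearMap.sum_apply, LinearMap.smul_apply]

variable {S : SF n V N} {Z y : ℝ} {θ : N} (hθ : ‖θ‖ = 1 ∨ θ = 0)
include hθ

theorem rl_mu (e : V) : S.mu e = (S.post (off θ)).mu e + S.rw θ e := by
  simp only [mu, rw, post_h0, ← Finset.sum_add_distrib]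
  refine Finset.sum_congr rfl fun j _ => ?_
  rw [← real_inner_self_eq_norm_sq, ← real_inner_self_eq_norm_sq, RL_inner hθ, sq, add_comm]
  rfl

private theorem RL_ta (e : V) (x z w : Fin n) : S.ta e x z w =
    ⟪S.h0 (S.b x) (S.b z), θ⟫ * ⟪S.h0 e (S.b w), θ⟫ + (S.post (off θ)).ta e x z w := by
  simp only [ta, post_h0]
  exact RL_inner hθ _ _

variable (h : (S.post (off θ)).K0 Z y) (hZ : 0 ≤ Z) (hZ1 : Z ≤ 1) (hy : 0 ≤ y)
  (h0 : (S.post (off θ)).eta = 0)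
include h hZ hZ1 hy h0

/-- `ta e x z w = ta' e x z w + A x z * A e w` with `A = ⟪h0, θ⟫`. The mixed term is the scalar
product of `A` with the shape operator of `S'` in direction `h0' e (A e)`; `uD0`, `norm0`. -/
theorem rl_I1 {e : V} (he : ‖e‖ = 1) :
    S.I1 e ≤ (S.post (off θ)).I1 e + 2 * (S.rw θ e * S.uD θ) + 8 * n * y ^ 2 := by
  set T := S.post (off θ)
  let A : Fin n → Fin n → ℝ := fun x z => ⟪S.h0 (S.b x) (S.b z), θ⟫
  let a : Fin n → ℝ := fun w => ⟪S.h0 e (S.b w), θ⟫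
  obtain ⟨ξ, hξ⟩ : ∃ ξ : N, ξ = T.h0 (∑ w, a w • T.b w) e := ⟨_, rfl⟩
  have hr : S.rw θ e = ∑ w, a w ^ 2 := rfl
  have hD : S.uD θ = ∑ x, ∑ z, A x z ^ 2 := rfl
  have h1 : ‖ξ‖ ^ 2 ≤ 8 * y * S.rw θ e := by
    have := h.norm0 hZ hZ1 hy h0 (∑ w, a w • T.b w) e
    rwa [← hξ, RL_norm, he, one_pow, mul_one] at this
  have h2 := h.uD0 hZ hZ1 hy h0 ξ
  have h3 : ∀ x z, ∑ w, a w * T.ta e x z w = ⟪T.h0 (T.b x) (T.b z), ξ⟫ := fun x z => by
    simp only [hξ, RL_lin, inner_sum, real_inner_smul_right, ta, T.h0_symm e]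
  obtain ⟨M, hM⟩ : ∃ M, M = ∑ x, ∑ z, A x z * ⟪T.h0 (T.b x) (T.b z), ξ⟫ := ⟨_, rfl⟩
  have h4 : S.I1 e = T.I1 e + S.rw θ e * S.uD θ + 2 * M := by
    simp only [hM, hr, hD, I1, ← h3, RL_ta hθ (S := S), Finset.mul_sum, Finset.sum_mul,
      ← Finset.sum_add_distrib]
    refine Finset.sum_congr rfl fun x _ => Finset.sum_congr rfl fun z _ =>
      Finset.sum_congr rfl fun w _ => ?_
    simp only [A, a, T]
    ring
  have h5 : M ^ 2 ≤ S.uD θ * T.uD ξ := by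
    rw [hM, hD, uD]
    simpa only [Fintype.sum_prod_type] using Finset.sum_mul_sq_le_sq_mul_sq Finset.univ
      (fun q : Fin n × Fin n => A q.1 q.2) fun q => ⟪T.h0 (T.b q.1) (T.b q.2), ξ⟫
  have hu := S.uD_nonneg θ
  have hr0 : 0 ≤ S.rw θ e := by rw [hr]; positivity
  have h6 : T.uD ξ ≤ 8 * n * y ^ 2 * S.rw θ e := by
    have := mul_le_mul_of_nonneg_left h1 (show 0 ≤ (n : ℝ) * y by positivity)
    linarith
  have h7 : (2 * M) ^ 2 ≤ (S.rw θ e * S.uD θ + 8 * n * y ^ 2) ^ 2 := by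
    have := mul_le_mul_of_nonneg_left h6 hu
    nlinarith [sq_nonneg (S.rw θ e * S.uD θ - 8 * n * y ^ 2)]
  have h8 := (abs_le_of_sq_le_sq' h7 (by positivity)).2
  linarith

/-- The mixed term is `-4 ∑ z, ⟪h0' (A e) (b z), h0' e (A (b z))⟫`; `mu0`. -/
theorem rl_I4 {ω : ℝ} (hω : ∀ x : V, S.rw θ x ≤ ω * ‖x‖ ^ 2) {e : V} (he : ‖e‖ = 1) :
    S.I4 e ≤ (S.post (off θ)).I4 e + 4 * ω * ((n + 15) * y) := by
  set T := S.post (off θ)
  let A : Fin n → Fin n → ℝ := fun x z => ⟪S.h0 (S.b x) (S.b z), θ⟫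
  let a : Fin n → ℝ := fun w => ⟪S.h0 e (S.b w), θ⟫
  let P : Fin n → N := fun z => ∑ w, a w • T.h0 (T.b w) (T.b z)
  let Q : Fin n → N := fun z => ∑ x, A x z • T.h0 e (T.b x)
  have hr : S.rw θ e = ∑ w, a w ^ 2 := rfl
  have hr1 := hω e
  rw [he, one_pow, mul_one] at hr1
  have hω0 : 0 ≤ ω := le_trans (by rw [hr]; positivity) hr1
  have hny : 0 ≤ ((n : ℝ) + 15) * y := by positivity
  have hP : ∑ z, ‖P z‖ ^ 2 ≤ ω * ((n + 15) * y) := by
    have := h.mu0 hZ hZ1 hy h0 (∑ w, a w • T.b w)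
    simp only [mu, RL_lin, RL_norm, ← hr] at this
    exact this.trans (by rw [mul_comm]; exact mul_le_mul_of_nonneg_right hr1 hny)
  have hQ : ∑ z, ‖Q z‖ ^ 2 ≤ ω * ((n + 15) * y) := by
    have h1 := h.mu0 hZ hZ1 hy h0 e
    rw [he, one_pow, mul_one] at h1
    refine (RL_op A (fun c => ?_) _).trans (mul_le_mul_of_nonneg_left h1 hω0)
    simpa only [rw, RL_lin, RL_norm, sum_inner, real_inner_smul_left] using hω (∑ x, c x • S.b x)
  have e1 : ∑ x, ∑ z, ∑ w, A x z * a w * T.ta e w z x = ∑ z, ⟪P z, Q z⟫ := by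
    rw [Finset.sum_comm]
    refine Finset.sum_congr rfl fun z _ => ?_
    simp only [P, Q, sum_inner, inner_sum, real_inner_smul_left, real_inner_smul_right, ta,
      mul_assoc]
  have e2 : ∑ x, ∑ z, ∑ w, A w z * a x * T.ta e x z w = ∑ z, ⟪P z, Q z⟫ := by
    rw [← e1, Finset.sum_comm, Finset.sum_comm (f := fun x z => ∑ w, A x z * a w * T.ta e w z x)]
    exact Finset.sum_congr rfl fun z _ => Finset.sum_comm
  have e3 : 0 ≤ ∑ x, ∑ z, ∑ w, A x z * a x * (A w z * a w) := by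
    rw [Finset.sum_comm]
    refine Finset.sum_nonneg fun z _ => ?_
    rw [← Finset.sum_mul_sum]
    exact mul_self_nonneg _
  have e4 : ∑ x, ∑ z, ∑ w, S.ta e x z w * S.ta e w z x =
      ∑ x, ∑ z, ∑ w, A x z * a x * (A w z * a w) + ∑ x, ∑ z, ∑ w, A x z * a w * T.ta e w z x +
        ∑ x, ∑ z, ∑ w, A w z * a x * T.ta e x z w + ∑ x, ∑ z, ∑ w, T.ta e x z w * T.ta e w z x := by
    simp only [RL_ta hθ (S := S), ← Finset.sum_add_distrib]
    refine Finset.sum_congr rfl fun x _ => Finset.sum_congr rfl fun z _ =>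
      Finset.sum_congr rfl fun w _ => ?_
    simp only [A, a, T]
    ring
  have e5 : -(∑ z, ‖P z‖ ^ 2 + ∑ z, ‖Q z‖ ^ 2) ≤ 2 * ∑ z, ⟪P z, Q z⟫ := by
    rw [← Finset.sum_add_distrib, ← Finset.sum_neg_distrib, Finset.mul_sum]
    refine Finset.sum_le_sum fun z _ => ?_
    have := norm_add_sq_real (P z) (Q z)
    nlinarith [sq_nonneg ‖P z + Q z‖]
  rw [I4, I4, e4, e1, e2]
  linarith

end SF

end Pool.Agent.Lib.MP_de485e_gt.Hi
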