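import Pool.Agent.Lib.MP_de485e_gt.Big.KA
import Pool.Agent.Lib.MP_de485e_gt.Big.RL
import Pool.Agent.Lib.MP_de485e_gt.Big.C4
import Pool.Agent.Lib.MP_de485e_gt.Hi.P5

/-! The key lemma and its two uses. -/

open scoped RealInnerProductSpace

namespace Pool.Agent.Lib.MP_de485e_gt.Hi

variable {n : ℕ} {V N : Type} [NormedAddCommGroup V] [InnerProductSpace ℝ V]
  [FiniteDimensional ℝ V] [NormedAddCommGroup N] [InnerProductSpace ℝ N] [FiniteDimensional ℝ N]

private theorem KL_off {θ ξ : N} (hθ : ‖θ‖ = 1 ∨ θ = 0) (hξ : ξ = ‖ξ‖ • θ) : off θ ξ = 0 := by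
  rcases hθ with h1 | h1
  · rw [off_apply, sub_eq_zero]
    conv_rhs => rw [hξ, real_inner_smul_right, real_inner_self_eq_norm_sq, h1]
    rw [one_pow, mul_one]
    exact hξ
  · rw [hξ, h1, smul_zero, map_zero]

private theorem KL_sq {θ : N} (hθ : ‖θ‖ = 1 ∨ θ = 0) : ‖θ‖ ^ 2 ≤ 1 := by
  rcases hθ with h1 | h1
  · rw [h1, one_pow]
  · rw [h1, norm_zero]
    norm_num

private theorem KL_rw (S : SF n V N) (r : ℝ) (θ : N) (e : V) :
    S.rw (r • θ) e = r ^ 2 * S.rw θ e := by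
  simp only [SF.rw, real_inner_smul_right, mul_pow, Finset.mul_sum]

private theorem KL_real {n y E Z a U m m' I I' J J' : ℝ} (hn : (10 : ℝ) ^ 20 ≤ n) (hy : 0 ≤ y)
    (hE : 0 ≤ E) (hZ1 : Z ≤ 1) (ha : 0 ≤ a) (ha' : a ≤ 32 * Z * E + 16 * y)
    (hU : U ≤ n * (Z * E + y)) (hm : m = m' + a) (hm' : m' ≤ (n + 15) * y)
    (hI : I ≤ I' + 2 * (a * U) + 8 * n * y ^ 2)
    (hJ : J ≤ J' + 4 * (32 * Z * E + 16 * y) * ((n + 15) * y))
    (hk : I' + J' + 2 * m' ^ 2 ≤ (3 - 1 / 200) * (n * y * m') + 100 * n * y ^ 2) :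
    I + J + 2 * m ^ 2 + n * (E * a) ≤
      (3 - 1 / 200) * (n * y * m) + 97 * n * E ^ 2 + 1000 * n * y * (E + y) := by
  have hn0 : 0 ≤ n := le_trans (by norm_num) hn
  have hn1 : 2048 ≤ n := le_trans (by norm_num) hn
  have hZE : Z * E ≤ E := by nlinarith
  have hw : a ≤ 32 * E + 16 * y := by nlinarith
  have hw0 : 0 ≤ 32 * E + 16 * y := by positivity
  have hny : (n + 15) * y ≤ 2 * n * y := mul_le_mul_of_nonneg_right (by linarith) hy
  have hEE : 0 ≤ n * E ^ 2 := by positivity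
  have hEy : 0 ≤ n * (E * y) := by positivity
  have hyy : 0 ≤ n * y ^ 2 := by positivity
  have h1 : a * U ≤ (32 * E + 16 * y) * (n * (E + y)) := by
    calc a * U ≤ a * (n * (E + y)) :=
          mul_le_mul_of_nonneg_left (hU.trans (mul_le_mul_of_nonneg_left (by linarith) hn0)) ha
      _ ≤ _ := mul_le_mul_of_nonneg_right hw (by positivity)
  have h2 : (32 * Z * E + 16 * y) * ((n + 15) * y) ≤ (32 * E + 16 * y) * (2 * n * y) :=
    mul_le_mul (by nlinarith) hny (by positivity) hw0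
  have h3 : m' * a ≤ 2 * n * y * (32 * E + 16 * y) :=
    (mul_le_mul_of_nonneg_right (hm'.trans hny) ha).trans
      (mul_le_mul_of_nonneg_left hw (by positivity))
  have h4 : a ^ 2 ≤ (32 * E + 16 * y) ^ 2 := pow_le_pow_left₀ ha hw 2
  have h5 : n * (E * a) ≤ n * (E * (32 * E + 16 * y)) :=
    mul_le_mul_of_nonneg_left (mul_le_mul_of_nonneg_left hw hE) hn0
  have h6 : 2048 * E ^ 2 ≤ n * E ^ 2 := mul_le_mul_of_nonneg_right hn1 (by positivity)
  have h7 : 2048 * (E * y) ≤ n * (E * y) := mul_le_mul_of_nonneg_right hn1 (by positivity)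
  have h8 : 2048 * y ^ 2 ≤ n * y ^ 2 := mul_le_mul_of_nonneg_right hn1 (by positivity)
  have h9 : 0 ≤ n * y * a := by positivity
  have h10 : 0 ≤ y ^ 2 := by positivity
  subst hm
  nlinarith

namespace SF

variable {S : SF n V N} {Z y : ℝ} (h : S.K0 Z y) (hZ : 0 ≤ Z) (hZ1 : Z ≤ 1) (hy : 0 ≤ y)
  (hn : (10 : ℝ) ^ 20 ≤ n)
include h hZ hZ1 hy hn

/-- If `mu ≤ 0.45 n y` use `I4_le`, `I1_le`. Otherwise `alpha`, `I4_le`, and `rl_I1`, `cliff` with
`θ` the direction of `h0 e e` (`exists_dir`, `K0.post`). -/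
theorem K0.key (h0 : S.eta = 0) {e : V} (he : ‖e‖ = 1) :
    S.I1 e + S.I4 e + 2 * S.mu e ^ 2 ≤ (3 - 1 / 200) * (n * y * S.mu e) + 100 * n * y ^ 2 := by
  have hn0 : (0 : ℝ) ≤ n := Nat.cast_nonneg n
  have hμ := S.mu_nonneg e
  have hP : 0 ≤ n * y * S.mu e := by positivity
  have hyy : 0 ≤ n * y ^ 2 := by positivity
  have h4 := S.I4_le e
  rcases le_total (S.mu e) (45 / 100 * n * y) with hc | hc
  · have h1 := h.I1_le hZ hZ1 hy h0 e
    have h2 := mul_le_mul_of_nonneg_right hc hμ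
    nlinarith
  · obtain ⟨θ, hθ, hd⟩ := exists_dir (S.h0 e e)
    have h' : (S.post (off θ)).K0 Z y := h.post hZ hy (off_symm θ) (off_norm_le hθ)
    have h0' : (S.post (off θ)).eta = 0 := by rw [post_eta, h0, map_zero]
    have hee : (S.post (off θ)).h0 e e = 0 := by rw [post_h0, KL_off hθ hd]
    have hs := KL_sq hθ
    have hm := rl_mu (S := S) hθ e
    have ha0 := S.rw_nonneg θ e
    have ha : S.rw θ e ≤ 8 * y := by
      have h1 := h.rw0 hZ hZ1 hy h0 θ e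
      rw [he, one_pow, mul_one] at h1
      exact h1.trans (mul_le_of_le_one_right (by positivity) hs)
    have hU : S.uD θ ≤ n * y :=
      (h.uD0 hZ hZ1 hy h0 θ).trans (mul_le_of_le_one_right (by positivity) hs)
    have hn1 : 800 * y ≤ n * y := mul_le_mul_of_nonneg_right (le_trans (by norm_num) hn) hy
    have hc' : 44 / 100 * n * y ≤ (S.post (off θ)).mu e := by linarith
    have h1 := h'.cliff hZ hZ1 hy h0' hn he hee hc'
    have h2 := rl_I1 hθ h' hZ hZ1 hy h0' he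
    have h3 := h.alpha hZ hZ1 hy h0 hn he
    have h5 : S.rw θ e * S.uD θ ≤ 8 * y * (n * y) :=
      mul_le_mul ha hU (S.uD_nonneg θ) (by positivity)
    have h6 : n * y * (S.post (off θ)).mu e ≤ n * y * S.mu e :=
      mul_le_mul_of_nonneg_left (by linarith) (by positivity)
    nlinarith

/-- `θ` the direction of `eta` (`P5_eta`), `ω = 32 Z e2 + 16 y` (`F2h`, `rw_le`), `F1`. -/
theorem K0.Rm_le {e : V} (t : S.Top e) :
    S.Rm e ≤ ((3 - 1 / 200) * y - 1) * (n * S.mu e) + 97 * n * S.e2 ^ 2 +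
      1000 * n * y * (S.e2 + y) := by
  obtain ⟨θ, hθ, hd⟩ := exists_dir S.eta
  have he := t.1
  have h' : (S.post (off θ)).K0 Z y := h.post hZ hy (off_symm θ) (off_norm_le hθ)
  have h0' : (S.post (off θ)).eta = 0 := P5_eta hθ hd
  have hs := KL_sq hθ
  have hE : 0 ≤ S.e2 := sq_nonneg _
  have hω : ∀ x : V, S.rw θ x ≤ (32 * Z * S.e2 + 16 * y) * ‖x‖ ^ 2 := by
    refine rw_le fun z hz => (P2_cs _ _).trans ?_
    exact (mul_le_of_le_one_right (sq_nonneg _) hs).trans (h.F2h hZ hZ1 hy hz)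
  have ha : S.rw θ e ≤ 32 * Z * S.e2 + 16 * y := by
    have h1 := hω e
    rwa [he, one_pow, mul_one] at h1
  have hU : S.uD θ ≤ n * (Z * S.e2 + y) := by
    refine (h.F1 hZ hZ1 hy θ).trans (mul_le_mul_of_nonneg_left (add_le_add ?_ ?_) (Nat.cast_nonneg n))
    · exact mul_le_mul_of_nonneg_left
        ((P2_cs _ _).trans (mul_le_of_le_one_right (sq_nonneg _) hs)) hZ
    · exact mul_le_of_le_one_right hy hs
  have hm' : (S.post (off θ)).mu e ≤ (n + 15) * y := by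
    have h1 := h'.mu0 hZ hZ1 hy h0' e
    rwa [he, one_pow, mul_one] at h1
  have hr : S.rw S.eta e = S.e2 * S.rw θ e := by
    conv_lhs => rw [hd]
    exact KL_rw S _ θ e
  have h1 := KL_real hn hy hE hZ1 (S.rw_nonneg θ e) ha hU (rl_mu (S := S) hθ e) hm'
    (rl_I1 hθ h' hZ hZ1 hy h0' he) (rl_I4 hθ h' hZ hZ1 hy h0' hω he)
    (h'.key hZ hZ1 hy hn h0' he)
  have h2 := t.I3_le
  rw [Rm, hr]
  linarith

end SF

end Pool.Agent.Lib.MP_de485e_gt.Hi
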