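import Pool.Agent.Lib.MP_de485e_gt.Big.KL

/-! The reaction term of the trace free norm. -/

open scoped RealInnerProductSpace

namespace Pool.Agent.Lib.MP_de485e_gt.Hi

variable {n : ℕ} {V N : Type} [NormedAddCommGroup V] [InnerProductSpace ℝ V]
  [FiniteDimensional ℝ V] [NormedAddCommGroup N] [InnerProductSpace ℝ N] [FiniteDimensional ℝ N]

namespace SF

variable {S : SF n V N} {Z y : ℝ}

/-- With `θ` a unit normal or zero and `S' = S.post (off θ)` trace free. -/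
theorem G2_off {θ : N} (hθ : ‖θ‖ = 1 ∨ θ = 0) (h : (S.post (off θ)).K0 Z y) (hZ : 0 ≤ Z)
    (hZ1 : Z ≤ 1) (hy : 0 ≤ y) (h0 : (S.post (off θ)).eta = 0) :
    S.G2 ≤ (S.post (off θ)).G2 + 2 * n * y * S.uD θ + S.uD θ ^ 2 := by
  have hD0 := S.uD_nonneg θ
  let A : Fin n → Fin n → ℝ := fun i j => ⟪S.h0 (S.b i) (S.b j), θ⟫
  let k : Fin n → Fin n → N := fun i j => off θ (S.h0 (S.b i) (S.b j))
  have hD : S.uD θ = ∑ i, ∑ j, A i j ^ 2 := rfl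
  have hG' : (S.post (off θ)).G2 = ∑ i, ∑ j, ∑ a, ∑ l, ⟪k i j, k a l⟫ ^ 2 := by
    simp only [G2, post_h0]
    rfl
  obtain ⟨ξ, hξ⟩ : ∃ ξ : N, ξ = ∑ i, ∑ j, A i j • k i j := ⟨_, rfl⟩
  have hD' : (S.post (off θ)).uD ξ = ∑ i, ∑ j, ⟪k i j, ξ⟫ ^ 2 := by
    simp only [uD, post_h0]
    rfl
  have e1 : ‖ξ‖ ^ 2 = ∑ i, ∑ j, A i j * ⟪k i j, ξ⟫ := by
    rw [← real_inner_self_eq_norm_sq]
    nth_rewrite 1 [hξ]
    simp only [sum_inner, real_inner_smul_left]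
  have e2 : ‖ξ‖ ^ 2 = ∑ i, ∑ j, ∑ a, ∑ l, A i j * A a l * ⟪k i j, k a l⟫ := by
    rw [e1, hξ]
    simp only [inner_sum, real_inner_smul_right, Finset.mul_sum, mul_assoc]
  have e3 : S.G2 = S.uD θ ^ 2 + 2 * ‖ξ‖ ^ 2 + (S.post (off θ)).G2 := by
    have e4 : S.uD θ ^ 2 = ∑ i, ∑ j, ∑ a, ∑ l, A i j ^ 2 * A a l ^ 2 := by
      rw [hD, sq, Finset.sum_mul]
      refine Finset.sum_congr rfl fun i _ => ?_
      rw [Finset.sum_mul]
      simp only [Finset.mul_sum]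
    rw [hG', e2, e4]
    simp only [G2, Finset.mul_sum, ← Finset.sum_add_distrib]
    refine Finset.sum_congr rfl fun i _ => Finset.sum_congr rfl fun j _ =>
      Finset.sum_congr rfl fun a _ => Finset.sum_congr rfl fun l _ => ?_
    rw [P5_inner hθ]
    simp only [A, k]
    ring
  have hcs : (‖ξ‖ ^ 2) ^ 2 ≤ S.uD θ * (S.post (off θ)).uD ξ := by
    rw [e1, hD, hD']
    simpa only [Fintype.sum_prod_type] using Finset.sum_mul_sq_le_sq_mul_sq Finset.univ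
      (fun q : Fin n × Fin n => A q.1 q.2) fun q => ⟪k q.1 q.2, ξ⟫
  have hF := h.F1 hZ hZ1 hy ξ
  rw [h0, inner_zero_left] at hF
  have hx : ‖ξ‖ ^ 2 ≤ S.uD θ * (n * y) := by
    rcases (sq_nonneg ‖ξ‖).eq_or_lt with h1 | h1
    · rw [← h1]
      positivity
    · refine le_of_mul_le_mul_right ?_ h1
      have := mul_le_mul_of_nonneg_left hF hD0
      nlinarith
  linarith

/-- As in `CC_split`: in an eigenbasis of `⟪h0, θ⟫` (`P5_MM`, `P5_JJ`). -/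
theorem CC_off {θ : N} (hθ : ‖θ‖ = 1 ∨ θ = 0) {ω : ℝ}
    (hω : ∀ z : V, ‖z‖ = 1 → ⟪S.h0 z z, θ⟫ ^ 2 ≤ ω) :
    S.CC ≤ (S.post (off θ)).CC + 8 * ω * (S.post (off θ)).u := by
  obtain ⟨f, lam, hf⟩ := S.exists_eig θ
  rw [← S.wb_CC f, ← (S.post (off θ)).wb_CC f, ← (S.post (off θ)).wb_u f]
  change (S.wb f).CC ≤ ((S.wb f).post (off θ)).CC + 8 * ω * ((S.wb f).post (off θ)).u
  have h1 : ∀ z : V, ‖z‖ = 1 → ⟪(S.wb f).h0 z z, θ⟫ ^ 2 ≤ ω := by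
    simpa only [wb_h0] using hω
  have hf' : ∀ i x, ⟪(S.wb f).h ((S.wb f).b i) x, θ⟫ = lam i * ⟪(S.wb f).b i, x⟫ := hf
  generalize S.wb f = T at h1 hf' ⊢
  clear hf hω
  let μ : Fin n → ℝ := fun i => lam i - ⟪T.eta, θ⟫
  let k : Fin n → Fin n → N := fun i j => off θ (T.h0 (T.b i) (T.b j))
  have hb : ∀ i j, ⟪T.b i, T.b j⟫ = if i = j then 1 else 0 :=
    orthonormal_iff_ite.1 T.b.orthonormal
  have hA : ∀ i j, ⟪T.h0 (T.b i) (T.b j), θ⟫ = if i = j then μ i else 0 := by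
    intro i j
    rw [h0, inner_sub_left, hf', real_inner_smul_left, hb]
    split_ifs <;> simp [μ]
  have hI : ∀ i j a l, ⟪T.h0 (T.b i) (T.b j), T.h0 (T.b a) (T.b l)⟫ =
      (if i = j then μ i else 0) * (if a = l then μ a else 0) + ⟪k i j, k a l⟫ := by
    intro i j a l
    rw [P5_inner hθ, hA, hA]
  have hM' : ∀ i a, (T.post (off θ)).M0 i a = ∑ j, ⟪k i j, k a j⟫ := by
    intro i a
    simp only [M0, post_h0]
    rfl
  have hM : ∀ i a, T.M0 i a = (if i = a then μ i ^ 2 else 0) + (T.post (off θ)).M0 i a := by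
    intro i a
    rw [hM', M0]
    simp only [hI, Finset.sum_add_distrib]
    congr 1
    rw [Finset.sum_eq_single i (fun j _ hj => by simp [hj.symm]) (by simp)]
    by_cases hia : i = a
    · subst hia
      simp [sq]
    · simp [hia, Ne.symm hia]
  have hJ' : (T.post (off θ)).J0 = ∑ i, ∑ j, ∑ a, ∑ l, ⟪k i j, k a l⟫ * ⟪k i a, k j l⟫ := by
    simp only [J0, post_h0]
    rfl
  have hJ : T.J0 = ∑ i, μ i ^ 4 + 2 * ∑ i, ∑ j, μ i * μ j * ⟪k i j, k i j⟫ +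
      (T.post (off θ)).J0 := by
    rw [hJ', J0]
    simp only [hI]
    exact P5_JJ μ fun i j a l => ⟪k i j, k a l⟫
  have hu' : (T.post (off θ)).u = ∑ i, ∑ j, ⟪k i j, k i j⟫ := by
    simp only [u, post_h0, real_inner_self_eq_norm_sq]
    rfl
  have hsym : ∑ i, ∑ j, μ j ^ 2 * ⟪k i j, k i j⟫ = ∑ i, ∑ j, μ i ^ 2 * ⟪k i j, k i j⟫ := by
    rw [Finset.sum_comm]
    refine Finset.sum_congr rfl fun i _ => Finset.sum_congr rfl fun j _ => ?_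
    simp only [k, T.h0_symm (T.b j) (T.b i)]
  have hsq : ∑ i, ∑ j, (μ i - μ j) ^ 2 * ⟪k i j, k i j⟫ =
      ∑ i, ∑ j, μ i ^ 2 * ⟪k i j, k i j⟫ + ∑ i, ∑ j, μ j ^ 2 * ⟪k i j, k i j⟫ -
        2 * ∑ i, ∑ j, μ i * μ j * ⟪k i j, k i j⟫ := by
    simp only [Finset.mul_sum, ← Finset.sum_add_distrib, ← Finset.sum_sub_distrib]
    refine Finset.sum_congr rfl fun i _ => Finset.sum_congr rfl fun j _ => ?_
    ring
  have hd : ∑ i, μ i ^ 2 * (T.post (off θ)).M0 i i = ∑ i, ∑ j, μ i ^ 2 * ⟪k i j, k i j⟫ := by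
    simp only [hM', Finset.mul_sum]
  have hCC : T.CC = (T.post (off θ)).CC + 2 * ∑ i, ∑ j, (μ i - μ j) ^ 2 * ⟪k i j, k i j⟫ := by
    rw [hsq, hsym, CC, CC, hJ]
    simp only [hM]
    rw [P5_MM, hd]
    ring
  have hl2 : ∀ i, μ i ^ 2 ≤ ω := fun i => by
    have := h1 _ (T.b.orthonormal.1 i)
    rwa [hA, if_pos rfl] at this
  have hgap : ∀ i j, (μ i - μ j) ^ 2 ≤ 4 * ω := fun i j => by
    nlinarith [hl2 i, hl2 j, sq_nonneg (μ i + μ j)]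
  have hs : ∑ i, ∑ j, (μ i - μ j) ^ 2 * ⟪k i j, k i j⟫ ≤ 4 * ω * (T.post (off θ)).u := by
    rw [hu']
    simp only [Finset.mul_sum]
    exact Finset.sum_le_sum fun i _ => Finset.sum_le_sum fun j _ =>
      mul_le_mul_of_nonneg_right (hgap i j) real_inner_self_nonneg
  rw [hCC]
  linarith

/-- The trace free case. -/
theorem KU_zero (h : S.K0 Z y) (hZ : 0 ≤ Z) (hZ1 : Z ≤ 1) (hy : 0 ≤ y) (hn : (10 : ℝ) ^ 20 ≤ n)
    (h0 : S.eta = 0) :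
    S.G2 + S.CC ≤ (3 - 1 / 200) * (n * y * S.u) + 100 * (n : ℝ) ^ 2 * y ^ 2 := by
  obtain ⟨f, hf⟩ := S.exists_M0_diag
  rw [← S.wb_G2 f, ← S.wb_CC f, ← S.wb_u f]
  rw [← S.wb_eta f] at h0
  have h1 : (S.wb f).K0 Z y := h
  have hf' : ∑ i, ∑ k, (S.wb f).M0 i k ^ 2 = ∑ i, (S.wb f).mu ((S.wb f).b i) ^ 2 := hf
  generalize S.wb f = T at h0 h1 hf' ⊢
  have hs := Finset.sum_le_sum fun i (_ : i ∈ Finset.univ) =>
    h1.key hZ hZ1 hy hn h0 (T.b.orthonormal.1 i)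
  simp only [Finset.sum_add_distrib, ← Finset.mul_sum, Finset.sum_const, Finset.card_univ,
    Fintype.card_fin, nsmul_eq_mul] at hs
  rw [sum_I1, sum_I4, sum_mu, ← hf'] at hs
  rw [CC]
  linarith

/-- Sum `key` over the basis of `exists_M0_diag` for `S'`. -/
theorem K0.GC_le (h : S.K0 Z y) (hZ : 0 ≤ Z) (hZ1 : Z ≤ 1) (hy : 0 ≤ y)
    (hn : (10 : ℝ) ^ 20 ≤ n) :
    S.G2 + S.CC ≤ (3 - 1 / 200) * (n * y * S.u) + (n : ℝ) ^ 2 * Z * S.zeta +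
      1000 * (n : ℝ) ^ 2 * y * (S.e2 + y) := by
  obtain ⟨θ, hθ, hη⟩ := exists_dir S.eta
  have h' : (S.post (off θ)).K0 Z y := h.post hZ hy (off_symm θ) (off_norm_le hθ)
  have hη' := P5_eta hθ hη
  have hu := S.post_off_u hθ
  have hD0 := S.uD_nonneg θ
  have hθ1 : ‖θ‖ ^ 2 ≤ 1 := by
    rcases hθ with h | rfl
    · rw [h, one_pow]
    · simp
  have he0 : 0 ≤ S.e2 := sq_nonneg _
  have hn0 : (16 : ℝ) ≤ n := le_trans (by norm_num) hn
  have hZe : Z * S.e2 ≤ S.e2 := mul_le_of_le_one_left he0 hZ1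
  have hz : (n : ℝ) * S.zeta = S.e2 * S.uD θ := by
    have h1 : S.uD S.eta = ‖S.eta‖ ^ 2 * S.uD θ := by
      conv_lhs => rw [hη]
      exact S.uD_smul _ _
    unfold zeta e2
    rw [h1, ← mul_assoc, mul_inv_cancel₀ S.P1_n, one_mul]
  have hD : S.uD θ ≤ n * (Z * S.e2 + y) := by
    refine (h.F1 hZ hZ1 hy θ).trans (mul_le_mul_of_nonneg_left (add_le_add ?_ ?_) (by linarith))
    · exact mul_le_mul_of_nonneg_left
        ((P2_cs S.eta θ).trans (mul_le_of_le_one_right (sq_nonneg _) hθ1)) hZ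
    · exact mul_le_of_le_one_right hy hθ1
  have hG := G2_off hθ h' hZ hZ1 hy hη'
  have hC := CC_off (S := S) hθ (ω := 32 * Z * S.e2 + 16 * y) fun z hz =>
    ((P2_cs _ θ).trans (mul_le_of_le_one_right (sq_nonneg _) hθ1)).trans (h.F2h hZ hZ1 hy hz)
  have hK := KU_zero h' hZ hZ1 hy hn hη'
  have hu1 : (S.post (off θ)).u ≤ 2 * (n : ℝ) ^ 2 * y := by
    have h1 := h'.u_le0 hZ hZ1 hy
    have h2 : (S.post (off θ)).e2 = 0 := by simp [e2, hη']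
    rw [h2] at h1
    have h3 : 0 ≤ (n : ℝ) * y * (n - 16) := mul_nonneg (by positivity) (by linarith)
    nlinarith
  have a1 : 8 * (32 * Z * S.e2 + 16 * y) * (S.post (off θ)).u ≤
      256 * (S.e2 + y) * (2 * (n : ℝ) ^ 2 * y) :=
    mul_le_mul (by linarith) hu1 (S.post (off θ)).u_nonneg (by positivity)
  have a2 : S.uD θ ^ 2 ≤ (n : ℝ) ^ 2 * Z * S.zeta + n * y * S.uD θ := by
    have h1 := mul_le_mul_of_nonneg_left hD hD0
    have h2 : (n : ℝ) ^ 2 * Z * S.zeta = n * Z * (S.e2 * S.uD θ) := by rw [← hz]; ring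
    rw [h2]
    linarith
  have a3 : n * y * S.uD θ ≤ n * y * (n * (S.e2 + y)) :=
    mul_le_mul_of_nonneg_left (hD.trans (mul_le_mul_of_nonneg_left (by linarith) (by linarith)))
      (by positivity)
  have a4 : 0 ≤ (n : ℝ) ^ 2 * y * S.e2 := by positivity
  have a5 : 0 ≤ (n : ℝ) ^ 2 * y * y := by positivity
  rw [hu] at hK
  linarith

end SF

end Pool.Agent.Lib.MP_de485e_gt.Hi
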