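import Pool.Agent.Lib.MP_de485e_gt.Hi.M3a
import Pool.Agent.Lib.MP_de485e_gt.Big.BDef

/-! The second condition is closed, its strict form is open. -/

open Set Filter Topology

namespace Pool.Agent.Lib.MP_de485e_gt.Hi

variable {ι : Type} [Fintype ι] {n : ℕ} {α : Type} {l : Filter α} {X : α → Arr ι ℝ}
  {p : α → Par n} {X0 : Arr ι ℝ} {p0 : Par n} {φ : α → ℝ} {φ0 : ℝ}

theorem Arr.Ks2.K2 {X : Arr ι ℝ} {φ : ℝ} (h : X.Ks2 φ) : X.K2 φ := fun e he => (h e he).le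

theorem Arr.K2.mono {X : Arr ι ℝ} {φ φ' : ℝ} (h : X.K2 φ) (h' : φ ≤ φ') : X.K2 φ' :=
  fun e he => (h e he).trans h'

theorem M7a_T0 (c : Cvg l X p X0 p0) (a b d : ι) :
    Tendsto (fun i => (X i).T0 a b d) l (𝓝 (X0.T0 a b d)) := by
  have h : Tendsto (fun i => (X i).HH d) l (𝓝 (X0.HH d)) :=
    tendsto_finsetSum _ fun a _ => c.hT a a d
  simp only [Arr.T0, c.hn, smul_eq_mul]
  exact (c.hT a b d).sub (((c.hP a b).mul h).const_mul _)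

theorem M7a_f2 (c : Cvg l X p X0 p0) {e : α → ι → ℝ} {e0 : ι → ℝ}
    (he : ∀ a, Tendsto (fun i => e i a) l (𝓝 (e0 a))) :
    Tendsto (fun i => (X i).f2 (e i)) l (𝓝 (X0.f2 e0)) := by
  have h1 : ∀ b d, Tendsto (fun i => (X i).Xe (e i) b d) l (𝓝 (X0.Xe e0 b d)) := fun b d =>
    tendsto_finsetSum _ fun a _ => (he a).mul (M7a_T0 c a b d)
  have h2 : Tendsto (fun i => (X i).mu (e i)) l (𝓝 (X0.mu e0)) :=
    tendsto_finsetSum _ fun b _ => tendsto_finsetSum _ fun d _ => (h1 b d).mul (h1 b d)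
  simp only [Arr.f2, c.hn]
  exact h2.sub (((M3a_e2 c).sub ((M3a_u c).const_mul _)).const_mul _)

/-- As `K_limit`. -/
theorem Cvg.K2_limit [l.NeBot] (c : Cvg l X p X0 p0) (hφ : Tendsto φ l (𝓝 φ0))
    (hg : ∀ᶠ i in l, (X i).Good) (hK : ∀ᶠ i in l, (X i).K2 (φ i)) : X0.K2 φ0 := by
  intro e0 h
  obtain ⟨e, t, u⟩ := M3a_UT c hg h
  refine le_of_tendsto_of_tendsto (M7a_f2 c t) hφ ?_
  filter_upwards [hK, u] with i hi a
  exact hi _ a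

/-- As `Ks_eventually`. -/
theorem Cvg.Ks2_eventually (c : Cvg l X p X0 p0) (hφ : Tendsto φ l (𝓝 φ0)) (hK : X0.Ks2 φ0) :
    ∀ᶠ i in l, (X i).Ks2 (φ i) := by
  by_contra hc
  rw [Filter.not_eventually] at hc
  obtain ⟨U, hU, hUl⟩ : ∃ U : Ultrafilter α,
      (∀ᶠ i in U, ¬(X i).Ks2 (φ i)) ∧ (U : Filter α) ≤ l := by
    have hne : (l ⊓ 𝓟 {i | ¬(X i).Ks2 (φ i)}).NeBot := frequently_iff_neBot.1 hc
    obtain ⟨U, hU⟩ := Ultrafilter.exists_le (l ⊓ 𝓟 {i | ¬(X i).Ks2 (φ i)})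
    exact ⟨U, le_principal_iff.1 (hU.trans inf_le_right), hU.trans inf_le_left⟩
  have hch : ∀ i, ∃ e : ι → ℝ, ¬(X i).Ks2 (φ i) → (X i).UT e ∧ φ i ≤ (X i).f2 e := fun i => by
    by_cases h : (X i).Ks2 (φ i)
    · exact ⟨0, fun h' => absurd h h'⟩
    · simp only [Arr.Ks2, not_forall, not_lt] at h
      obtain ⟨e, h1, h2⟩ := h
      exact ⟨e, fun _ => ⟨h1, h2⟩⟩
  choose e hs using hch
  have c' := M3a_mono c hUl
  have u : ∀ᶠ i in U, (X i).UT (e i) := hU.mono fun i hi => (hs i hi).1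
  obtain ⟨e0, t⟩ := M3a_lim U (u.mono fun i hi => hi.2)
  have h := hK e0 (M3a_UT_lim c' t u)
  exact absurd (le_of_tendsto_of_tendsto (hφ.mono_left hUl) (M7a_f2 c' t)
    (hU.mono fun i hi => (hs i hi).2)) (not_le.2 h)

end Pool.Agent.Lib.MP_de485e_gt.Hi
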