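import Pool.Agent.Lib.MP_de485e_gt.Hi.R5
import Pool.Agent.Lib.MP_de485e_gt.Hi.T1a
import Pool.Agent.Lib.MP_de485e_gt.Big.BDef

/-! The heat operator on the second quantity along the projection of a constant vector. -/

namespace Pool.Agent.Lib.MP_de485e_gt.Hi.QA

section ring

variable {ι : Type} [Fintype ι] {R : Type} [CommRing R] [Algebra ℝ R] (S : QA ι R)

theorem R9_T (a b c : ι) :
    S.T a b c = S.arr.T0 a b c + (S.n : ℝ)⁻¹ • (S.P a b * S.arr.HH c) :=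
  (sub_add_cancel _ _).symm

theorem R9_D_T0 (k a b c : ι) : S.D k (S.arr.T0 a b c) =
    (S.B k a b c - (S.n : ℝ)⁻¹ • (S.P a b * S.arr.Bt k c)) + ∑ e, S.T k e a * S.arr.T0 e b c +
      ∑ e, S.T k e b * S.arr.T0 a e c - ∑ e, S.T k c e * S.arr.T0 a b e := by
  have e0 : ∀ a b c, S.arr.T0 a b c = S.T a b c - (S.n : ℝ)⁻¹ • (S.P a b * S.arr.HH c) :=
    fun _ _ _ => rfl
  have e1 : ∑ e, S.T k e a * S.P e b = S.T k b a :=
    (Finset.sum_congr rfl fun e _ => by rw [mul_comm, S.P_symm]; rfl).trans (S.T_tan' k a b)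
  have e2 : ∑ e, S.T k e b * S.P a e = S.T k a b :=
    (Finset.sum_congr rfl fun e _ => by rw [mul_comm]; rfl).trans (S.T_tan' k b a)
  simp only [e0, map_sub, Derivation.map_smul, Derivation.leibniz, smul_eq_mul, S.D_T, S.D_P, S.D_HH,
    mul_sub, Finset.sum_sub_distrib, mul_smul_comm, ← Finset.smul_sum, ← mul_assoc,
    ← Finset.sum_mul, e1, e2]
  have e3 : ∑ e, S.T k c e * S.P a b * S.arr.HH e = S.P a b * ∑ e, S.T k c e * S.arr.HH e := by
    rw [Finset.mul_sum]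
    exact Finset.sum_congr rfl fun e _ => by ring
  rw [e3]
  simp only [Algebra.smul_def]
  ring

/-- The part of `L T0` with the blocks of `T`. -/
noncomputable def R9_Z0 (a b c : ι) : R :=
  S.LT0 a b c - (S.n : ℝ)⁻¹ • (2 * (S.arr.M a b * S.arr.HH c) +
    S.P a b * (-(S.n * S.arr.HH c) + 2 * ∑ g, S.arr.G c g * S.arr.HH g))

/-- The other blocks. -/
noncomputable def R9_Z1 (a b c : ι) : R :=
  S.LT1 a b c + (S.n : ℝ)⁻¹ • (2 * (S.arr.G a b * S.arr.HH c) -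
    2 * (S.P a b * ∑ k, ∑ e, S.T k c e * S.arr.Bt k e) +
    2 * ∑ k, (S.T k a b + S.T k b a) * (S.arr.Bt k c - ∑ e, S.T k c e * S.arr.HH e))

theorem R9_L_T0 (a b c : ι) : S.L (S.arr.T0 a b c) = S.R9_Z0 a b c + S.R9_Z1 a b c := by
  have e0 : S.arr.T0 a b c = S.T a b c - (S.n : ℝ)⁻¹ • (S.P a b * S.arr.HH c) := rfl
  rw [R9_Z0, R9_Z1, e0, S.L_sub, S.L_smul, S.L_mul, S.L_T, S.L_P, S.L_HH]
  simp only [grad, S.D_P, S.D_HH, Algebra.smul_def]
  ring

omit [Algebra ℝ R] in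
private theorem sw0 (f : ι → R) (A : ι → ι → R) :
    ∑ a, f a * ∑ c, A a c = ∑ c, ∑ a, f a * A a c := by
  simp only [Finset.mul_sum]
  exact Finset.sum_comm

omit [Algebra ℝ R] in
private theorem sw (f : ι → R) (A : ι → ι → R) (g : ι → R) :
    ∑ a, f a * ∑ c, A a c * g c = ∑ c, (∑ a, f a * A a c) * g c := by
  simp only [Finset.mul_sum, Finset.sum_mul]
  rw [Finset.sum_comm]
  exact Finset.sum_congr rfl fun _ _ => Finset.sum_congr rfl fun _ _ => by ring

omit [Algebra ℝ R] in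
private theorem sw' (f : ι → R) (A : ι → ι → R) (g : ι → R) :
    ∑ a, f a * ∑ c, g c * A a c = ∑ c, g c * ∑ a, f a * A a c := by
  simp only [Finset.mul_sum]
  rw [Finset.sum_comm]
  exact Finset.sum_congr rfl fun _ _ => Finset.sum_congr rfl fun _ _ => by ring

theorem R9_gG (V : ι → ι → R) : ∑ k, ∑ b, ∑ c, (∑ e, S.T k c e * V b e) ^ 2 =
    ∑ c, ∑ f, S.arr.G c f * ∑ b, V b c * V b f := by
  have := R2_sq0 (fun (x : ι × ι) e => S.T x.1 x.2 e) V
  simp only [Fintype.sum_prod_type] at this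
  rw [show (∑ c, ∑ f, S.arr.G c f * ∑ b, V b c * V b f) = _ from this.symm]
  simp only [sq]
  exact Finset.sum_congr rfl fun _ _ => Finset.sum_comm

theorem R9_gM (V : ι → ι → R) : ∑ k, ∑ b, ∑ c, (∑ e, S.T k e b * V e c) ^ 2 =
    ∑ b, ∑ d, S.arr.M b d * ∑ c, V b c * V d c := by
  have := R2_sq0 (fun (x : ι × ι) e => S.T x.1 e x.2) fun c e => V e c
  simp only [Fintype.sum_prod_type, S.R5_M] at this
  simp only [sq]
  exact this

section pair

variable {U : ι → R} (hU : S.arr.Tan U) {V : ι → ι → R}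
  (hV : ∀ b c, V b c = ∑ a, U a * S.arr.T0 a b c)
include hV

theorem R9_Vtan (c : ι) : S.arr.Tan fun b => V b c := by
  simp only [hV]
  exact S.R5_tan_sum U (fun b a => S.arr.T0 a b c) fun a => by
    simpa only [S.good.T0_symm a] using S.good.T0_tan a c

theorem R9_Vnrm (b : ι) : S.arr.Nrm (V b) := by
  rw [show V b = fun c => ∑ a, U a * S.arr.T0 a b c from funext (hV b)]
  exact Arr.A1_nrm_sum fun a => Arr.A1_nrm_mul (S.good.T0_nrm a b) _

include hU

theorem R9_LZ1 : ∑ b, ∑ c, V b c * ∑ a, U a * S.R9_Z1 a b c = 0 := by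
  have t1 := S.R9_Vtan hV
  have t2 := S.R9_Vnrm hV
  have z0 := S.sum_LT1 (τ := fun a b c => U a * V b c) (fun b c => Arr.A1_tan_mul hU _)
    (fun a c => by simpa only [mul_comm (U a)] using Arr.A1_tan_mul (t1 c) (U a))
    fun a b => Arr.A1_nrm_mul (t2 b) _
  have z1 : ∀ b, ∑ a, U a * S.arr.G a b = 0 := fun b => by
    simp only [Arr.Good.G_symm _ b]
    exact S.good.tn hU (S.good.G_nrm b)
  have z2 : ∀ b, ∑ c, V b c * ∑ k, ∑ e, S.T k c e * S.arr.Bt k e = 0 := fun b => by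
    simp only [mul_comm (V b _)]
    exact S.good.tn (S.R5_tan2 _) (t2 b)
  have z3 : ∀ k b, ∑ a, U a * S.T k b a = 0 := fun k b => S.good.tn hU (S.T_nrm k b)
  have z4 : ∀ k a c, ∑ b, V b c * S.T k a b = 0 := fun k a c => S.good.tn (t1 c) (S.T_nrm k a)
  have e1 : ∀ b c, V b c * ∑ a, U a * S.R9_Z1 a b c = ∑ a, U a * V b c * S.LT1 a b c +
      (S.n : ℝ)⁻¹ • (2 * ((∑ a, U a * S.arr.G a b) * (V b c * S.arr.HH c)) -
        2 * ((∑ a, U a * S.P a b) * (V b c * ∑ k, ∑ e, S.T k c e * S.arr.Bt k e)) +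
        2 * ∑ k, (∑ a, U a * (V b c * S.T k a b) + V b c * ∑ a, U a * S.T k b a) *
          (S.arr.Bt k c - ∑ e, S.T k c e * S.arr.HH e)) := by
    intro b c
    generalize hY : (fun k => S.arr.Bt k c - ∑ e, S.T k c e * S.arr.HH e) = Y
    have hY' : ∀ k, S.arr.Bt k c - ∑ e, S.T k c e * S.arr.HH e = Y k := fun k => congrFun hY k
    simp only [R9_Z1, hY']
    generalize ∑ k, ∑ e, S.T k c e * S.arr.Bt k e = W
    have e2 : ∑ k, (∑ a, U a * (V b c * S.T k a b) + V b c * ∑ a, U a * S.T k b a) * Y k =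
        ∑ a, U a * V b c * ∑ k, (S.T k a b + S.T k b a) * Y k := by
      simp only [Finset.mul_sum, Finset.sum_mul, ← Finset.sum_add_distrib]
      rw [Finset.sum_comm]
      exact Finset.sum_congr rfl fun a _ => Finset.sum_congr rfl fun k _ => by ring
    rw [e2]
    simp only [Algebra.smul_def, Finset.sum_mul]
    generalize algebraMap ℝ R (S.n : ℝ)⁻¹ = w
    generalize hZ : (fun a => ∑ k, (S.T k a b + S.T k b a) * Y k) = Z
    have hZ' : ∀ a, ∑ k, (S.T k a b + S.T k b a) * Y k = Z a := fun a => congrFun hZ a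
    simp only [hZ', Finset.mul_sum, mul_add, mul_sub, ← Finset.sum_add_distrib,
      ← Finset.sum_sub_distrib]
    exact Finset.sum_congr rfl fun a _ => by ring
  have z5 : ∑ b, ∑ c, ∑ k, (∑ a, U a * (V b c * S.T k a b)) *
      (S.arr.Bt k c - ∑ e, S.T k c e * S.arr.HH e) = 0 := by
    rw [Finset.sum_comm]
    refine Finset.sum_eq_zero fun c _ => ?_
    rw [Finset.sum_comm]
    refine Finset.sum_eq_zero fun k _ => ?_
    rw [← Finset.sum_mul, Finset.sum_comm]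
    simp only [← Finset.mul_sum, z4, mul_zero, Finset.sum_const_zero, zero_mul]
  have z6 : ∑ b, ∑ c, ∑ a, U a * V b c * S.LT1 a b c = 0 := by
    rw [← z0]
    exact Arr.Good.A2_s3 _
  simp only [e1, z1, z3, zero_mul, mul_zero, add_zero, zero_sub, Finset.sum_add_distrib,
    ← Finset.smul_sum, Finset.sum_neg_distrib, ← Finset.mul_sum, z2, z5, z6,
    Finset.sum_const_zero, neg_zero, smul_zero]

/-- The three blocks of the gradient are orthogonal. -/
theorem R9_grad (k : ι) : ∑ b, ∑ c, (∑ a, U a * S.D k (S.arr.T0 a b c)) ^ 2 =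
    ∑ b, ∑ c, (∑ a, U a * (S.B k a b c - (S.n : ℝ)⁻¹ • (S.P a b * S.arr.Bt k c))) ^ 2 +
      ∑ b, ∑ c, (∑ e, S.T k e b * V e c) ^ 2 + ∑ b, ∑ c, (∑ e, S.T k c e * V b e) ^ 2 := by
  have t1 := S.R9_Vtan hV
  have z3 : ∀ e, ∑ a, U a * S.T k e a = 0 := fun e => S.good.tn hU (S.T_nrm k e)
  generalize hX : (fun b c => ∑ a, U a * (S.B k a b c - (S.n : ℝ)⁻¹ • (S.P a b * S.arr.Bt k c))) = X
  have hX' : ∀ b c, ∑ a, U a * (S.B k a b c - (S.n : ℝ)⁻¹ • (S.P a b * S.arr.Bt k c)) = X b c :=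
    fun b c => congrFun (congrFun hX b) c
  have x1 : ∀ c, S.arr.Tan fun b => X b c := fun c => by
    simp only [← hX']
    refine S.R5_tan_sum U (fun b a => S.B k a b c - (S.n : ℝ)⁻¹ • (S.P a b * S.arr.Bt k c))
      fun a => Arr.A1_tan_sub (S.good.Btan3 k a c) ?_
    simp only [← mul_smul_comm, S.P_symm a]
    exact Arr.A1_tan_mul (S.good.Ptan a) _
  have x2 : ∀ b, S.arr.Nrm (X b) := fun b => by
    rw [← hX]
    refine Arr.A1_nrm_sum fun a => Arr.A1_nrm_mul (Arr.A1_nrm_sub (S.B_nrm k a b) ?_) _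
    simp only [← smul_mul_assoc]
    exact Arr.A1_nrm_mul (S.good.Bt_nrm k) _
  have y1 : ∀ c, S.arr.Nrm fun b => ∑ e, S.T k e b * V e c := fun c =>
    QA.R2_nrm_l (fun e => S.T_nrm k e) _
  have w1 : ∀ c, S.arr.Tan fun b => ∑ e, S.T k c e * V b e := fun c =>
    S.R5_tan_sum _ (fun b e => V b e) t1
  have w2 : ∀ b, S.arr.Tan fun c => ∑ e, S.T k c e * V b e := fun b =>
    QA.R2_tan_l (f := fun e c => S.T k c e) (fun e => S.T_tan' k e) _
  have e1 : ∀ b c, ∑ a, U a * S.D k (S.arr.T0 a b c) =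
      X b c + ∑ e, S.T k e b * V e c - ∑ e, S.T k c e * V b e := by
    intro b c
    have f1 : ∑ a, U a * ∑ e, S.T k e a * S.arr.T0 e b c = 0 := by
      simp only [Finset.mul_sum, ← mul_assoc]
      rw [Finset.sum_comm]
      simp only [← Finset.sum_mul, z3, zero_mul, Finset.sum_const_zero]
    have f2 : ∑ a, U a * ∑ e, S.T k e b * S.arr.T0 a e c = ∑ e, S.T k e b * V e c := by
      simp only [hV, Finset.mul_sum]
      rw [Finset.sum_comm]
      exact Finset.sum_congr rfl fun _ _ => Finset.sum_congr rfl fun _ _ => by ring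
    have f3 : ∑ a, U a * ∑ e, S.T k c e * S.arr.T0 a b e = ∑ e, S.T k c e * V b e := by
      simp only [hV, Finset.mul_sum]
      rw [Finset.sum_comm]
      exact Finset.sum_congr rfl fun _ _ => Finset.sum_congr rfl fun _ _ => by ring
    rw [← hX', ← f2, ← f3, ← add_zero (∑ a, U a * (S.B k a b c - _)), ← f1]
    simp only [S.R9_D_T0, ← Finset.sum_add_distrib, ← Finset.sum_sub_distrib]
    exact Finset.sum_congr rfl fun _ _ => by ring
  simp only [e1, hX']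
  generalize hY : (fun b c => ∑ e, S.T k e b * V e c) = Y
  generalize hW : (fun b c => ∑ e, S.T k c e * V b e) = W
  have hY' : ∀ b c, ∑ e, S.T k e b * V e c = Y b c := fun b c => congrFun (congrFun hY b) c
  have hW' : ∀ b c, ∑ e, S.T k c e * V b e = W b c := fun b c => congrFun (congrFun hW b) c
  simp only [hY', hW'] at y1 w1 w2 ⊢
  have o1 : ∑ b, ∑ c, X b c * Y b c = 0 := by
    rw [Finset.sum_comm]
    exact Finset.sum_eq_zero fun c _ => S.good.tn (x1 c) (y1 c)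
  have o2 : ∑ b, ∑ c, W b c * X b c = 0 :=
    Finset.sum_eq_zero fun b _ => S.good.tn (w2 b) (x2 b)
  have o3 : ∑ b, ∑ c, W b c * Y b c = 0 := by
    rw [Finset.sum_comm]
    exact Finset.sum_eq_zero fun c _ => S.good.tn (w1 c) (y1 c)
  have e2 : ∀ b c, (X b c + Y b c - W b c) ^ 2 = X b c ^ 2 + Y b c ^ 2 + W b c ^ 2 +
      2 * (X b c * Y b c) - 2 * (W b c * X b c) - 2 * (W b c * Y b c) := fun b c => by ring
  simp only [e2, Finset.sum_add_distrib, Finset.sum_sub_distrib, ← Finset.mul_sum, o1, o2, o3]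
  ring

omit hV in
theorem R9_LZ0 {Tf : ι → ι → R} (hT : ∀ b c, Tf b c = ∑ a, U a * S.T a b c) {Me : ι → R}
    (hM : ∀ d, Me d = ∑ a, U a * S.arr.M a d) :
    ∑ b, ∑ c, V b c * ∑ a, U a * S.R9_Z0 a b c =
    -(S.n * ∑ b, ∑ c, V b c * Tf b c) + 2 * ∑ c, ∑ f, S.arr.G c f * ∑ b, V b c * Tf b f +
      2 * ∑ d, Me d * ∑ b, ∑ c, V b c * S.T d b c +
      2 * ∑ b, ∑ d, S.arr.M b d * ∑ c, V b c * Tf d c -
      2 * ∑ b, ∑ d, ∑ f, (∑ g, Tf d g * S.T b f g) * ∑ c, V b c * S.T d f c -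
      (S.n : ℝ)⁻¹ • (2 * ∑ b, Me b * ∑ c, V b c * S.arr.HH c +
        ∑ c, (∑ b, U b * V b c) * (-(S.n * S.arr.HH c) + 2 * ∑ g, S.arr.G c g * S.arr.HH g)) := by
  have hP : ∀ b, ∑ a, U a * S.P a b = U b := fun b =>
    (Finset.sum_congr rfl fun a _ => by rw [mul_comm, S.P_symm]; rfl).trans (hU b)
  generalize hY : (fun c => -(S.n * S.arr.HH c) + 2 * ∑ g, S.arr.G c g * S.arr.HH g) = Y
  have hY' : ∀ c, -(S.n * S.arr.HH c) + 2 * ∑ g, S.arr.G c g * S.arr.HH g = Y c :=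
    fun c => congrFun hY c
  have f5 : ∀ b c, ∑ a, U a * ∑ d, ∑ f, (∑ e, S.T a d e * S.T b f e) * S.T d f c =
      ∑ d, ∑ f, (∑ g, Tf d g * S.T b f g) * S.T d f c := fun b c => by
    rw [sw0]
    refine Finset.sum_congr rfl fun d _ => ?_
    rw [sw]
    refine Finset.sum_congr rfl fun f _ => ?_
    rw [sw]
    simp only [hT]
  have e1 : ∀ b c, ∑ a, U a * S.R9_Z0 a b c = -(S.n * Tf b c) + 2 * ∑ e, S.arr.G c e * Tf b e +
      2 * ∑ d, Me d * S.T d b c + 2 * ∑ d, S.arr.M b d * Tf d c -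
      2 * ∑ d, ∑ f, (∑ g, Tf d g * S.T b f g) * S.T d f c -
      (S.n : ℝ)⁻¹ • (2 * (Me b * S.arr.HH c) + U b * Y c) := fun b c => by
    have f2 : ∑ a, U a * ∑ e, S.arr.G c e * S.T a b e = ∑ e, S.arr.G c e * Tf b e := by
      rw [sw']
      simp only [hT]
    have f3 : ∑ a, U a * ∑ d, S.arr.M a d * S.T d b c = ∑ d, Me d * S.T d b c := by
      rw [sw]
      simp only [hM]
    have f4 : ∑ a, U a * ∑ d, S.arr.M b d * S.T a d c = ∑ d, S.arr.M b d * Tf d c := by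
      rw [sw']
      simp only [hT]
    have f6 : ∑ a, U a * (S.arr.M a b * S.arr.HH c) = Me b * S.arr.HH c := by
      simp only [hM, Finset.sum_mul, mul_assoc]
    have f7 : ∑ a, U a * (S.P a b * Y c) = U b * Y c := by
      simp only [← mul_assoc, ← Finset.sum_mul, hP]
    simp only [R9_Z0, LT0, hY', mul_add, mul_sub, Finset.sum_add_distrib,
      Finset.sum_sub_distrib, mul_neg, Finset.sum_neg_distrib, mul_smul_comm, ← Finset.smul_sum,
      mul_left_comm (U _) (S.n : R), mul_left_comm (U _) (2 : R), ← Finset.mul_sum,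
      f2, f3, f4, f5, f6, f7, ← hT]
  have g2 : ∑ b, ∑ c, V b c * ∑ e, S.arr.G c e * Tf b e =
      ∑ c, ∑ f, S.arr.G c f * ∑ b, V b c * Tf b f := by
    rw [Finset.sum_comm]
    exact Finset.sum_congr rfl fun c _ => sw' _ _ _
  have g3 : ∑ b, ∑ c, V b c * ∑ d, Me d * S.T d b c = ∑ d, Me d * ∑ b, ∑ c, V b c * S.T d b c := by
    rw [Finset.sum_congr rfl fun b _ => sw' (V b) (fun c d => S.T d b c) Me, Finset.sum_comm]
    simp only [← Finset.mul_sum]
  have g4 : ∑ b, ∑ c, V b c * ∑ d, S.arr.M b d * Tf d c =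
      ∑ b, ∑ d, S.arr.M b d * ∑ c, V b c * Tf d c :=
    Finset.sum_congr rfl fun b _ => sw' _ (fun c d => Tf d c) _
  have g5 : ∑ b, ∑ c, V b c * ∑ d, ∑ f, (∑ g, Tf d g * S.T b f g) * S.T d f c =
      ∑ b, ∑ d, ∑ f, (∑ g, Tf d g * S.T b f g) * ∑ c, V b c * S.T d f c := by
    refine Finset.sum_congr rfl fun b _ => ?_
    rw [sw0]
    exact Finset.sum_congr rfl fun d _ => sw' _ (fun c f => S.T d f c) _
  have g6 : ∑ b, ∑ c, V b c * (Me b * S.arr.HH c) = ∑ b, Me b * ∑ c, V b c * S.arr.HH c := by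
    simp only [mul_left_comm (V _ _), ← Finset.mul_sum]
  have g7 : ∑ b, ∑ c, V b c * (U b * Y c) = ∑ c, (∑ b, U b * V b c) * Y c := by
    rw [Finset.sum_comm]
    simp only [Finset.sum_mul, mul_left_comm (V _ _), mul_assoc]
  simp only [e1, hY', mul_add, mul_sub, Finset.sum_add_distrib, Finset.sum_sub_distrib, mul_neg,
    Finset.sum_neg_distrib, mul_smul_comm, ← Finset.smul_sum, mul_left_comm (V _ _) (S.n : R),
    mul_left_comm (V _ _) (2 : R), ← Finset.mul_sum, g2, g3, g4, g5, g6, g7]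

end pair

end ring

variable {ι : Type} [Fintype ι] {R : Type} [CommRing R] [Algebra ℝ R] (S : QA ι R)
  (ev : R →ₐ[ℝ] ℝ) {e : ι → ℝ} (he : (S.pt ev).UT e)

theorem R9_Xe (F0 e : ι → ℝ) (b c : ι) :
    S.arr.Xe (S.arr.U F0 e 0) b c = ∑ a, e a • S.arr.T0 a b c := by
  simp only [Arr.Xe, Arr.U, Pi.zero_apply, zero_smul, Finset.sum_const_zero, add_zero,
    Finset.sum_mul]
  rw [Finset.sum_comm]
  refine Finset.sum_congr rfl fun d _ => ?_
  have e1 : ∑ a, S.arr.P d a * S.arr.T0 a b c = S.arr.T0 d b c := S.good.T0_tan b c d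
  rw [← e1, Algebra.smul_def, Finset.mul_sum]
  exact Finset.sum_congr rfl fun a _ => by rw [S.good.Psymm a d]; ring

include he

theorem R9_U (a : ι) : ev (S.arr.U (S.pt ev).F e 0 a) = e a :=
  S.ev_U ev he (fun _ a => by simp) (fun _ a => by simp) a

theorem R9_evX (b c : ι) :
    ev (S.arr.Xe (S.arr.U (S.pt ev).F e 0) b c) = (S.pt ev).Xe e b c := by
  simp only [Arr.Xe, map_sum, map_mul, S.R9_U ev he]
  simp only [pt, Arr.map_T0]

theorem ev_mu : ev (S.arr.mu (S.arr.U (S.pt ev).F e 0)) = (S.pt ev).mu e := by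
  simp only [Arr.mu, map_sum, map_mul, S.R9_evX ev he]

/-- With `X b c = ∑ a, U a * T0 a b c`: `L ∑ X X = 2 ∑ X L X - 2 ∑ D X D X`. At the point
`D k X b c = e a B0 k a b c + T k f b X f c - T k c f X b f` (three orthogonal parts,
`B0 = B - P Bt / n`), so `∑ D X D X ≥ M (X, X) + G (X, X)`. In `∑ X L X` the terms with `L U` and
`D U` cancel; `L T0` from `L_T` (`sum_LT1` with `τ a b c = U a * X b c`), `L_P`, `L_HH`, `D_P`. -/
theorem ev_Lmu : ev (S.L (S.arr.mu (S.arr.U (S.pt ev).F e 0))) ≤ 2 * (S.pt ev).Rm0 e := by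
  have hu := S.R9_U ev he
  have hx := S.R9_evX ev he
  have hs := S.R9_Xe (S.pt ev).F e
  have hU := S.U_tan (S.pt ev).F e 0
  generalize S.arr.U (S.pt ev).F e 0 = U at *
  have hV : ∀ b c, S.arr.Xe U b c = ∑ a, U a * S.arr.T0 a b c := fun _ _ => rfl
  have eL : ∀ b c, ev (S.L (S.arr.Xe U b c)) =
      ev (∑ a, U a * S.R9_Z0 a b c) + ev (∑ a, U a * S.R9_Z1 a b c) := fun b c => by
    simp only [hs, S.L_sum, S.L_smul, S.R9_L_T0, map_sum, map_mul, map_smul, map_add, hu,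
      smul_eq_mul, mul_add, Finset.sum_add_distrib]
  have eD : ∀ k b c, ev (S.D k (S.arr.Xe U b c)) = ev (∑ a, U a * S.D k (S.arr.T0 a b c)) :=
    fun k b c => by
      simp only [hs, Derivation.map_smul, map_sum, map_mul, map_smul, hu, smul_eq_mul]
  have z1 := congrArg ev (S.R9_LZ1 hU hV)
  have z0 := congrArg ev (S.R9_LZ0 hU (V := S.arr.Xe U) (fun _ _ => rfl) fun _ => rfl)
  have zg := congrArg ev (S.R9_gG (S.arr.Xe U))
  have zm := congrArg ev (S.R9_gM (S.arr.Xe U))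
  have zd := congrArg ev (Finset.sum_congr rfl fun k (_ : k ∈ Finset.univ) => S.R9_grad hU hV k)
  simp only [Finset.sum_add_distrib] at zd
  rw [map_add, map_add, zg, zm] at zd
  have pos : 0 ≤ ev (∑ k, ∑ b, ∑ c,
      (∑ a, U a * (S.B k a b c - (S.n : ℝ)⁻¹ • (S.P a b * S.arr.Bt k c))) ^ 2) := by
    simp only [map_sum, map_pow]
    positivity
  have e1 : ev (S.L (S.arr.mu U)) =
      2 * (ev (∑ b, ∑ c, S.arr.Xe U b c * ∑ a, U a * S.R9_Z0 a b c) +
        ev (∑ b, ∑ c, S.arr.Xe U b c * ∑ a, U a * S.R9_Z1 a b c)) -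
      2 * ev (∑ k, ∑ b, ∑ c, (∑ a, U a * S.D k (S.arr.T0 a b c)) ^ 2) := by
    rw [← Arr.Good.A2_s3, ← map_add, ← Finset.sum_add_distrib, Arr.mu, S.L_sum, map_sum, map_sum,
      map_sum, Finset.mul_sum, Finset.mul_sum, ← Finset.sum_sub_distrib]
    refine Finset.sum_congr rfl fun b _ => ?_
    rw [← Finset.sum_add_distrib, S.L_sum, map_sum, map_sum,
      map_sum, Finset.mul_sum, Finset.mul_sum, ← Finset.sum_sub_distrib]
    refine Finset.sum_congr rfl fun c _ => ?_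
    have e2 : ev (∑ k, S.D k (S.arr.Xe U b c) * S.D k (S.arr.Xe U b c)) =
        ev (∑ k, (∑ a, U a * S.D k (S.arr.T0 a b c)) ^ 2) := by
      rw [map_sum, map_sum]
      exact Finset.sum_congr rfl fun k _ => by rw [map_mul, eD, map_pow, sq]
    rw [S.R5_L_sq, map_sub, map_mul, map_mul, map_mul, map_add, map_mul, map_mul, eL, e2,
      map_ofNat, mul_add]
  have hT : ∀ a b c, ev (S.T a b c) = (S.pt ev).T a b c := fun _ _ _ => rfl
  have hM : ∀ a b, ev (S.arr.M a b) = (S.pt ev).M a b := fun a b => (S.arr.map_M ev a b).symm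
  have hG : ∀ a b, ev (S.arr.G a b) = (S.pt ev).G a b := fun a b => (S.arr.map_G ev a b).symm
  have hH : ∀ a, ev (S.arr.HH a) = (S.pt ev).HH a := fun a => (S.arr.map_HH ev a).symm
  have hn : (S.pt ev).n = S.n := rfl
  rw [e1, z1, z0, zd]
  generalize ev (∑ k, ∑ b, ∑ c,
      (∑ a, U a * (S.B k a b c - (S.n : ℝ)⁻¹ • (S.P a b * S.arr.Bt k c))) ^ 2) = y at pos ⊢
  simp only [Arr.Rm0, Arr.Tf, Arr.Me, map_sum, map_mul, map_add, map_sub, map_neg, map_smul,
    map_natCast, map_ofNat, map_zero, hu, hx, hT, hM, hG, hH, hn, smul_eq_mul]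
  linarith

end Pool.Agent.Lib.MP_de485e_gt.Hi.QA
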