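import Pool.Agent.Lib.MP_de485e_gt.Hi.R8
import Pool.Agent.Lib.MP_de485e_gt.Big.R9
import Pool.Agent.Lib.MP_de485e_gt.Big.A4
import Pool.Agent.Lib.MP_de485e_gt.Big.Br5

/-! The second condition cannot be touched. -/

namespace Pool.Agent.Lib.MP_de485e_gt.Hi.QA

variable {ι : Type} [Fintype ι] {R : Type} [CommRing R] [Algebra ℝ R] (S : QA ι R)
  (ev : R →ₐ[ℝ] ℝ)

/-- At any point the normalised quantity is a value of `mu` at a unit vector. -/
private theorem T5_val {U : ι → R} (hU : S.arr.Tan U) {iU : R} (h : iU * dot U U = 1) :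
    ∃ e, (S.pt ev).UT e ∧ ev (S.arr.mu U * iU) = (S.pt ev).mu e := by
  have h1 := congrArg ev h
  simp only [map_one, dot, map_sum, map_mul] at h1
  have h2 : 0 ≤ ∑ a, ev (U a) * ev (U a) := Finset.sum_nonneg fun _ _ => mul_self_nonneg _
  have h3 : 0 ≤ ev iU := by
    by_contra hc
    have := mul_nonpos_of_nonpos_of_nonneg (not_le.1 hc).le h2
    linarith
  have h4 := Real.mul_self_sqrt h3
  refine ⟨fun a => √(ev iU) * ev (U a), ⟨fun a => ?_, ?_⟩, ?_⟩
  · show ∑ b, (S.pt ev).P a b * (√(ev iU) * ev (U b)) = √(ev iU) * ev (U a)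
    rw [← hU a, map_sum, Finset.mul_sum]
    refine Finset.sum_congr rfl fun b _ => ?_
    rw [map_mul, mul_left_comm]
    rfl
  · rw [← h1, Finset.mul_sum]
    refine Finset.sum_congr rfl fun a _ => ?_
    linear_combination (ev (U a) * ev (U a)) * h4
  · have e : ∀ b c, (S.pt ev).Xe (fun a => √(ev iU) * ev (U a)) b c =
        √(ev iU) * ev (S.arr.Xe U b c) := by
      intro b c
      simp only [Arr.Xe, map_sum, map_mul, Finset.mul_sum]
      refine Finset.sum_congr rfl fun a _ => ?_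
      have e1 : (S.pt ev).T0 a b c = ev (S.arr.T0 a b c) := S.arr.map_T0 ev a b c
      rw [e1, mul_assoc]
    simp only [Arr.mu, e, map_sum, map_mul, Finset.sum_mul]
    refine Finset.sum_congr rfl fun b _ => Finset.sum_congr rfl fun c _ => ?_
    linear_combination (-(ev (S.arr.Xe U b c) * ev (S.arr.Xe U b c))) * h4

private theorem T5_g : ev (S.arr.e2 - (kk S.n / S.n) • S.arr.u) =
    (S.pt ev).e2 - kk (S.pt ev).n / (S.pt ev).n * (S.pt ev).u := by
  rw [map_sub, map_smul, smul_eq_mul, ← Arr.map_e2, ← Arr.map_u]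
  rfl

/-- `Ψ = mu U * iU - 200 (e2 - (kk n / n) u) - φ`; `inv_U`, `ev_Lmu`, `Rm_eq0`, `K2.eig`, `Lg_ge`.
At another point `mu U * iU` is the value of `mu` at a unit vector, as in `test_val`. -/
theorem no_touch2 {e : ι → ℝ} (he : (S.pt ev).UT e) {iU φ : R}
    (hU : iU * dot (S.arr.U (S.pt ev).F e 0) (S.arr.U (S.pt ev).F e 0) = 1)
    (hφ : ∀ k, S.D k φ = 0) (k : (S.pt ev).K2 (ev φ)) (ht : (S.pt ev).f2 e = ev φ)
    (hre : 2 * (S.pt ev).Rm e - 200 * ((S.pt ev).Re - kk S.n / S.n * (S.pt ev).Ru) <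
      ev (S.dt φ)) :
    ∃ Ψ : R, ev Ψ = 0 ∧ ev (S.L Ψ) < 0 ∧
      ∀ ev' : R →ₐ[ℝ] ℝ, (S.pt ev').K2 (ev' φ) → ev' Ψ ≤ 0 := by
  have hg := S.good_pt ev
  obtain ⟨u1, u2, u3⟩ := S.inv_U ev (Γ := 0) he (fun _ _ => by simp) (fun _ _ => by simp)
    (fun _ => by simp) hU
  have m1 := S.ev_mu ev he
  have m2 := S.ev_Lmu ev he
  have m3 := Arr.Rm_eq0 hg he (Arr.K2.eig hg k he ht)
  have v1 := fun ev' : R →ₐ[ℝ] ℝ => S.T5_val ev' (S.U_tan _ _ _) hU
  generalize S.arr.mu (S.arr.U (S.pt ev).F e 0) = A at m1 m2 v1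
  have hn : (2 : ℝ) ≤ S.n := by exact_mod_cast S.hn
  have hL := S.Lg_ge ev (k := kk S.n) (by
    have : (S.n : ℝ) - 1 ≠ 0 := by linarith
    unfold kk
    field_simp)
  have e1 : (S.pt ev).Re = ev S.arr.Re := Arr.map_Re _ _
  have e2 : (S.pt ev).Ru = ev S.arr.Ru := Arr.map_Ru _ _
  rw [e1, e2] at hre
  have g1 := fun ev' : R →ₐ[ℝ] ℝ => S.T5_g ev'
  generalize S.arr.e2 - (kk S.n / S.n) • S.arr.u = G at hL g1
  refine ⟨A * iU - (200 : ℝ) • G - φ, ?_, ?_, fun ev' k' => ?_⟩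
  · rw [map_sub, map_sub, map_mul, map_smul, smul_eq_mul, m1, u1, g1, mul_one, ← ht, Arr.f2,
      sub_self]
  · rw [S.L_sub, S.L_sub, S.L_smul, S.L_time hφ, S.L_mul]
    simp only [grad, map_sub, map_add, map_mul, map_smul, map_sum, map_ofNat, smul_eq_mul, u1, u2,
      u3, m1, mul_zero, Finset.sum_const_zero, Pi.zero_apply, ne_eq, OfNat.ofNat_ne_zero,
      not_false_eq_true, zero_pow]
    linarith
  · obtain ⟨x, hx, hx'⟩ := v1 ev'
    have k1 := k' x hx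
    rw [map_sub, map_sub, map_smul, smul_eq_mul, hx', g1]
    rw [Arr.f2] at k1
    linarith

end Pool.Agent.Lib.MP_de485e_gt.Hi.QA
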