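import Pool.Agent.Lib.MP_de485e_gt.Hi.M3
import Pool.Agent.Lib.MP_de485e_gt.Big.M7a
import Pool.Agent.Lib.MP_de485e_gt.Big.T5

/-! The second condition is preserved. -/

open Set Filter Topology
open scoped RealInnerProductSpace InnerProduct Manifold ContDiff

namespace Pool.Agent.Lib.MP_de485e_gt.Hi

open Conv

variable {P Q : Type} [NormedAddCommGroup P] [InnerProductSpace ℝ P] [CompleteSpace P]
  [FiniteDimensional ℝ P] [NormedAddCommGroup Q] [InnerProductSpace ℝ Q] [CompleteSpace Q]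
  [FiniteDimensional ℝ Q] {M : Type} [TopologicalSpace M] [ChartedSpace P M]
  [IsManifold 𝓘(ℝ, P) ∞ M] {F : ℝ → M → Q} {n : ℕ} {ι : Type} [Fintype ι] [DecidableEq ι]
  [CompactSpace M]

omit [DecidableEq ι] in
private theorem M7_dot {R R' : Type} [CommRing R] [Algebra ℝ R] [CommRing R'] [Algebra ℝ R']
    (φ : R →ₐ[ℝ] R') (f : ι → R) : φ (dot f f) = dot (fun a => φ (f a)) fun a => φ (f a) := by
  simp only [dot, map_sum, map_mul]

omit [CompactSpace M] in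
/-- The contradiction on a set where the squared norm of the test field is positive. -/
private theorem M7_core {O : Set (ℝ × M)} (h : Dom P F O) (hd : Dm P n) (hf : Flw P F O)
    (b : OrthonormalBasis ι ℝ Q) {φ φ' : ℝ → ℝ} (sm : ContDiff ℝ ∞ φ)
    (der : ∀ s, HasDerivAt φ (φ' s) s) (z : O)
    (hK : ∀ w : O, w.1.1 ≤ z.1.1 → ((qa h hd hf b).pt (ev w)).K2 (φ w.1.1))
    {e : ι → ℝ} (he : ((qa h hd hf b).pt (ev z)).UT e)
    (ht : ((qa h hd hf b).pt (ev z)).f2 e = φ z.1.1)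
    (hre : 2 * ((qa h hd hf b).pt (ev z)).Rm e - 200 * (((qa h hd hf b).pt (ev z)).Re -
      kk n / n * ((qa h hd hf b).pt (ev z)).Ru) < φ' z.1.1)
    {U : ι → Rg P O} (hU : U = (qa h hd hf b).arr.U ((qa h hd hf b).pt (ev z)).F e 0)
    (p1 : ∀ w, 0 < ev w (dot U U)) : False := by
  obtain ⟨iU, e1⟩ := Dom.exists_inv _ p1
  obtain ⟨υ, y1, y2, y3⟩ := h.exists_time sm der
  subst hU
  obtain ⟨Ψ, q0, q1, q2⟩ := (qa h hd hf b).no_touch2 (ev z) he e1 (φ := υ) (fun k => y2 _)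
    (by rw [y1]; exact hK z le_rfl) (by rw [y1]; exact ht) (by
      have h4 : ev z ((qa h hd hf b).dt υ) = _ := y3 z
      rw [h4]
      exact hre)
  have hle : ∀ w : ℝ × M, w.1 ≤ z.1.1 → fn Ψ w ≤ fn Ψ z := fun w hw => by
    rw [← ev_eq z, q0]
    by_cases hm : w ∈ O
    · rw [← ev_eq ⟨w, hm⟩]
      exact q2 _ (by rw [y1]; exact hK ⟨w, hm⟩ hw)
    · exact (dif_neg hm : ext Ψ.1 w = 0).le
  have hT := touch_local h hd hf b Ψ z (Eventually.of_forall fun y => hle _ le_rfl)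
    (eventually_nhdsWithin_of_forall fun s hs => hle _ (le_of_lt hs))
  exact absurd hT.2 (not_le.2 q1)

namespace Flow

variable {J : Set ℝ} (h : Flow P n F J) (b : OrthonormalBasis ι ℝ Q)

omit [CompactSpace M] in
private theorem M7_not {φ φ' : ℝ → ℝ} (sm : ContDiff ℝ ∞ φ) (der : ∀ s, HasDerivAt φ (φ' s) s)
    {t₁ t : ℝ} (ht : t ∈ J) (h1 : t₁ < t)
    (hK : ∀ s ∈ J, t₁ ≤ s → s ≤ t → ∀ y, (h.X b (s, y)).K2 (φ s)) (x : M) {e : ι → ℝ}
    (he : (h.X b (t, x)).UT e) (hf : (h.X b (t, x)).f2 e = φ t)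
    (hre : 2 * (h.X b (t, x)).Rm e -
      200 * ((h.X b (t, x)).Re - kk n / n * (h.X b (t, x)).Ru) < φ' t) : False := by
  let z : (J ×ˢ (univ : Set M) : Set (ℝ × M)) := ⟨(t, x), ht, mem_univ x⟩
  have hz : h.X b (t, x) = (h.S b).pt (ev z) := h.X_eq b z
  rw [hz] at he hf hre
  have h2 : 0 < fn (dot ((h.S b).arr.U ((h.S b).pt (ev z)).F e 0)
      ((h.S b).arr.U ((h.S b).pt (ev z)).F e 0)) z := by
    rw [← ev_eq, M7_dot]
    simp only [(h.S b).ev_U (ev z) (Γ := 0) he (fun _ _ => by simp) (fun _ _ => by simp)]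
    exact he.2 ▸ one_pos
  generalize e1 : (h.S b).arr.U ((h.S b).pt (ev z)).F e 0 = U at h2
  let O' : Set (ℝ × M) := {w | t₁ < w.1} ∩ {w | w ∈ J ×ˢ univ ∧ 0 < fn (dot U U) w}
  have hO' : IsOpen O' := (isOpen_lt continuous_const continuous_fst).inter
    (M3_open h.dom.isOpen _)
  have hO : O' ⊆ J ×ˢ univ := fun w hw => hw.2.1
  let z' : O' := ⟨(t, x), h1, z.2, h2⟩
  have hp : ∀ w : O', (qa (h.dom.mono hO' hO) h.dim (fun z hz => h.flw z (hO hz)) b).pt (ev w) =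
      (h.S b).pt (ev ⟨w.1, hO w.2⟩) := pt_res h.dom h.dim h.flw b hO' hO
  have ha : (qa (h.dom.mono hO' hO) h.dim (fun z hz => h.flw z (hO hz)) b).arr =
      (h.S b).arr.map (res hO) := arr_res h.dom h.dim h.flw b hO' hO
  refine M7_core (h.dom.mono hO' hO) h.dim (fun z hz => h.flw z (hO hz)) b sm der z'
    (fun w hw => ?_) (e := e) ?_ ?_ ?_ (U := fun c => res hO (U c)) ?_ fun w => ?_
  · rw [hp, ← h.X_eq]
    exact hK w.1.1 (hO w.2).1 (le_of_lt w.2.1) hw w.1.2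
  · rw [hp]
    exact he
  · rw [hp]
    exact hf
  · rw [hp]
    exact hre
  · rw [hp, ha, M3_U, ← e1]
  · rw [← M7_dot, ev_res]
    exact w.2.2.2

/-- As `pin_fam` (with `not_tch`, `M3_core` for one test field `U` with `Γ = 0`): `first_time`,
`K2_limit`, `Ks2_eventually` (any family of parameters, for `cvg` use `f`), `no_touch2`,
`exists_time`, `touch_local`. -/
theorem pin2 {p : Par n} {pp : ℝ → Par n} {Υ Υ' : ℝ → ℝ} {t₁ t₂ t : ℝ} (f : Fam p pp Υ Υ' t₁ t₂)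
    {φ φ' : ℝ → ℝ} (sm : ContDiff ℝ ∞ φ) (der : ∀ s, HasDerivAt φ (φ' s) s) (h1 : t₁ ∈ J)
    (ht : t ∈ J) (h0 : ∀ y, (h.X b (t₁, y)).Ks2 (φ t₁))
    (hre : ∀ s ∈ Ioc t₁ t, ∀ y e, (h.X b (s, y)).K2 (φ s) → (h.X b (s, y)).UT e →
      (h.X b (s, y)).f2 e = φ s → 2 * (h.X b (s, y)).Rm e -
        200 * ((h.X b (s, y)).Re - kk n / n * (h.X b (s, y)).Ru) < φ' s) :
    ∀ s ∈ Icc t₁ t, ∀ y, (h.X b (s, y)).Ks2 (φ s) := by
  have hJ : ∀ s, t₁ ≤ s → s ≤ t → s ∈ J := fun s a1 a2 => h.ord.out h1 ht ⟨a1, a2⟩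
  have hc : ∀ z : ℝ × M, Tendsto (fun w : ℝ × M => φ w.1) (𝓝 z) (𝓝 (φ z.1)) := fun z =>
    (sm.continuous.comp continuous_fst).tendsto z
  refine first_time (a := t₁) (b := t) (Gd := fun s => ∀ y, (h.X b (s, y)).Ks2 (φ s))
    h0 (fun s hs H => ?_) (fun s hs H => ?_)
  · have h3 := isCompact_univ.eventually_forall_of_forall_eventually (x₀ := s)
      (P := fun r y => (h.X b (r, y)).Ks2 (φ r))
      fun y _ => (h.cvg b f (z := (s, y)) (hJ s hs.1 hs.2.le)).Ks2_eventually (hc (s, y)) (H y)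
    exact nhdsWithin_le_nhds (h3.mono fun r hr y => hr y (mem_univ y))
  · have hs' := hJ s hs.1.le hs.2
    have h3 : ∀ y, (h.X b (s, y)).K2 (φ s) := fun y => by
      have h4 : Tendsto (fun r : ℝ => (r, y)) (𝓝[<] s) (𝓝 (s, y)) :=
        ((Continuous.prodMk_left y).tendsto s).mono_left nhdsWithin_le_nhds
      refine (M3_comp (h.cvg b f (z := (s, y)) hs') h4).K2_limit ((hc (s, y)).comp h4) ?_ ?_
      · filter_upwards [Ioo_mem_nhdsLT hs.1] with r hr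
        exact h.good b (hJ r hr.1.le (hr.2.le.trans hs.2)) y
      · filter_upwards [Ioo_mem_nhdsLT hs.1] with r hr
        exact (H r ⟨hr.1.le, hr.2⟩ y).K2
    intro y e he
    refine lt_of_le_of_ne (h3 y e he) fun h4 => ?_
    refine M7_not h b sm der hs' hs.1 (fun r _ a1 a2 y' => ?_) y he h4
      (hre s hs y e (h3 y) he h4)
    rcases a2.eq_or_lt with rfl | a3
    · exact h3 y'
    · exact (H r ⟨a1, a3⟩ y').K2

end Flow

end Pool.Agent.Lib.MP_de485e_gt.Hi
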