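import Pool.Agent.Lib.MP_de485e_gt.Hi.Par0
import Pool.Agent.Lib.MP_de485e_gt.Big.BDef

/-! Parameters with an excess. -/

namespace Pool.Agent.Lib.MP_de485e_gt.Hi.Par

variable {n : ℕ} (p : Par n)

private theorem Par3_kap : p.kap = (1 + p.Z) * (p.Y1 - p.Z / (1 + 2 * p.Z)) := by
  unfold kap Y
  ring

private theorem Par3_del : 0 ≤ p.Y1 - p.Z / (1 + 2 * p.Z) := by
  have h0 := p.hZ
  obtain ⟨t1, t2⟩ := p.θ_bounds
  have h4 : 0 < 1 + p.θ * p.Z := by positivity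
  exact sub_nonneg.2 (div_le_div_of_nonneg_left h0.le h4 (by nlinarith))

private theorem Par3_std : p.Z / (1 + 2 * p.Z) ≤ (1 - p.m / 3) / 3 := by
  have h0 := p.hZ
  have h1 := p.Z_lt
  have h2 := p.hZm
  have h3 := p.hm
  rw [div_le_iff₀ (by positivity)]
  nlinarith [mul_nonneg h3.le (show 0 ≤ 1 - p.Z by linarith)]

theorem kap_nonneg : 0 ≤ p.kap := by
  rw [Par3_kap]
  exact mul_nonneg (by linarith [p.hZ]) p.Par3_del

theorem kap_two (h : p.θ = 2) : p.kap = 0 := by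
  rw [Par3_kap]
  unfold Y1
  rw [h, sub_self, mul_zero]

theorem Y1_le : p.Y1 ≤ 1 / 3 + p.kap := by
  have h1 := p.Par3_std
  have h2 := mul_nonneg p.hZ.le p.Par3_del
  have h3 := p.hm
  rw [Par3_kap]
  linarith

theorem withK_Y (hZ : 9 / 10 ≤ p.Z) {κ : ℝ} (h0 : 0 ≤ κ) (h1 : κ ≤ 1 / 10 ^ 4) :
    (p.withK κ).Y = (1 + p.Z) * p.Z / (1 + 2 * p.Z) + κ := by
  have hZ0 := p.hZ
  have hZ1 := p.Z_lt
  have h2 : 0 < 1 + 2 * p.Z := by positivity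
  obtain ⟨S, hS⟩ : ∃ S, S = (1 + p.Z) * p.Z / (1 + 2 * p.Z) := ⟨_, rfl⟩
  have hS1 : S * (1 + 2 * p.Z) = (1 + p.Z) * p.Z := by rw [hS]; exact div_mul_cancel₀ _ h2.ne'
  have hS0 : 0 < S := by rw [hS]; positivity
  have hD : 0 < S + κ := by positivity
  have hS2 : S ≤ 8 / 5 * ((1 + p.Z) * p.Z) / 4 - 1 / 10 ^ 4 := by
    rw [hS, div_le_iff₀ h2]
    nlinarith [mul_nonneg hZ0.le (sub_nonneg.2 hZ), mul_nonneg (mul_nonneg hZ0.le hZ0.le)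
      (sub_nonneg.2 hZ)]
  have a1 : (1 + p.Z) / (S + κ) - 1 / p.Z ≤ 2 := by
    rw [div_sub_div _ _ hD.ne' hZ0.ne', div_le_iff₀ (by positivity)]
    nlinarith [mul_nonneg h0 h2.le]
  have a2 : 3 / 2 ≤ (1 + p.Z) / (S + κ) - 1 / p.Z := by
    rw [div_sub_div _ _ hD.ne' hZ0.ne', le_div_iff₀ (by positivity)]
    have h3 : S + κ ≤ 2 / 5 * ((1 + p.Z) * p.Z) := by linarith
    have h4 : (S + κ) * (1 + 3 / 2 * p.Z) ≤ 2 / 5 * ((1 + p.Z) * p.Z) * (5 / 2) :=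
      mul_le_mul h3 (by linarith) (by positivity) (by positivity)
    nlinarith
  change (1 + p.Z) * (p.Z / (1 + max (3 / 2)
    (min 2 ((1 + p.Z) / ((1 + p.Z) * p.Z / (1 + 2 * p.Z) + κ) - 1 / p.Z)) * p.Z)) = _
  rw [← hS, min_eq_right a1, max_eq_right a2]
  have e : 1 + ((1 + p.Z) / (S + κ) - 1 / p.Z) * p.Z = (1 + p.Z) * p.Z / (S + κ) := by
    field_simp
    ring
  rw [e]
  field_simp

theorem withK_kap (hZ : 9 / 10 ≤ p.Z) {κ : ℝ} (h0 : 0 ≤ κ) (h1 : κ ≤ 1 / 10 ^ 4) :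
    (p.withK κ).kap = κ := by
  unfold kap
  rw [p.withK_Y hZ h0 h1]
  change (1 + p.Z) * p.Z / (1 + 2 * p.Z) + κ - (1 + p.Z) * p.Z / (1 + 2 * p.Z) = κ
  ring

theorem Y_le_of_θ {p' : Par n} (hZ : p'.Z = p.Z) (h : p'.θ ≤ p.θ) : p.Y ≤ p'.Y := by
  have h0 := p.hZ
  have t1 := p'.θ_bounds.1
  unfold Y Y1
  rw [hZ]
  refine mul_le_mul_of_nonneg_left (div_le_div_of_nonneg_left h0.le (by positivity) ?_)
    (by linarith)
  nlinarith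

theorem y_le' (hn : 2 ≤ n) (hκ : p.kap ≤ 1 / 10 ^ 4) {r u : ℝ} (hr : 0 ≤ r) (hu : 0 ≤ u) :
    p.y (r ^ 2) u ≤ 1 / 3 + 1 / 10 ^ 4 + (1 + r / p.l) / (4 * 10 ^ 6) := by
  have h1 := p.y_le hn hr hu
  have h2 := p.Y1_le
  have hl := p.hl
  have h3 : p.mu0 * (p.l + r) = p.Z * p.m / 10 ^ 6 * (1 + r / p.l) := by
    rw [← p.mu0_l]
    field_simp
  have h4 : p.Z * p.m ≤ 1 := mul_le_one₀ p.Z_lt.le p.hm.le p.m_lt.le
  have h5 : p.Z * p.m / 10 ^ 6 * (1 + r / p.l) ≤ 1 / 10 ^ 6 * (1 + r / p.l) :=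
    mul_le_mul_of_nonneg_right (by linarith) (by positivity)
  rw [h3] at h1
  linarith

/-- The main part with an excess `(1 + Z) δ`. -/
private theorem Par3_main {Z m Y1 Y μ E w y s d en th δ : ℝ} (hZ : 0 < Z) (hZ1 : Z < 1)
    (hm : 0 < m) (hδ : 0 ≤ δ) (b1 : Z / 3 ≤ Y1) (b2 : Y1 ≤ Z) (b3 : m / 3 - 3 * δ ≤ 1 - 3 * Y1)
    (hY : Y = (1 + Z) * Y1) (hr : Y - Z + Z * Y1 = (1 + 2 * Z) * δ) (b4 : 2 * Z / 3 ≤ Y)
    (hμ : 0 ≤ μ) (hw : 0 ≤ w) (hE : E = 4 * (1 + Z) * w) (hy : y = Y1 + w) (hs : 0 ≤ s)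
    (ht : (1 + Z) * d ^ 2 = Z * s ^ 2 + (1 + Z) * y - μ * s / 2)
    (hth : th ≤ 2 * en * s - (s ^ 2 - d ^ 2)) :
    8 * Y * (th - 1 + 2 * y) - 16 * Z * (1 - y) * en * s ≤
      -(16 / 9 * (Z * m)) - 8 / 3 * (Z * s ^ 2) + 6 * (Z * E) + 2 * E * |en| * s +
        24 * (Y1 * ((1 + Z) * δ)) + 24 * ((1 + Z) * δ * (|en| * s)) := by
  have hE0 : 0 ≤ E := by rw [hE]; positivity
  have a1 : Y * th ≤ Y * (2 * en * s - (s ^ 2 - d ^ 2)) :=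
    mul_le_mul_of_nonneg_left hth (by linarith)
  have a2 : Y * d ^ 2 = Y1 * (Z * s ^ 2) + Y * y - Y1 * (μ * s) / 2 := by
    rw [hY]; linear_combination Y1 * ht
  have a3 : 0 ≤ Y1 * (μ * s) := mul_nonneg (by linarith) (mul_nonneg hμ hs)
  have a4 : Y * s ^ 2 = Y1 * s ^ 2 + Y1 * (Z * s ^ 2) := by rw [hY]; ring
  have a5 : Z / 3 * s ^ 2 ≤ Y1 * s ^ 2 := mul_le_mul_of_nonneg_right b1 (sq_nonneg _)
  have a6 : Y * (m / 3 - 3 * δ) ≤ Y * (1 - 3 * Y1) := mul_le_mul_of_nonneg_left b3 (by linarith)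
  have a6' : 2 * Z / 3 * (m / 3) ≤ Y * (m / 3) := mul_le_mul_of_nonneg_right b4 (by linarith)
  have a6'' : Y * δ = Y1 * ((1 + Z) * δ) := by rw [hY]; ring
  have a7 : Y * y = Y * Y1 + Y1 * E / 4 := by rw [hy, hE, hY]; ring
  have a8 : Y1 * E ≤ Z * E := mul_le_mul_of_nonneg_right b2 hE0
  have a9 : Y * (en * s) - Z * (1 - y) * en * s =
      Z * w * (en * s) + (1 + 2 * Z) * δ * (en * s) := by
    rw [hy]; linear_combination (en * s) * hr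
  have a0 : en * s ≤ |en| * s := mul_le_mul_of_nonneg_right (le_abs_self _) hs
  have a10 : Z * w * (en * s) ≤ Z * w * (|en| * s) :=
    mul_le_mul_of_nonneg_left a0 (by positivity)
  have a11 : 8 * (Z * w) * (|en| * s) ≤ E * (|en| * s) := by
    refine mul_le_mul_of_nonneg_right ?_ (by positivity)
    rw [hE]
    nlinarith [mul_nonneg hw (show 0 ≤ 1 - Z by linarith)]
  have a12 : (1 + 2 * Z) * δ * (en * s) ≤ (1 + 2 * Z) * δ * (|en| * s) :=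
    mul_le_mul_of_nonneg_left a0 (by positivity)
  have a13 : 2 * ((1 + 2 * Z) * δ) * (|en| * s) ≤ 3 * ((1 + Z) * δ) * (|en| * s) := by
    refine mul_le_mul_of_nonneg_right ?_ (by positivity)
    nlinarith [mul_nonneg hδ (show 0 ≤ 1 - Z by linarith)]
  linarith

/-- The extra terms. -/
private theorem Par3_extra {Z Y1 μ E w y s d en κ : ℝ} (hZ : 9 / 10 ≤ Z) (h0 : 0 ≤ κ)
    (h1 : κ ≤ 1 / 10 ^ 4) (hY : Y1 ≤ 1 / 3 + κ) (hμ : 0 ≤ μ) (hw : 0 ≤ w) (hw' : w ≤ E)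
    (hy : y = Y1 + w) (hs : 0 ≤ s)
    (ht : (1 + Z) * d ^ 2 = Z * s ^ 2 + (1 + Z) * y - μ * s / 2) (hen : |en - s| ≤ d) :
    24 * (Y1 * κ) + 24 * (κ * (|en| * s)) ≤ 10 * κ + Z * s ^ 2 / 5 + E / 20 := by
  have a1 : d ^ 2 ≤ s ^ 2 + y := by
    refine le_of_mul_le_mul_left ?_ (show 0 < 1 + Z by linarith)
    nlinarith [mul_nonneg hμ hs, sq_nonneg s]
  have a2 : |en| ≤ s + d := by
    obtain ⟨e1, e2⟩ := abs_le.1 hen
    exact abs_le.2 ⟨by linarith, by linarith⟩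
  have a3 : |en| * s ≤ 12 * s ^ 2 + y / 40 := by
    have := mul_le_mul_of_nonneg_right a2 hs
    nlinarith [sq_nonneg (d - 20 * s), sq_nonneg s]
  have a4 := mul_le_mul_of_nonneg_left a3 h0
  have a5 : κ * s ^ 2 ≤ 1 / 10 ^ 4 * s ^ 2 := mul_le_mul_of_nonneg_right h1 (sq_nonneg _)
  have a6 : 9 / 10 * s ^ 2 ≤ Z * s ^ 2 := mul_le_mul_of_nonneg_right hZ (sq_nonneg _)
  have a7 : Y1 * κ ≤ (1 / 3 + 1 / 10 ^ 4) * κ := mul_le_mul_of_nonneg_right (by linarith) h0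
  have a8 : κ * w ≤ 1 / 10 ^ 4 * w := mul_le_mul_of_nonneg_right h1 hw
  have a9 : κ * y = Y1 * κ + κ * w := by rw [hy]; ring
  nlinarith [sq_nonneg s]

/-- As `final_red`, with `Y - Z + Z Y1 = kap (1 + 2 Z) / (1 + Z)` and
`1 - 3 Y1 ≥ m / 3 - 3 kap / (1 + Z)`; the extra terms `24 Y1 kap + 24 kap |en| s` are at most
`10 kap + Z s ^ 2 / 5 + E / 20`. -/
theorem final_red3 (hn : 2 ≤ n) (hZ : 9 / 10 ≤ p.Z) (hκ : p.kap ≤ 1 / 10 ^ 4)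
    {E y s d en th c : ℝ} (hE : 0 ≤ E)
    (hy : y = p.Y1 + E / (4 * (1 + p.Z))) (hs : 0 ≤ s) (hd : 0 ≤ d)
    (ht : (1 + p.Z) * d ^ 2 = p.Z * s ^ 2 + (1 + p.Z) * y - p.mu1 * s / 2)
    (hen : |en - s| ≤ d) (hth : th ≤ 2 * en * s - (s ^ 2 - d ^ 2)) (hc0 : 0 ≤ c)
    (hc : c ≤ p.m / 10) :
    (th - 1) * (8 * p.Y + 2 * E - 2 * p.mu1 * s) + 2 * en * (2 * p.mu1 - 8 * p.Z * s) +
        2 * y * (8 * p.Y + 2 * E - 2 * p.mu1 * s - en * (2 * p.mu1 - 8 * p.Z * s)) +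
        c * (4 * p.Z * s ^ 2 + 4 * p.Z + E) / n ≤
      -(p.Z * p.m) - 2 * p.Z * s ^ 2 + 7 * p.Z * E + E / 10 + 4 * y * E +
        (2 * th * (E - p.mu1 * s) + 2 * E * |en| * s) + 2 * p.mu1 * y * (1 + y) +
        10 * p.kap := by
  have hn' : (2 : ℝ) ≤ n := by exact_mod_cast hn
  have hZ9 := hZ
  replace hZ := p.hZ
  have hZ1 := p.Z_lt
  have hm := p.hm
  have hm1 := p.m_lt
  obtain ⟨b1, b2, -⟩ := p.Y1_bounds
  have h0 := p.mu0_pos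
  have hμ : 0 ≤ p.mu1 := by unfold mu1; linarith
  have hw : 0 ≤ E / (4 * (1 + p.Z)) := by positivity
  have hw' : E / (4 * (1 + p.Z)) ≤ E := div_le_self hE (by linarith)
  have hy0 : 0 ≤ y := by linarith
  have hr : (1 + p.Z) * p.Y1 - p.Z + p.Z * p.Y1 =
      (1 + 2 * p.Z) * (p.Y1 - p.Z / (1 + 2 * p.Z)) := by
    field_simp
    ring
  have A := Par3_main hZ hZ1 hm p.Par3_del b1 b2 (by linarith [p.Par3_std]) rfl hr p.Y_bounds.1 hμ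
    hw (show E = 4 * (1 + p.Z) * (E / (4 * (1 + p.Z))) by field_simp) hy hs ht hth
  rw [← Par3_kap] at A
  have A' := Par3_extra hZ9 p.kap_nonneg hκ p.Y1_le hμ hw hw' hy hs ht hen
  have B := Par0_mu hZ hμ hy0 hs ht hen
  have hZm : p.Z * p.m ≤ p.Z := mul_le_of_le_one_right hZ.le hm1.le
  have hZm0 : 0 < p.Z * p.m := mul_pos hZ hm
  have c1 : p.mu1 ≤ p.Z * p.m / 3500 := by
    have h1 : p.mu0 * 14 ≤ p.mu0 * p.l := mul_le_mul_of_nonneg_left (p.l_ge hn) h0.le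
    rw [p.mu0_l] at h1
    unfold mu1
    linarith
  have c2 : p.mu1 * s ^ 2 ≤ p.Z / 3500 * s ^ 2 :=
    mul_le_mul_of_nonneg_right (by linarith) (sq_nonneg _)
  have c3 : p.mu1 * y ≤ p.mu1 * (1 + E) := mul_le_mul_of_nonneg_left (by linarith) hμ
  have c4 : p.mu1 * E ≤ 1 / 2 * E := mul_le_mul_of_nonneg_right (by linarith) hE
  have c5 : 0 ≤ p.Z * s ^ 2 := by positivity
  have c6 : c * (4 * p.Z * s ^ 2 + 4 * p.Z + E) / n ≤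
      p.m / 10 * (4 * p.Z * s ^ 2 + 4 * p.Z + E) / 2 :=
    div_le_div₀ (by positivity) (mul_le_mul_of_nonneg_right hc (by positivity)) (by norm_num) hn'
  have c7 : p.m * (p.Z * s ^ 2) ≤ p.Z * s ^ 2 := mul_le_of_le_one_left c5 hm1.le
  have c8 : p.m * E ≤ E := mul_le_of_le_one_left hE hm1.le
  have c9 : 0 ≤ p.Z * E := mul_nonneg hZ.le hE
  have hY : (1 + p.Z) * p.Y1 = p.Y := rfl
  rw [hY] at A
  linarith

/-- `E / g = mu0 / √g`, `mu0_l`, `Zl`. -/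
theorem extra (hn : (10 : ℝ) ^ 20 ≤ n) (hZ : 9 / 10 ≤ p.Z) {r g : ℝ} (hr : 0 ≤ r)
    (hB : (n : ℝ) / 10 ^ 4 ≤ r ^ 2) (hg : 0 < g) (hg2 : g ≤ p.l ^ 2 + r ^ 2) :
    1 / 100 ≤ p.mu0 * √g / g * (r ^ 4 / 2) := by
  have hl := p.hl
  have hl2 := p.hl2
  have h0 := p.mu0_pos
  have h1 : p.l ≤ 1000 * r := by
    refine (abs_le_of_sq_le_sq' ?_ (by positivity)).2
    rw [mul_pow]
    linarith
  have h2 : 10 ^ 11 ≤ p.l := by
    refine (abs_le_of_sq_le_sq' ?_ hl.le).2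
    linarith
  have ht : 0 < √g := Real.sqrt_pos.2 hg
  have h3 : √g ≤ 1001 * r := by
    refine Real.sqrt_le_iff.2 ⟨by positivity, ?_⟩
    nlinarith
  have h4 : 21 * 10 ^ 9 ≤ p.mu0 * p.l ^ 3 := by
    have e : p.mu0 * p.l ^ 3 = p.Z * (p.l * p.m) * p.l / 10 ^ 6 := by
      linear_combination p.l ^ 2 * p.mu0_l
    have a1 : 9 / 10 * (10 ^ 15 * (9 / 10)) ≤ p.Z * (p.l * p.m) :=
      mul_le_mul hZ (by linarith [p.Zl]) (by norm_num) p.hZ.le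
    have a2 : 9 / 10 * (10 ^ 15 * (9 / 10)) * 10 ^ 11 ≤ p.Z * (p.l * p.m) * p.l :=
      mul_le_mul a1 h2 (by norm_num) (by linarith)
    rw [e]
    linarith
  have h5 : p.mu0 * p.l ^ 3 ≤ p.mu0 * (1000 * r) ^ 3 :=
    mul_le_mul_of_nonneg_left (pow_le_pow_left₀ hl.le h1 3) h0.le
  have h6 : 21 ≤ p.mu0 * r ^ 3 := by linarith
  have h7 := mul_le_mul_of_nonneg_right h6 hr
  have e : p.mu0 * √g / g * (r ^ 4 / 2) = p.mu0 * r ^ 3 * r / (2 * √g) := by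
    have e1 : g = √g * √g := (Real.mul_self_sqrt hg.le).symm
    generalize √g = t at e1 ht
    rw [e1]
    field_simp
  rw [e, le_div_iff₀ (by positivity)]
  linarith

end Pool.Agent.Lib.MP_de485e_gt.Hi.Par
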