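import Pool.Agent.Lib.MP_de485e_gt.Hi.M3
import Pool.Agent.Lib.MP_de485e_gt.Big.Par3

/-! The families of parameters of the first phase. -/

open Set
open scoped ContDiff

namespace Pool.Agent.Lib.MP_de485e_gt.Hi

variable {n : ℕ}

/-- The parameters at the start of the first phase. -/
structure Par.Big (p : Par n) : Prop where
  hn : (10 : ℝ) ^ 20 ≤ n
  hθ : p.θ = 2
  hZ : p.Z = 1 - p.m
  hm : p.m = Real.exp (-(3 * 4802)) / (4 * 10 ^ 4)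

/-- The family with excess `κ`, frozen outside `[t₁, t₂]`. -/
noncomputable def Par.fam (p : Par n) (κ : ℝ → ℝ) (t₁ t₂ s : ℝ) : Par n :=
  (p.aft (max t₁ (min s t₂) - t₁)).withK (κ (max t₁ (min s t₂)))

/-- The growing excess. -/
noncomputable def kap1 (p : Par n) (t₁ s : ℝ) : ℝ := 4 * p.m * Real.exp (3 * (n * (s - t₁)))

/-- The excess that returns to zero. -/
noncomputable def kap3 (p : Par n) (t₁ s : ℝ) : ℝ :=
  kap1 p t₁ s * (1 - Real.exp (n * (s - t₁) - 4802))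

/-- The bound of the second condition. -/
noncomputable def phi2 (n : ℕ) (t₁ s : ℝ) : ℝ := n / 30 + 40 * n * Real.exp (-(n * (s - t₁) / 600))

namespace Par.Big

variable {p : Par n} (h : p.Big) (t₁ : ℝ)
include h

private theorem M8a_n : (0 : ℝ) < n := lt_of_lt_of_le (by norm_num) h.hn

private theorem M8a_m : p.m ≤ 1 / (4 * 10 ^ 4) := by
  rw [h.hm]
  exact div_le_div_of_nonneg_right (Real.exp_le_one_iff.2 (by norm_num)) (by norm_num)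

private theorem M8a_le {s c : ℝ} (hs : s ≤ t₁ + c / n) : n * (s - t₁) ≤ c := by
  rw [mul_comm, ← le_div_iff₀ h.M8a_n]
  linarith

private theorem M8a_t : t₁ ≤ t₁ + 4802 / n :=
  le_add_of_nonneg_right (div_nonneg (by norm_num) h.M8a_n.le)

theorem aft_Z_ge {s : ℝ} (hs : s ∈ Icc t₁ (t₁ + 4802 / n)) : 9 / 10 ≤ (p.aft (s - t₁)).Z := by
  have h0 : 0 ≤ s - t₁ := sub_nonneg.2 hs.1
  have h1 : s - t₁ ≤ 1 := by
    have h2 := h.M8a_le t₁ hs.2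
    have h3 := mul_le_mul_of_nonneg_right h.hn h0
    linarith
  have h4 := h.M8a_m
  have h5 := Real.add_one_le_exp (-(p.m / 10 * (s - t₁)))
  have h6 : p.m / 10 * (s - t₁) ≤ p.m / 10 := mul_le_of_le_one_right (by linarith [p.hm]) h1
  rw [p.aft_Z h0, h.hZ]
  calc (9 / 10 : ℝ) ≤ 99 / 100 * (99 / 100) := by norm_num
    _ ≤ _ := mul_le_mul (by linarith) (by linarith) (by norm_num) (by linarith)

/-- `Υ = (1 + Z) Z / (1 + 2 Z) + κ` with `Z = p.Z * exp (-(m / 10 * (s - t₁)))`; `M3_dY`, `M3_dZ`,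
`withK_Y`. -/
theorem exists_fam {κ κ' : ℝ → ℝ} (sm : ContDiff ℝ ∞ κ) (der : ∀ s, HasDerivAt κ (κ' s) s)
    (hκ : ∀ s ∈ Icc t₁ (t₁ + 4802 / n), 0 ≤ κ s ∧ κ s ≤ 1 / 10 ^ 4) :
    ∃ Υ Υ' : ℝ → ℝ, Fam p (p.fam κ t₁ (t₁ + 4802 / n)) Υ Υ' t₁ (t₁ + 4802 / n) ∧
      ∀ s ∈ Icc t₁ (t₁ + 4802 / n),
        κ' s - p.m / 10 * (p.fam κ t₁ (t₁ + 4802 / n) s).Z ≤ Υ' s ∧
        (p.fam κ t₁ (t₁ + 4802 / n) s).kap = κ s ∧ 9 / 10 ≤ (p.fam κ t₁ (t₁ + 4802 / n) s).Z := by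
  set t₂ := t₁ + 4802 / n with ht₂
  have hc : ∀ s, max t₁ (min s t₂) ∈ Icc t₁ t₂ := fun s =>
    ⟨le_max_left _ _, max_le (h.M8a_t t₁) (min_le_right _ _)⟩
  have he : ∀ s ∈ Icc t₁ t₂, max t₁ (min s t₂) = s := fun s hs => by
    rw [min_eq_left hs.2, max_eq_right hs.1]
  have hpos : ∀ s, 0 < p.Z * Real.exp (-(p.m / 10 * (s - t₁))) := fun s =>
    mul_pos p.hZ (Real.exp_pos _)
  have hsm : ContDiff ℝ ∞ fun s : ℝ => p.Z * Real.exp (-(p.m / 10 * (s - t₁))) := by fun_prop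
  have hU : ContDiff ℝ ∞ fun s : ℝ => (1 + p.Z * Real.exp (-(p.m / 10 * (s - t₁)))) *
      (p.Z * Real.exp (-(p.m / 10 * (s - t₁))) /
        (1 + 2 * (p.Z * Real.exp (-(p.m / 10 * (s - t₁)))))) + κ s :=
    ((contDiff_const.add hsm).mul (hsm.div (contDiff_const.add (contDiff_const.mul hsm))
      fun s => by have := hpos s; positivity)).add sm
  have hZ : ∀ s, (p.fam κ t₁ t₂ s).Z =
      p.Z * Real.exp (-(p.m / 10 * (max t₁ (min s t₂) - t₁))) := fun s =>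
    p.aft_Z (sub_nonneg.2 (hc s).1)
  have hY : ∀ s, (p.fam κ t₁ t₂ s).Y = (fun s : ℝ => (1 + p.Z * Real.exp (-(p.m / 10 * (s - t₁)))) *
      (p.Z * Real.exp (-(p.m / 10 * (s - t₁))) /
        (1 + 2 * (p.Z * Real.exp (-(p.m / 10 * (s - t₁)))))) + κ s) (max t₁ (min s t₂)) :=
    fun s => by
    rw [Par.fam, Par.withK_Y _ (h.aft_Z_ge t₁ (hc s)) (hκ _ (hc s)).1 (hκ _ (hc s)).2,
      p.aft_Z (sub_nonneg.2 (hc s).1), mul_div_assoc]
  refine ⟨_, _, ⟨fun _ => rfl, fun _ => rfl, fun s hs => by rw [hZ, he s hs],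
    fun s hs => by rw [hY, he s hs], hU,
    fun s => (M3_dY two_pos (M3_dZ p.Z (p.m / 10) t₁ s) (hpos s)).add (der s), ?_, ?_⟩,
    fun s hs => ⟨?_, ?_, ?_⟩⟩
  · rw [funext hZ]
    fun_prop
  · rw [funext hY]
    exact hU.continuous.comp (by fun_prop)
  · rw [hZ, he s hs]
    have h4 := hpos s
    generalize p.Z * Real.exp (-(p.m / 10 * (s - t₁))) = z at h4 ⊢
    have h5 : (1 + 2 * z + 2 * z ^ 2) / (1 + 2 * z) ^ 2 ≤ 1 := by
      rw [div_le_one (by positivity)]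
      nlinarith
    have h6 := mul_le_mul_of_nonneg_left h5 (mul_nonneg (by linarith [p.hm] : 0 ≤ p.m / 10) h4.le)
    linarith
  · rw [Par.fam, he s hs, Par.withK_kap _ (h.aft_Z_ge t₁ hs) (hκ s hs).1 (hκ s hs).2]
  · have := h.aft_Z_ge t₁ (hc s)
    exact this

/-- At the start `4 Y1 ≥ 4 / 3`. -/
theorem fam_start {κ : ℝ → ℝ} (h1 : 2 * p.m ≤ κ t₁) (h2 : κ t₁ ≤ 1 / 10 ^ 4) :
    4 / 3 ≤ 4 * (p.fam κ t₁ (t₁ + 4802 / n) t₁).Y1 := by
  have h0 := p.hm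
  have h3 := h.M8a_m
  have h4 := h.hZ
  rw [Par.fam, min_eq_left (h.M8a_t t₁), max_self, sub_self, Par.aft_zero]
  have h5 : (1 + p.Z) * (p.withK (κ t₁)).Y1 = _ :=
    p.withK_Y (κ := κ t₁) (by linarith) (by linarith) h2
  have h6 : (1 + p.Z) / 3 - 2 * p.m ≤ (1 + p.Z) * p.Z / (1 + 2 * p.Z) := by
    rw [le_div_iff₀ (by linarith), h4]
    nlinarith
  have h7 : (1 + p.Z) * (1 / 3) ≤ (1 + p.Z) * (p.withK (κ t₁)).Y1 := by linarith
  linarith [le_of_mul_le_mul_left h7 (by linarith)]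

theorem kap1_spec : ContDiff ℝ ∞ (kap1 p t₁) ∧
    (∀ s, HasDerivAt (kap1 p t₁) (3 * n * kap1 p t₁ s) s) ∧ 2 * p.m ≤ kap1 p t₁ t₁ ∧
    ∀ s ∈ Icc t₁ (t₁ + 4802 / n), 0 ≤ kap1 p t₁ s ∧ kap1 p t₁ s ≤ 1 / 10 ^ 4 := by
  have h0 := p.hm
  refine ⟨by unfold kap1; fun_prop, fun s => ?_, ?_, fun s hs => ⟨by unfold kap1; positivity, ?_⟩⟩
  · have h1 := (((((hasDerivAt_id s).sub_const t₁).const_mul (n : ℝ)).const_mul 3).exp).const_mul
      (4 * p.m)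
    refine h1.congr_deriv ?_
    simp only [id, kap1]
    ring
  · simp only [kap1, sub_self, mul_zero, Real.exp_zero]
    linarith
  · have h1 : Real.exp (-(3 * 4802)) * Real.exp (3 * (n * (s - t₁))) ≤ 1 := by
      rw [← Real.exp_add, Real.exp_le_one_iff]
      linarith [h.M8a_le t₁ hs.2]
    rw [kap1, h.hm]
    generalize Real.exp (-(3 * 4802)) = a at h1 ⊢
    linarith

theorem kap3_spec : ∃ κ' : ℝ → ℝ, ContDiff ℝ ∞ (kap3 p t₁) ∧
    (∀ s, HasDerivAt (kap3 p t₁) (κ' s) s) ∧ 2 * p.m ≤ kap3 p t₁ t₁ ∧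
    kap3 p t₁ (t₁ + 4802 / n) = 0 ∧
    (∀ s ∈ Icc t₁ (t₁ + 4802 / n), 0 ≤ kap3 p t₁ s ∧ kap3 p t₁ s ≤ 1 / 10 ^ 4) ∧
    (∀ s ∈ Icc t₁ (t₁ + 4800 / n), 10 * n * kap3 p t₁ s ≤ 4 * κ' s) ∧
    ∀ s ∈ Icc t₁ (t₁ + 4802 / n), n * (10 * kap3 p t₁ s - 1 / 100) ≤ 4 * κ' s := by
  obtain ⟨k1, k2, -, k4⟩ := h.kap1_spec t₁
  have h0 := p.hm
  have hn := h.M8a_n
  have e1 : ∀ s ∈ Icc t₁ (t₁ + 4802 / n), Real.exp (n * (s - t₁) - 4802) ≤ 1 := fun s hs =>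
    Real.exp_le_one_iff.2 (sub_nonpos.2 (h.M8a_le t₁ hs.2))
  refine ⟨fun s => n * (kap1 p t₁ s * (3 - 4 * Real.exp (n * (s - t₁) - 4802))),
    k1.mul (by fun_prop), fun s => ?_, ?_, ?_, fun s hs => ?_, fun s hs => ?_, fun s hs => ?_⟩
  · have h1 := (k2 s).mul (((((hasDerivAt_id s).sub_const t₁).const_mul (n : ℝ)).sub_const
      4802).exp.const_sub 1)
    refine h1.congr_deriv ?_
    simp only [id]
    ring
  · have h1 : Real.exp (-4802) ≤ 1 / 2 := by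
      rw [Real.exp_neg, one_div]
      exact inv_anti₀ two_pos (by linarith [Real.add_one_le_exp 4802])
    simp only [kap3, kap1, sub_self, mul_zero, Real.exp_zero, zero_sub]
    nlinarith
  · rw [kap3, add_sub_cancel_left, mul_div_cancel₀ _ hn.ne', sub_self, Real.exp_zero, sub_self,
      mul_zero]
  · have h1 := e1 s hs
    have h2 := Real.exp_pos (n * (s - t₁) - 4802)
    obtain ⟨h3, h4⟩ := k4 s hs
    exact ⟨mul_nonneg h3 (by linarith), (mul_le_of_le_one_right h3 (by linarith)).trans h4⟩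
  · have h1 : Real.exp (n * (s - t₁) - 4802) ≤ 1 / 3 := by
      refine (Real.exp_le_exp.2 (by linarith [h.M8a_le t₁ hs.2] : _ ≤ (-2 : ℝ))).trans ?_
      rw [Real.exp_neg, one_div]
      exact inv_anti₀ three_pos (by linarith [Real.add_one_le_exp 2])
    have h2 : 0 ≤ kap1 p t₁ s := by unfold kap1; positivity
    have h3 := mul_nonneg (mul_nonneg hn.le h2) (sub_nonneg.2 h1)
    unfold kap3
    linarith
  · have h1 := e1 s hs
    obtain ⟨h3, h4⟩ := k4 s hs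
    have h5 := mul_nonneg hn.le (mul_nonneg h3 (sub_nonneg.2 h1))
    have h6 := mul_nonneg hn.le (sub_nonneg.2 h4)
    unfold kap3
    linarith

theorem phi2_spec : ∃ φ' : ℝ → ℝ, ContDiff ℝ ∞ (phi2 n t₁) ∧
    (∀ s, HasDerivAt (phi2 n t₁) (φ' s) s) ∧ 40 * (n : ℝ) ≤ phi2 n t₁ t₁ ∧
    (∀ s, t₁ ≤ s → (n : ℝ) / 30 ≤ phi2 n t₁ s ∧ phi2 n t₁ s ≤ 41 * n ∧
      -(n * phi2 n t₁ s / 600) ≤ φ' s) ∧
    ∀ s, t₁ + 4800 / n ≤ s → phi2 n t₁ s ≤ n / 15 := by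
  have hn := h.M8a_n
  refine ⟨fun s => -(n * (40 * n * Real.exp (-(n * (s - t₁) / 600))) / 600),
    by unfold phi2; fun_prop, fun s => ?_, ?_, fun s hs => ?_, fun s hs => ?_⟩
  · have h1 := ((((((hasDerivAt_id s).sub_const t₁).const_mul (n : ℝ)).div_const
      600).neg.exp).const_mul (40 * (n : ℝ))).const_add ((n : ℝ) / 30)
    refine h1.congr_deriv ?_
    simp only [id, Pi.neg_apply]
    ring
  · simp only [phi2, sub_self, mul_zero, zero_div, neg_zero, Real.exp_zero]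
    linarith
  · have h1 : Real.exp (-(n * (s - t₁) / 600)) ≤ 1 := Real.exp_le_one_iff.2
      (neg_nonpos.2 (div_nonneg (mul_nonneg hn.le (sub_nonneg.2 hs)) (by norm_num)))
    have h2 := mul_pos hn (Real.exp_pos (-(n * (s - t₁) / 600)))
    have h3 := mul_le_of_le_one_right hn.le h1
    have h4 := mul_pos hn hn
    unfold phi2
    exact ⟨by linarith, by linarith, by linarith⟩
  · have h1 : (4800 : ℝ) ≤ n * (s - t₁) := by
      rw [mul_comm, ← div_le_iff₀ hn]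
      linarith
    have h2 : Real.exp (-(n * (s - t₁) / 600)) ≤ 1 / 1200 := by
      refine (Real.exp_le_exp.2 (by linarith : _ ≤ (-((8 : ℕ) : ℝ)))).trans ?_
      rw [Real.exp_neg, one_div, ← Real.exp_one_pow]
      refine inv_anti₀ (by norm_num) (le_trans (by norm_num)
        (pow_le_pow_left₀ (by norm_num) Real.exp_one_gt_d9.le 8))
    have h3 := mul_le_mul_of_nonneg_left h2 hn.le
    unfold phi2
    linarith

end Par.Big

theorem exists_big : ∃ n₀ : ℕ, ∀ n : ℕ, n₀ ≤ n → 2 ≤ n ∧ ∃ p : Par n, p.Big := by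
  obtain ⟨m, hm⟩ : ∃ m : ℝ, m = Real.exp (-(3 * 4802)) / (4 * 10 ^ 4) := ⟨_, rfl⟩
  have h0 : 0 < m := hm ▸ div_pos (Real.exp_pos _) (by norm_num)
  have h1 : m ≤ 1 / (4 * 10 ^ 4) :=
    hm ▸ div_le_div_of_nonneg_right (Real.exp_le_one_iff.2 (by norm_num)) (by norm_num)
  obtain ⟨n₀, h2⟩ := exists_nat_ge (max (10 ^ 20) (10 ^ 28 / m ^ 2) : ℝ)
  refine ⟨n₀, fun n hn => ?_⟩
  have h3 := h2.trans (Nat.cast_le.2 hn)
  have h4 : (10 : ℝ) ^ 20 ≤ n := (le_max_left _ _).trans h3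
  have h5 : (10 : ℝ) ^ 28 ≤ n * m ^ 2 := (div_le_iff₀ (by positivity)).1 ((le_max_right _ _).trans h3)
  have h6 : (1 - m) ^ 2 ≤ 1 := pow_le_one₀ (by linarith) (by linarith)
  exact ⟨by exact_mod_cast (by linarith : (2 : ℝ) ≤ n),
    ⟨1 - m, m, √(100 * n), by linarith, h0, by linarith, by linarith,
      Real.sqrt_pos.2 (by linarith), Real.sq_sqrt (by linarith), 2, Or.inl rfl⟩,
    h4, rfl, rfl, hm⟩

end Pool.Agent.Lib.MP_de485e_gt.Hi
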