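import Pool.Agent.Lib.MP_de485e_gt.Big.M7
import Pool.Agent.Lib.MP_de485e_gt.Big.M8a

/-! The three runs of the first phase. -/

open Set Filter Topology
open scoped RealInnerProductSpace InnerProduct Manifold ContDiff

namespace Pool.Agent.Lib.MP_de485e_gt.Hi

open Conv

variable {P Q : Type} [NormedAddCommGroup P] [InnerProductSpace ℝ P] [CompleteSpace P]
  [FiniteDimensional ℝ P] [NormedAddCommGroup Q] [InnerProductSpace ℝ Q] [CompleteSpace Q]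
  [FiniteDimensional ℝ Q] {M : Type} [TopologicalSpace M] [ChartedSpace P M]
  [IsManifold 𝓘(ℝ, P) ∞ M] {F : ℝ → M → Q} {n : ℕ} {ι : Type} [Fintype ι] [DecidableEq ι]
  [CompactSpace M]

theorem Par.aft_aft (p : Par n) {s r : ℝ} (hs : 0 ≤ s) (hr : 0 ≤ r) :
    ((p.aft s).aft r).Z = (p.aft (s + r)).Z := by
  rw [Par.aft_Z _ hr, Par.aft_Z _ hs, Par.aft_Z _ (add_nonneg hs hr), mul_assoc, ← Real.exp_add]
  show p.Z * Real.exp (-(p.m / 10 * s) + -(p.m / 10 * r)) = _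
  congr 2
  ring

omit [DecidableEq ι] in
private theorem M8_Ks {X : Arr ι ℝ} {p p' : Par n} (k : X.Ks p) (hZ : p'.Z = p.Z)
    (hm : p'.m = p.m) (hl : p'.l = p.l) (hY : p'.Y = p.Y) : X.Ks p' := fun ν e e' a1 a2 a3 => by
  have h := k ν e e' a1 a2 a3
  simpa only [Par.Phi, Par.E, Par.mu1, Par.mu0, Par.eps0, Par.g, hZ, hm, hl, hY] using h

namespace Flow

variable {J : Set ℝ} (h : Flow P n F J) (b : OrthonormalBasis ι ℝ Q) {p : Par n} (g : p.Big)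
  {t₁ : ℝ} (h1 : t₁ ∈ J) (h0 : TauLt P (F t₁) (4 / 3))
include g h1 h0

omit [CompactSpace M] in
private theorem M8_start {κ : ℝ → ℝ} (a1 : 2 * p.m ≤ κ t₁) (a2 : κ t₁ ≤ 1 / 10 ^ 4) (y : M) :
    (h.X b (t₁, y)).Ks (p.fam κ t₁ (t₁ + 4802 / n) t₁) :=
  h.start_Ks b _ h1 (fun x u v huv => (h0 x u v huv).trans_le (g.fam_start t₁ a1 a2)) y

theorem run1 {t : ℝ} (ht : t ∈ J) (h2 : t ∈ Icc t₁ (t₁ + 4802 / n)) (y : M) :
    (h.X b (t, y)).Ks (p.fam (kap1 p t₁) t₁ (t₁ + 4802 / n) t) := by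
  obtain ⟨c1, c2, c3, c4⟩ := g.kap1_spec t₁
  obtain ⟨Υ, Υ', f, hf⟩ := g.exists_fam t₁ c1 c2 c4
  refine h.pin_fam b f h1 ht h2.2
    (h.M8_start b g h1 h0 c3 (c4 t₁ ⟨le_rfl, h2.1.trans h2.2⟩).2)
    (fun s hs y ν e e' a a' T => ?_) t ⟨h2.1, le_rfl⟩ y
  have hs' : s ∈ Icc t₁ (t₁ + 4802 / n) := ⟨hs.1.le, hs.2.trans h2.2⟩
  obtain ⟨d1, d2, d3⟩ := hf s hs'
  have d4 : (h.X b (s, y)).Rx (p.fam (kap1 p t₁) t₁ (t₁ + 4802 / n) s) ν e e' a a' +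
      4 * (p.m / 10 * (p.fam (kap1 p t₁) t₁ (t₁ + 4802 / n) s).Z) <
      10 * n * (p.fam (kap1 p t₁) t₁ (t₁ + 4802 / n) s).kap :=
    Arr.Tch.react_grow (h.good b (h.ord.out h1 ht ⟨hs.1.le, hs.2⟩) y) T d3
      (d2.trans_le (c4 s hs').2)
  have d5 : 0 ≤ (n : ℝ) * kap1 p t₁ s := mul_nonneg n.cast_nonneg (c4 s hs').1
  rw [d2] at d4
  linarith

theorem run2 {t : ℝ} (ht : t ∈ J) (h2 : t ∈ Icc t₁ (t₁ + 4802 / n)) (y : M) :
    (h.X b (t, y)).Ks2 (phi2 n t₁ t) := by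
  obtain ⟨c1, c2, -, c4⟩ := g.kap1_spec t₁
  obtain ⟨Υ, Υ', f, hf⟩ := g.exists_fam t₁ c1 c2 c4
  obtain ⟨φ', e1, e2, e3, e4, -⟩ := g.phi2_spec t₁
  have hκ : ∀ s ∈ Icc t₁ (t₁ + 4802 / n),
      (p.fam (kap1 p t₁) t₁ (t₁ + 4802 / n) s).kap ≤ 1 / 10 ^ 4 :=
    fun s hs => (hf s hs).2.1.trans_le (c4 s hs).2
  refine h.pin2 b f e1 e2 h1 ht (fun y e he => ?_) (fun s hs y e k he hv => ?_) t
    ⟨h2.1, le_rfl⟩ y
  · have hs' : t₁ ∈ Icc t₁ (t₁ + 4802 / n) := ⟨le_rfl, h2.1.trans h2.2⟩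
    exact (Arr.K.start2 (h.good b h1 y) (h.run1 b g h1 h0 h1 hs' y).K g.hn (hκ _ hs') e
      he).trans_le e3
  · have hs' : s ∈ Icc t₁ (t₁ + 4802 / n) := ⟨hs.1.le, hs.2.trans h2.2⟩
    have hJ : s ∈ J := h.ord.out h1 ht ⟨hs.1.le, hs.2⟩
    obtain ⟨d1, d2, d3⟩ := e4 s hs.1.le
    exact (Arr.K.react2 (h.good b hJ y) (h.run1 b g h1 h0 hJ hs' y).K g.hn (hκ _ hs') k he hv d1
      d2).trans_le d3

theorem run3 {t : ℝ} (ht : t ∈ J) (h2 : t ∈ Icc t₁ (t₁ + 4802 / n)) (y : M) :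
    (h.X b (t, y)).Ks (p.fam (kap3 p t₁) t₁ (t₁ + 4802 / n) t) := by
  obtain ⟨κ', c1, c2, c3, -, c4, c5, c6⟩ := g.kap3_spec t₁
  obtain ⟨Υ, Υ', f, hf⟩ := g.exists_fam t₁ c1 c2 c4
  obtain ⟨φ', -, -, -, -, e5⟩ := g.phi2_spec t₁
  refine h.pin_fam b f h1 ht h2.2
    (h.M8_start b g h1 h0 c3 (c4 t₁ ⟨le_rfl, h2.1.trans h2.2⟩).2)
    (fun s hs y ν e e' a a' T => ?_) t ⟨h2.1, le_rfl⟩ y
  have hs' : s ∈ Icc t₁ (t₁ + 4802 / n) := ⟨hs.1.le, hs.2.trans h2.2⟩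
  have hJ : s ∈ J := h.ord.out h1 ht ⟨hs.1.le, hs.2⟩
  obtain ⟨d1, d2, d3⟩ := hf s hs'
  rcases le_total s (t₁ + 4800 / n) with hc | hc
  · have d4 : (h.X b (s, y)).Rx (p.fam (kap3 p t₁) t₁ (t₁ + 4802 / n) s) ν e e' a a' +
        4 * (p.m / 10 * (p.fam (kap3 p t₁) t₁ (t₁ + 4802 / n) s).Z) <
        10 * n * (p.fam (kap3 p t₁) t₁ (t₁ + 4802 / n) s).kap :=
      Arr.Tch.react_grow (h.good b hJ y) T d3 (d2.trans_le (c4 s hs').2)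
    rw [d2] at d4
    linarith [c5 s ⟨hs.1.le, hc⟩]
  · have d4 : (h.X b (s, y)).Rx (p.fam (kap3 p t₁) t₁ (t₁ + 4802 / n) s) ν e e' a a' +
        4 * (p.m / 10 * (p.fam (kap3 p t₁) t₁ (t₁ + 4802 / n) s).Z) <
        n * (10 * (p.fam (kap3 p t₁) t₁ (t₁ + 4802 / n) s).kap - 1 / 100) :=
      Arr.Tch.react_late (h.good b hJ y) T d3 (d2.trans_le (c4 s hs').2) g.hn
        ((h.run2 b g h1 h0 hJ hs' y).K2.mono (e5 s hc))
    rw [d2] at d4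
    linarith [c6 s hs']

theorem pin_big : h.Pin b p.th32 t₁ := by
  intro t ht h2 x
  have hn : (0 : ℝ) ≤ 4802 / n := by positivity
  rcases le_total t (t₁ + 4802 / n) with hc | hc
  · have hZ : (p.th32.aft (t - t₁)).Z = (p.fam (kap3 p t₁) t₁ (t₁ + 4802 / n) t).Z := by
      simp only [Par.fam, min_eq_left hc, max_eq_right h2]
      rfl
    exact (h.run3 b g h1 h0 ht ⟨h2, hc⟩ x).K.mono hZ rfl rfl
      (Par.Y_le_of_θ _ hZ (le_max_left _ _))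
  · have h3 : t₁ + 4802 / n ∈ J := h.ord.out h1 ht ⟨by linarith, hc⟩
    have h4 : t₁ + 4802 / n ∈ Icc t₁ (t₁ + 4802 / n) := ⟨by linarith, le_rfl⟩
    obtain ⟨κ', -, -, -, c3, -⟩ := g.kap3_spec t₁
    have hθ : (p.aft (4802 / n)).θ = 2 := g.hθ
    have e1 : p.fam (kap3 p t₁) t₁ (t₁ + 4802 / n) (t₁ + 4802 / n) =
        (p.aft (4802 / n)).withK 0 := by
      simp only [Par.fam, min_self, max_eq_right h4.1, c3, add_sub_cancel_left]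
    have h5 : 9 / 10 ≤ (p.aft (4802 / n)).Z := by
      simpa only [add_sub_cancel_left] using g.aft_Z_ge t₁ h4
    have h6 : (p.aft (4802 / n)).Y = ((p.aft (4802 / n)).withK 0).Y := by
      have := (p.aft (4802 / n)).kap_two hθ
      rw [Par.withK_Y _ h5 le_rfl (by norm_num)]
      unfold Par.kap at this
      linarith
    have k := h.pin_Ks b (p.aft (4802 / n)) (Or.inl hθ) h3
      (fun y => M8_Ks (p := (p.aft (4802 / n)).withK 0) (e1 ▸ h.run3 b g h1 h0 h3 h4 y) rfl rfl rfl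
        h6) t ht hc x
    have hZ : (p.th32.aft (t - t₁)).Z = ((p.aft (4802 / n)).aft (t - (t₁ + 4802 / n))).Z := by
      rw [p.aft_aft hn (sub_nonneg.2 hc), show 4802 / (n : ℝ) + (t - (t₁ + 4802 / n)) = t - t₁ by
        ring]
      rfl
    refine k.mono hZ rfl rfl (Par.Y_le_of_θ _ hZ ?_)
    show (3 / 2 : ℝ) ≤ p.θ
    rw [g.hθ]
    norm_num

end Flow

end Pool.Agent.Lib.MP_de485e_gt.Hi
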