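import Pool.Agent.Lib.MP_de485e_gt.Big.M8a

/-! An explicit threshold for the dimension. -/

namespace Pool.Agent.Lib.MP_de485e_gt.Hi

private theorem M8b_exp : Real.exp 9 ≤ 10 ^ 4 := by
  have h1 : Real.exp 9 = Real.exp 1 ^ 9 := by
    rw [← Real.exp_nat_mul]
    norm_num
  have h2 : Real.exp 1 ^ 9 ≤ (2.7182818286 : ℝ) ^ 9 :=
    pow_le_pow_left₀ (Real.exp_pos 1).le Real.exp_one_lt_d9.le 9
  rw [h1]
  exact h2.trans (by norm_num)

private theorem M8b_pow {a b : ℕ} (h : a ≤ b) : (10 : ℝ) ^ a ≤ 10 ^ b :=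
  pow_le_pow_right₀ (by norm_num) h

private theorem M8b_main {k : ℕ} (hk : k = 3202) {x : ℝ} (hx : 10 ^ (4 * k + 40) ≤ x) :
    10 ^ 28 ≤ x * (Real.exp (-(3 * 4802)) / (4 * 10 ^ 4)) ^ 2 := by
  have h1 : Real.exp (2 * (3 * 4802)) ≤ (10 ^ 4) ^ k := by
    refine le_trans ?_ (pow_le_pow_left₀ (Real.exp_pos 9).le M8b_exp k)
    rw [← Real.exp_nat_mul, hk]
    exact Real.exp_le_exp.2 (by norm_num)
  have h2 : Real.exp (-(3 * 4802)) ^ 2 * Real.exp (2 * (3 * 4802)) = 1 := by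
    rw [← Real.exp_nat_mul, ← Real.exp_add]
    norm_num
  rw [pow_add, pow_mul] at hx
  have h3 : 0 < Real.exp (-(3 * 4802)) ^ 2 := by positivity
  rw [div_pow]
  generalize Real.exp (-(3 * 4802)) ^ 2 = E at h2 h3
  generalize Real.exp (2 * (3 * 4802)) = G at h1 h2
  generalize ((10 : ℝ) ^ 4) ^ k = W at h1 hx
  have h4 : 1 ≤ E * W := h2 ▸ mul_le_mul_of_nonneg_left h1 h3.le
  have h5 := mul_le_mul_of_nonneg_left hx h3.le
  rw [← mul_div_assoc, le_div_iff₀ (by norm_num)]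
  nlinarith

theorem big_of_le {n : ℕ} (h : 10 ^ 13000 ≤ n) : ∃ p : Par n, p.Big := by
  have h1 : ∀ a : ℕ, a ≤ 13000 → (10 : ℝ) ^ a ≤ n := fun a ha => by
    have h2 : 10 ^ a ≤ n := (Nat.pow_le_pow_right (by norm_num) ha).trans h
    exact_mod_cast h2
  have h2 := M8b_main rfl (h1 _ (by norm_num))
  have h3 := h1 20 (by norm_num)
  have h4 : (0 : ℝ) < n := lt_of_lt_of_le (by norm_num) h3
  have h5 : 0 < Real.exp (-(3 * 4802)) / (4 * 10 ^ 4) := by positivity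
  have h6 : Real.exp (-(3 * 4802)) / (4 * 10 ^ 4) ≤ 1 / 2 := by
    have := Real.exp_le_one_iff.2 (show (-(3 * 4802) : ℝ) ≤ 0 by norm_num)
    rw [div_le_iff₀ (by norm_num)]
    exact this.trans (by norm_num)
  have h7 : 0 < √(n : ℝ) := Real.sqrt_pos.2 h4
  clear h1 h
  generalize hm : Real.exp (-(3 * 4802)) / (4 * 10 ^ 4) = m at h2 h5 h6
  refine ⟨⟨1 - m, m, 10 * √n, by linarith, h5, by linarith, ?_, by positivity, ?_, 2, Or.inl rfl⟩,
    h3, rfl, rfl, hm.symm⟩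
  · have : (1 - m) ^ 2 ≤ 1 := by nlinarith
    linarith
  · rw [mul_pow, Real.sq_sqrt h4.le]
    norm_num

end Pool.Agent.Lib.MP_de485e_gt.Hi
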