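import Mathlib

/-! The real inequality at a touching point of the second condition. -/

namespace Pool.Agent.Lib.MP_de485e_gt.Hi

private lemma RealM_y {n r y l : ℝ} (hn : 10 ^ 20 ≤ n) (hl : 0 < l) (hl2 : l ^ 2 = 100 * n)
    (hy : y ≤ 1 / 3 + 1 / 10 ^ 4 + (1 + r / l) / (4 * 10 ^ 6)) :
    ∃ s : ℝ, 0 ≤ s ∧ n * s = r ^ 2 / (4 * 10 ^ 8) ∧ s ≤ r ^ 2 / 10 ^ 20 ∧
      y ≤ 1 / 3 + 1 / 10 ^ 4 + 1 / (2 * 10 ^ 6) + s := by
  have hn0 : 0 < n := lt_of_lt_of_le (by norm_num) hn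
  have h1 : (r / l) ^ 2 * (100 * n) = r ^ 2 := by
    rw [← hl2]
    field_simp
  have h2 : r / l ≤ 1 + (r / l) ^ 2 := by nlinarith [sq_nonneg (r / l - 1)]
  have h3 : 0 ≤ (r / l) ^ 2 := sq_nonneg _
  refine ⟨(r / l) ^ 2 / (4 * 10 ^ 6), by positivity, by linarith, ?_, by linarith⟩
  have h4 : 10 ^ 20 * (r / l) ^ 2 ≤ n * (r / l) ^ 2 := mul_le_mul_of_nonneg_right hn h3
  linarith

private lemma RealM_k {n k : ℝ} (hn : 10 ^ 20 ≤ n) (hk : k = (n + 2) / (2 * (n - 1))) :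
    0 ≤ k ∧ k ≤ 51 / 100 ∧ n * (2 * k - 1) ≤ 4 := by
  have h0 : 0 < 2 * (n - 1) := by linarith
  have h1 : k * (2 * (n - 1)) = n + 2 := by
    rw [hk]
    exact div_mul_cancel₀ _ h0.ne'
  have h2 : k ≤ 51 / 100 := by
    rw [hk, div_le_iff₀ h0]
    linarith
  refine ⟨?_, h2, by linarith⟩
  rw [hk]
  exact div_nonneg (by linarith) h0.le

/-- `μ + 200 k u / n = φ + 200 r ^ 2`, `1 - k - k Z ≥ -3 / (n - 1)`, `r / l ≤ 1 + r ^ 4 / l ^ 4`. -/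
theorem realM {n r y Z k μ u ζ φ Rm GC l : ℝ} (hn : 10 ^ 20 ≤ n) (hr : 0 ≤ r) (hl : 0 < l)
    (hl2 : l ^ 2 = 100 * n) (hy0 : 0 ≤ y) (hy : y ≤ 1 / 3 + 1 / 10 ^ 4 + (1 + r / l) / (4 * 10 ^ 6))
    (hZ0 : 0 ≤ Z) (hZ : Z ≤ 1) (hk : k = (n + 2) / (2 * (n - 1))) (hu : 0 ≤ u) (hμ : 0 ≤ μ)
    (hζ0 : 0 ≤ ζ) (hζ : ζ ≤ r ^ 2 * (Z * r ^ 2 + y)) (h1 : n / 30 ≤ φ) (h2 : φ ≤ 41 * n)
    (ht : μ - 200 * (r ^ 2 - k / n * u) = φ)
    (hR : Rm ≤ ((3 - 1 / 200) * y - 1) * (n * μ) + 97 * n * (r ^ 2) ^ 2 +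
      1000 * n * y * (r ^ 2 + y))
    (hG : GC ≤ (3 - 1 / 200) * (n * y * u) + n ^ 2 * Z * ζ + 1000 * n ^ 2 * y * (r ^ 2 + y)) :
    2 * Rm - 200 * (2 * (n * (r ^ 2 * r ^ 2 + ζ + r ^ 2)) -
      k / n * (2 * GC + 2 * (n ^ 2 * ζ) - 2 * (n * u))) < -(n * φ / 600) := by
  obtain ⟨s, hs0, hs1, hs2, hys⟩ := RealM_y hn hl hl2 hy
  obtain ⟨hk0, hk1, hk2⟩ := RealM_k hn hk
  have hn0 : 0 < n := lt_of_lt_of_le (by norm_num) hn
  have he : 0 ≤ r ^ 2 := sq_nonneg r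
  generalize r ^ 2 = e at *
  have hκ0 : 0 ≤ k / n := div_nonneg hk0 hn0.le
  have hκ : k = k / n * n := (div_mul_cancel₀ k hn0.ne').symm
  generalize k / n = κ at *
  have hφ0 : 0 ≤ φ := by linarith
  have hμ' : μ = φ + 200 * (e - κ * u) := by linarith
  have key : 2 * Rm - 200 * (2 * (n * (e * e + ζ + e)) -
      κ * (2 * GC + 2 * (n ^ 2 * ζ) - 2 * (n * u))) ≤
      n * (2 * ((3 - 1 / 200) * y - 1) * φ + 400 * ((3 - 1 / 200) * y - 1) * e - 206 * e ^ 2 -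
        400 * e + (2000 + 400000 * k) * (y * (e + y))) + 400 * (ζ * (n * (k + k * Z - 1))) := by
    have h3 := mul_le_mul_of_nonneg_left hG hκ0
    rw [hμ'] at hR
    rw [hκ]
    linarith
  have hA : 2 * ((3 - 1 / 200) * y - 1) * φ + φ / 600 ≤ -(n / 30000) + e := by
    have h3 : y * φ ≤ (1 / 3 + 1 / 10 ^ 4 + 1 / (2 * 10 ^ 6) + s) * φ :=
      mul_le_mul_of_nonneg_right hys hφ0
    have h4 : s * φ ≤ s * (41 * n) := mul_le_mul_of_nonneg_left h2 hs0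
    linarith
  have hy1 : y ≤ 1 / 2 + e / 10 ^ 20 := by linarith
  have hye : y * e ≤ (1 / 3 + 1 / 10 ^ 4 + 1 / (2 * 10 ^ 6) + e / 10 ^ 20) * e :=
    mul_le_mul_of_nonneg_right (by linarith) he
  have hyy : y * y ≤ (1 / 2 + e / 10 ^ 20) * (1 / 2 + e / 10 ^ 20) :=
    mul_le_mul hy1 hy1 hy0 (by positivity)
  have hee : 0 ≤ e ^ 2 := sq_nonneg e
  have hB : 400 * ((3 - 1 / 200) * y - 1) * e ≤ e ^ 2 := by linarith
  have hD : (2000 + 400000 * k) * (y * (e + y)) ≤ 206000 * e + 51500 + e ^ 2 := by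
    have h3 : (2000 + 400000 * k) * (y * (e + y)) ≤ 206000 * (y * (e + y)) :=
      mul_le_mul_of_nonneg_right (by linarith) (by positivity)
    linarith
  have hC : ζ * (n * (k + k * Z - 1)) ≤ 4 * (2 * e ^ 2 + e) := by
    have h3 : k * Z ≤ k := mul_le_of_le_one_right hk0 hZ
    have h4 : n * (k + k * Z - 1) ≤ n * (2 * k - 1) :=
      mul_le_mul_of_nonneg_left (by linarith) hn0.le
    have h5 : ζ * (n * (k + k * Z - 1)) ≤ ζ * 4 := mul_le_mul_of_nonneg_left (by linarith) hζ0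
    have h6 : Z * e ^ 2 ≤ e ^ 2 := mul_le_of_le_one_left hee hZ
    linarith
  have hC' : 400 * (4 * (2 * e ^ 2 + e)) ≤ n * (e ^ 2 + e) := by
    have h3 : 10 ^ 20 * (e ^ 2 + e) ≤ n * (e ^ 2 + e) :=
      mul_le_mul_of_nonneg_right hn (by positivity)
    linarith
  have hS : 2 * ((3 - 1 / 200) * y - 1) * φ + 400 * ((3 - 1 / 200) * y - 1) * e - 206 * e ^ 2 -
      400 * e + (2000 + 400000 * k) * (y * (e + y)) + (e ^ 2 + e) + φ / 600 < 0 := by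
    have h3 := sq_nonneg (e - 1000)
    linarith
  have h7 := mul_neg_of_pos_of_neg hn0 hS
  linarith

/-- `row_le` and `u_le0` give the second condition with constant `40 n`. -/
theorem realS {n r y Z k μ u l : ℝ} (hn : 10 ^ 20 ≤ n) (hr : 0 ≤ r) (hl : 0 < l)
    (hl2 : l ^ 2 = 100 * n) (hy0 : 0 ≤ y) (hy : y ≤ 1 / 3 + 1 / 10 ^ 4 + (1 + r / l) / (4 * 10 ^ 6))
    (hZ0 : 0 ≤ Z) (hZ : Z ≤ 1) (hk : k = (n + 2) / (2 * (n - 1)))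
    (hμ : μ ≤ (n + 31) * y + 68 * Z * r ^ 2) (hu : u ≤ n * (Z * r ^ 2 + (n + 16) * y)) :
    μ - 200 * (r ^ 2 - k / n * u) < 40 * n := by
  obtain ⟨s, hs0, hs1, hs2, hys⟩ := RealM_y hn hl hl2 hy
  obtain ⟨hk0, hk1, hk2⟩ := RealM_k hn hk
  have hn0 : 0 < n := lt_of_lt_of_le (by norm_num) hn
  have he : 0 ≤ r ^ 2 := sq_nonneg r
  generalize r ^ 2 = e at *
  have hκ0 : 0 ≤ k / n := div_nonneg hk0 hn0.le
  have hκ : k / n * n = k := div_mul_cancel₀ k hn0.ne'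
  have h3 : k / n * u ≤ k * (Z * e + (n + 16) * y) := by
    refine (mul_le_mul_of_nonneg_left hu hκ0).trans (le_of_eq ?_)
    rw [← mul_assoc, hκ]
  have h4 : Z * e ≤ e := mul_le_of_le_one_left he hZ
  have h5 : k * (Z * e + (n + 16) * y) ≤ 51 / 100 * (Z * e + (n + 16) * y) :=
    mul_le_mul_of_nonneg_right hk1 (by positivity)
  have h6 : n * y ≤ n * (1 / 3 + 1 / 10 ^ 4 + 1 / (2 * 10 ^ 6) + s) :=
    mul_le_mul_of_nonneg_left hys hn0.le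
  have h7 : 10 ^ 20 * y ≤ n * y := mul_le_mul_of_nonneg_right hn hy0
  linarith

end Pool.Agent.Lib.MP_de485e_gt.Hi
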