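import Pool.Agent.Lib.MP_de485e_gt.Big.KU
import Pool.Agent.Lib.MP_de485e_gt.Big.RealM
import Pool.Agent.Lib.MP_de485e_gt.Big.Par3
import Pool.Agent.Lib.MP_de485e_gt.Hi.P4

/-! The second condition at a touching point and at the start. -/

open scoped RealInnerProductSpace

namespace Pool.Agent.Lib.MP_de485e_gt.Hi

variable {n : ℕ} {V N : Type} [NormedAddCommGroup V] [InnerProductSpace ℝ V]
  [FiniteDimensional ℝ V] [NormedAddCommGroup N] [InnerProductSpace ℝ N] [FiniteDimensional ℝ N]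

private theorem P9_react {ν k Z y e L u ζ G C : ℝ} (hν : 2 ≤ ν) (hk0 : 0 ≤ k)
    (hk : k ≤ 51 / 100) (hZ : 0 ≤ Z) (hZ1 : Z ≤ 1)
    (hkZ : k * Z ≤ 3 / 4) (hZn : 10 ^ 6 * Z ≤ ν) (hy : 0 ≤ y)
    (he : 0 ≤ e) (hL : L = 100 * ν) (hu0 : 0 ≤ u) (hu : u ≤ 9 / 8 * Z * ν * (L + e))
    (hζ0 : 0 ≤ ζ) (hζ : ζ ≤ e * (Z * e + y)) (hG : G ≤ ν * y * u + ν ^ 2 * Z * ζ)
    (hC : C ≤ 4 * ((ν + 31) * y + 68 * Z * e) * u) :
    2 * ν * (11 / 16 * e ^ 2 - 4 * e * y - 69 * y * (L + e) - 27200 * Z * e) ≤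
      2 * (ν * (e * e + ζ + e)) - k / ν * (2 * G + 2 * (ν ^ 2 * ζ) + 2 * C - 2 * (ν * u)) := by
  have hν0 : 0 < ν := by linarith
  have hw : 0 ≤ L + e := by rw [hL]; positivity
  obtain ⟨t, ht⟩ : ∃ t, t = k * u / ν := ⟨_, rfl⟩
  have ht0 : 0 ≤ t := by rw [ht]; positivity
  have ht1 : t ≤ 27 / 32 * (L + e) := by
    rw [ht, div_le_iff₀ hν0]
    have a1 : k * u ≤ k * (9 / 8 * Z * ν * (L + e)) := mul_le_mul_of_nonneg_left hu hk0
    have a2 : k * Z * (ν * (L + e)) ≤ 3 / 4 * (ν * (L + e)) :=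
      mul_le_mul_of_nonneg_right hkZ (by positivity)
    nlinarith
  have hkν : 0 ≤ k / ν := by positivity
  have b1 : k / ν * G ≤ ν * y * t + ν * (k * Z * ζ) := by
    calc k / ν * G ≤ k / ν * (ν * y * u + ν ^ 2 * Z * ζ) := mul_le_mul_of_nonneg_left hG hkν
      _ = ν * y * t + ν * (k * Z * ζ) := by rw [ht]; field_simp
  have b2 : k / ν * C ≤ 4 * ((ν + 31) * y + 68 * Z * e) * t := by
    calc k / ν * C ≤ k / ν * (4 * ((ν + 31) * y + 68 * Z * e) * u) :=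
          mul_le_mul_of_nonneg_left hC hkν
      _ = 4 * ((ν + 31) * y + 68 * Z * e) * t := by rw [ht]; field_simp
  have b3 : k / ν * (ν ^ 2 * ζ) = ν * (k * ζ) := by field_simp
  have b4 : 0 ≤ k / ν * (ν * u) := by positivity
  have c1 : (k * Z + k - 1) * ζ ≤ 1 / 4 * e ^ 2 + 3 * (e * y) := by
    have hey : 0 ≤ e * y := mul_nonneg he hy
    rcases le_total (k * Z + k - 1) 0 with hc | hc
    · have := mul_nonpos_of_nonpos_of_nonneg hc hζ0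
      nlinarith [sq_nonneg e]
    · have d1 := mul_le_mul_of_nonneg_left hζ hc
      have d0 : k * Z ≤ k := mul_le_of_le_one_right hk0 hZ1
      have d2 : (k * Z + k - 1) * Z ≤ 1 / 4 := (mul_le_of_le_one_right hc hZ1).trans (by linarith)
      have d3 : k * Z + k - 1 ≤ 3 := by linarith
      have d4 := mul_le_mul_of_nonneg_right d2 (sq_nonneg e)
      have d5 := mul_le_mul_of_nonneg_right d3 hey
      nlinarith
  have c1' := mul_le_mul_of_nonneg_left c1 hν0.le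
  have c2 : y * t ≤ y * (27 / 32 * (L + e)) := mul_le_mul_of_nonneg_left ht1 hy
  have c2' := mul_le_mul_of_nonneg_left c2 hν0.le
  have c3 : (ν + 31) * (y * t) ≤ 33 / 2 * ν * (y * t) :=
    mul_le_mul_of_nonneg_right (by linarith) (mul_nonneg hy ht0)
  have c4 : Z * e * t ≤ Z * e * (27 / 32 * (L + e)) :=
    mul_le_mul_of_nonneg_left ht1 (mul_nonneg hZ he)
  have c5 : 10 ^ 6 * Z * e ^ 2 ≤ ν * e ^ 2 := mul_le_mul_of_nonneg_right hZn (sq_nonneg e)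
  have c6 : Z * e * L = 100 * (ν * (Z * e)) := by rw [hL]; ring
  have p1 : 0 ≤ ν * e := by positivity
  have p2 : 0 ≤ ν * (e * y) := by positivity
  have p3 : 0 ≤ ν * (y * (L + e)) := by positivity
  have p4 : 0 ≤ ν * (Z * e) := by positivity
  have p5 : 0 ≤ ν * e ^ 2 := by positivity
  have key : k / ν * (2 * G + 2 * (ν ^ 2 * ζ) + 2 * C - 2 * (ν * u)) =
      2 * (k / ν * G) + 2 * (k / ν * (ν ^ 2 * ζ)) + 2 * (k / ν * C) - 2 * (k / ν * (ν * u)) := by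
    ring
  rw [key, b3]
  nlinarith

namespace SF

variable {S : SF n V N} {p : Par n} (h : S.K p) (hn : (10 : ℝ) ^ 20 ≤ n)
include h hn

theorem K.react2 (hκ : p.kap ≤ 1 / 10 ^ 4) {φ : ℝ} (k : S.K2 φ) {e : V} (he : ‖e‖ = 1)
    (ht : S.f2 e = φ) (h1 : (n : ℝ) / 30 ≤ φ) (h2 : φ ≤ 41 * n) :
    2 * S.Rm e - 200 * (S.Re - kk n / n * S.Ru) < -(n * φ / 600) := by
  have hy := p.y_nonneg S.e2 S.u
  have t : S.Top e := ⟨he, fun e' he' => by
    have := k e' he'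
    rw [← ht] at this
    unfold f2 at this
    linarith⟩
  have := realM (r := ‖S.eta‖) (k := kk n) (μ := S.mu e) (φ := φ) hn (norm_nonneg _) p.hl p.hl2 hy
    (p.y_le' S.hn hκ (norm_nonneg _) S.u_nonneg) p.hZ.le p.Z_lt.le rfl S.u_nonneg
    (Finset.sum_nonneg fun _ _ => sq_nonneg _) S.zeta_nonneg
    (h.K0.zeta_le p.hZ.le p.Z_lt.le hy) h1 h2 ht (h.K0.Rm_le p.hZ.le p.Z_lt.le hy hn t)
    (h.K0.GC_le p.hZ.le p.Z_lt.le hy hn)
  have e : S.Ru = 2 * (S.G2 + S.CC) + 2 * ((n : ℝ) ^ 2 * S.zeta) - 2 * (n * S.u) := by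
    unfold Ru
    ring
  rw [e]
  exact this

theorem K.start2 (hκ : p.kap ≤ 1 / 10 ^ 4) {e : V} (he : ‖e‖ = 1) : S.f2 e < 40 * n := by
  have hy := p.y_nonneg S.e2 S.u
  exact realS (r := ‖S.eta‖) hn (norm_nonneg _) p.hl p.hl2 hy
    (p.y_le' S.hn hκ (norm_nonneg _) S.u_nonneg) p.hZ.le p.Z_lt.le rfl
    (h.K0.row_le p.hZ.le p.Z_lt.le hy he) (h.K0.u_le0 p.hZ.le p.Z_lt.le hy)

/-- As `react_g`, with `kk n ≤ 51 / 100`. -/
theorem K.react_g' :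
    2 * n * (11 / 16 * S.e2 ^ 2 - 4 * S.e2 * p.y S.e2 S.u - 69 * p.y S.e2 S.u * (p.l ^ 2 + S.e2) -
      27200 * p.Z * S.e2) ≤ S.Re - kk n / n * S.Ru := by
  have hN : (2 : ℝ) ≤ n := by exact_mod_cast S.hn
  have hk := Par.kk_bounds S.hn
  have hk' : kk n ≤ 51 / 100 := by
    unfold kk
    rw [div_le_iff₀ (by linarith)]
    linarith
  have hy := p.y_nonneg S.e2 S.u
  exact P9_react hN (by linarith [hk.1]) hk' p.hZ.le p.Z_lt.le (p.kZ S.hn) (p.Zn S.hn) hy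
    (sq_nonneg _) p.hl2 S.u_nonneg h.u_le S.zeta_nonneg (h.K0.zeta_le p.hZ.le p.Z_lt.le hy)
    (h.K0.G2_le p.hZ.le p.Z_lt.le hy)
    (S.CC_le_of_row fun _ he => h.K0.row_le p.hZ.le p.Z_lt.le hy he)

end SF

end Pool.Agent.Lib.MP_de485e_gt.Hi
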